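import Pool.Agent.H719.PC.ThmB

set_option autoImplicit false

/-!
# Correctness of the algorithm on rigid graphs
-/

namespace Pool.Agent.H719.PC

open Classical Relation

variable {V : Type} [Fintype V] {G : SimpleGraph V}

theorem vol_um (τ : V → ℕ) {a b : V} {k : ℕ} (ha : kd G a = kU) (hb : kd G b = kM k) :
    vol G τ a b = false := by
  unfold vol
  rw [if_neg (by rw [hb]; exact kM_ne_kW k), if_neg (by rw [ha]; exact kU_ne_kW)]

theorem vol_ut (τ : V → ℕ) {a b : V} (ha : kd G a = kU) (hb : kd G b = kT) :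
    vol G τ a b = false := by
  unfold vol
  rw [if_neg (by rw [hb]; exact kW_ne_kT.symm), if_neg (by rw [ha]; exact kU_ne_kW)]

theorem vol_mw (τ : V → ℕ) {a b : V} {k : ℕ} (ha : kd G a = kM k) (hb : kd G b = kW) :
    vol G τ a b = xn (τ a) k := by
  unfold vol
  rw [if_pos hb, show lf G a = k from congrArg Prod.snd ha]

theorem xor_swap {a b c : Bool} (h : b = xor a c) : a = xor b c := by
  rw [h, Bool.xor_assoc, Bool.xor_self, Bool.xor_false]

section
variable (h : C1 G) {i : V → Fin 3} {p : V → Bool}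
  (s1 : ∀ k < 4, ∀ a b, G.Adj a b → kd G a = kU → kd G b = kM k → i a = i b ∧ p a = p b)
  (s2 : ∀ k < 4, ∀ a b, G.Adj a b → kd G a = kM k → kd G b = kW →
    i a = i b ∧ p b = xor (p a) (xn (i a) k))
  (s3 : ∀ a b, G.Adj a b → kd G a = kU → kd G b = kT → p a = p b)

include h s1 s2

theorem sol_type {a b : V} (hab : cE G a b) : i a = i b := by
  rcases edge_cases h hab.1 with hE | hE
  · rcases hE with ⟨h1, h2⟩ | ⟨k, hk, h1, h2⟩ | ⟨k, hk, h1, h2⟩ | ⟨k, hk, h1, h2⟩
    · exact absurd h2 hab.2.2.2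
    · exact (s1 k hk a b hab.1 h1 h2).1
    · exact (s2 k hk a b hab.1 h1 h2).1
    · exact absurd h2 hab.2.2.1
  · rcases hE with ⟨h1, h2⟩ | ⟨k, hk, h1, h2⟩ | ⟨k, hk, h1, h2⟩ | ⟨k, hk, h1, h2⟩
    · exact absurd h2 hab.2.1.2
    · exact (s1 k hk b a hab.1.symm h1 h2).1.symm
    · exact (s2 k hk b a hab.1.symm h1 h2).1.symm
    · exact absurd h2 hab.2.1.1

include s3

theorem sol_pot {τ : V → ℕ} (hτ : ∀ v, isM G v → τ v = i v) {a b : V} (hab : nE G a b) :
    p b = xor (p a) (vol G τ a b) := by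
  rcases edge_cases h hab.1 with hE | hE
  · rcases hE with ⟨h1, h2⟩ | ⟨k, hk, h1, h2⟩ | ⟨k, hk, h1, h2⟩ | ⟨k, hk, h1, h2⟩
    · rw [vol_ut τ h1 h2, Bool.xor_false]
      exact (s3 a b hab.1 h1 h2).symm
    · rw [vol_um τ h1 h2, Bool.xor_false]
      exact (s1 k hk a b hab.1 h1 h2).2.symm
    · rw [vol_mw τ h1 h2, hτ a ⟨k, hk, h1⟩]
      exact (s2 k hk a b hab.1 h1 h2).2
    · exact absurd h2 hab.2.2
  · rw [vol_symm h τ hab.1]
    apply xor_swap
    rcases hE with ⟨h1, h2⟩ | ⟨k, hk, h1, h2⟩ | ⟨k, hk, h1, h2⟩ | ⟨k, hk, h1, h2⟩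
    · rw [vol_ut τ h1 h2, Bool.xor_false]
      exact (s3 b a hab.1.symm h1 h2).symm
    · rw [vol_um τ h1 h2, Bool.xor_false]
      exact (s1 k hk b a hab.1.symm h1 h2).2.symm
    · rw [vol_mw τ h1 h2, hτ b ⟨k, hk, h1⟩]
      exact (s2 k hk b a hab.1.symm h1 h2).2
    · exact absurd h2 hab.2.1

theorem sol_not_odd (v : V) : ¬ OddW (cE G) (vol G fun _ => (i v : ℕ)) v := by
  intro hodd
  have key : ∀ y : V × Bool, ReflTransGen (Lift (cE G) (vol G fun _ => (i v : ℕ))) (v, false) y →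
      i y.1 = i v ∧ p y.1 = xor (p v) y.2 := by
    intro y hy
    induction hy with
    | refl => simp
    | @tail b c _ hbc ih =>
      obtain ⟨e1, e2⟩ := hbc
      have t1 := sol_type h s1 s2 e1
      refine ⟨t1.symm.trans ih.1, ?_⟩
      have t2 := sol_pot h s1 s2 s3 (τ := fun x => (i x : ℕ)) (fun _ _ => rfl)
        (⟨e1.1, e1.2.1.1, e1.2.2.1⟩ : nE G b.1 c.1)
      have t3 : vol G (fun x => (i x : ℕ)) b.1 c.1 = vol G (fun _ => (i v : ℕ)) b.1 c.1 := by
        unfold vol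
        simp only [← t1, ih.1]
      rw [t2, t3, e2, ih.2, Bool.xor_assoc]
  have := (key _ hodd).2
  simp at this

end

theorem tau_lt (v : V) : tau G v < 3 := by
  unfold tau
  split_ifs <;> omega

theorem tau_eq_of (hr : Rigid G) {v : V} (hv : colr G v) {i : Fin 3}
    (hi : ¬ OddW (cE G) (vol G fun _ => (i : ℕ)) v) : tau G v = i := by
  have h1 : ∀ j < 3, j ≠ (i : ℕ) → OddW (cE G) (vol G fun _ => j) v := fun j hj hji =>
    (hr v hv.1 hv.2 j hj i i.2 hji).resolve_right hi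
  unfold tau
  by_cases h0 : (i : ℕ) = 0
  · rw [h0] at hi ⊢
    rw [if_pos hi]
  · rw [if_neg (not_not.2 (h1 0 (by norm_num) (Ne.symm h0)))]
    by_cases h2 : (i : ℕ) = 1
    · rw [h2] at hi ⊢
      rw [if_pos hi]
    · rw [if_neg (not_not.2 (h1 1 (by norm_num) (Ne.symm h2)))]
      omega

theorem tau_const (h : C1 G) {a b : V} (hab : cE G a b) : tau G a = tau G b := by
  have key : ∀ j, OddW (cE G) (vol G fun _ => j) a ↔ OddW (cE G) (vol G fun _ => j) b := by
    intro j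
    constructor
    · exact oddW_of_reach (fun _ _ => cE_symm) (fun _ _ hab => vol_symm h _ hab.1)
        (ReflTransGen.single (cE_symm hab))
    · exact oddW_of_reach (fun _ _ => cE_symm) (fun _ _ hab => vol_symm h _ hab.1)
        (ReflTransGen.single hab)
  unfold tau
  simp only [key]

theorem taskC : TaskC := by
  intro V _ G h hr
  constructor
  · rintro ⟨i, p, s1, s2, s3, s4⟩
    have ht : ∀ v, colr G v → tau G v = i v := fun v hv =>
      tau_eq_of hr hv (sol_not_odd h s1 s2 s3 v)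
    refine ⟨h, ?_, ?_⟩
    · intro c a b hc hca hcb hab
      rw [ht a (colr_U (h.tu c hc a hca)), ht b (colr_U (h.tu c hc b hcb))]
      intro he
      exact s4 c a b hc hca hcb hab (Fin.ext he)
    · apply not_odd_of_potential p
      intro a b hab
      refine sol_pot h s1 s2 s3 (fun v hv => ?_) hab
      obtain ⟨k, _, hk⟩ := hv
      exact ht v (colr_M hk)
  · rintro ⟨_, t1, t2⟩
    obtain ⟨p, hp⟩ := exists_potential (fun _ _ => nE_symm)
      (fun _ _ hab => vol_symm h _ hab.1) t2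
    refine ⟨fun v => ⟨tau G v, tau_lt v⟩, p, ?_, ?_, ?_, ?_⟩
    · intro k hk a b hab ha hb
      have e := hp a b ⟨hab, (colr_U ha).1, (colr_M hb).1⟩
      rw [vol_um _ ha hb, Bool.xor_false] at e
      refine ⟨Fin.ext (tau_const h ⟨hab, colr_U ha, colr_M hb⟩), e.symm⟩
    · intro k hk a b hab ha hb
      have e := hp a b ⟨hab, (colr_M ha).1, (colr_W hb).1⟩
      rw [vol_mw _ ha hb] at e
      exact ⟨Fin.ext (tau_const h ⟨hab, colr_M ha, colr_W hb⟩), e⟩
    · intro a b hab ha hb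
      have e := hp a b ⟨hab, (colr_U ha).1, by rw [hb]; exact kT_ne_kL⟩
      rw [vol_ut _ ha hb, Bool.xor_false] at e
      exact e.symm
    · intro c a b hc hca hcb hab he
      exact t1 c a b hc hca hcb hab (congrArg Fin.val he)

end Pool.Agent.H719.PC
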