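import Pool.Agent.H719.PC.AlgM
import Pool.Agent.H719.PC.ThmC

set_option autoImplicit false

/-!
# The algorithm on adjacency matrices: correctness
-/

namespace Pool.Agent.H719.PC

open Relation Pool.Agent.NPC Pool.Agent.NPC.R671

theorem length_adjMatrix {n : ℕ} (G : SimpleGraph (Fin n)) : (adjMatrix G).length = n := by
  unfold adjMatrix
  exact List.length_ofFn

theorem mem_rng {n : ℕ} {G : SimpleGraph (Fin n)} {i : ℕ} : i ∈ rng (adjMatrix G) ↔ i < n := by
  unfold rng
  rw [length_adjMatrix, List.mem_range]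

theorem getD_ofFn {α : Type} {n : ℕ} (f : Fin n → α) (i : Fin n) (d : α) :
    (List.ofFn f).getD i d = f i := by
  rw [List.getD_eq_getElem _ _ (by rw [List.length_ofFn]; exact i.2), List.getElem_ofFn]

open Classical in
theorem adM_iff {n : ℕ} (G : SimpleGraph (Fin n)) (i j : Fin n) :
    adM (adjMatrix G) i j = true ↔ G.Adj i j := by
  unfold adM adjMatrix
  rw [getD_ofFn, getD_ofFn, decide_eq_true_iff]

theorem length_filter_range (n : ℕ) (p : ℕ → Bool) (q : Fin n → Prop) [DecidablePred q]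
    (h : ∀ i : Fin n, p i = true ↔ q i) :
    ((List.range n).filter p).length = (Finset.univ.filter q).card := by
  have h1 : ((List.range n).filter p).length = ((Finset.range n).filter (fun i => p i = true)).card := by
    rw [← List.toFinset_card_of_nodup ((List.nodup_range).filter _)]
    congr 1
    ext a
    simp
  rw [h1, ← Finset.card_map Fin.valEmbedding]
  congr 1
  ext a
  simp only [Finset.mem_filter, Finset.mem_range, Finset.mem_map, Finset.mem_univ, true_and,
    Fin.valEmbedding_apply]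
  constructor
  · rintro ⟨h2, h3⟩
    exact ⟨⟨a, h2⟩, (h _).1 h3, rfl⟩
  · rintro ⟨b, hb, rfl⟩
    exact ⟨b.2, (h _).2 hb⟩

section

variable {n : ℕ} {G : SimpleGraph (Fin n)}

open Classical in
theorem dgM_eq (i : Fin n) : dgM (adjMatrix G) i = dg G i := by
  unfold dgM dg rng
  rw [length_adjMatrix]
  exact length_filter_range n _ _ (fun j => adM_iff G i j)

open Classical in
theorem lfM_eq (i : Fin n) : lfM (adjMatrix G) i = lf G i := by
  unfold lfM lf rng
  rw [length_adjMatrix]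
  apply length_filter_range n
  intro j
  rw [Bool.and_eq_true, adM_iff, decide_eq_true_iff, dgM_eq]

theorem kdM_eq (i : Fin n) : kdM (adjMatrix G) i = kd G i := by
  unfold kdM kd
  rw [dgM_eq, lfM_eq]

theorem any_rng {p : ℕ → Bool} : (rng (adjMatrix G)).any p = true ↔ ∃ i : Fin n, p i = true := by
  rw [List.any_eq_true]
  constructor
  · rintro ⟨i, h1, h2⟩
    exact ⟨⟨i, mem_rng.1 h1⟩, h2⟩
  · rintro ⟨i, h⟩
    exact ⟨i, mem_rng.2 i.2, h⟩

theorem all_rng {p : ℕ → Bool} : (rng (adjMatrix G)).all p = true ↔ ∀ i : Fin n, p i = true := by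
  rw [List.all_eq_true]
  constructor
  · intro h i
    exact h i (mem_rng.2 i.2)
  · intro h i hi
    exact h ⟨i, mem_rng.1 hi⟩

theorem hasM_iff (i : Fin n) (K : ℕ × ℕ) :
    hasM (adjMatrix G) i K = true ↔ ∃ a, G.Adj i a ∧ kd G a = K := by
  unfold hasM
  rw [any_rng]
  simp only [Bool.and_eq_true, adM_iff, decide_eq_true_iff, kdM_eq]

theorem ex_lt4 {p : ℕ → Prop} : (∃ k < 4, p k) ↔ p 0 ∨ p 1 ∨ p 2 ∨ p 3 := by
  constructor
  · rintro ⟨k, hk, h⟩
    interval_cases k <;> tauto
  · rintro (h | h | h | h)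
    · exact ⟨0, by norm_num, h⟩
    · exact ⟨1, by norm_num, h⟩
    · exact ⟨2, by norm_num, h⟩
    · exact ⟨3, by norm_num, h⟩

theorem all_lt4 {p : ℕ → Prop} : (∀ k < 4, p k) ↔ p 0 ∧ p 1 ∧ p 2 ∧ p 3 := by
  constructor
  · intro h
    exact ⟨h 0 (by norm_num), h 1 (by norm_num), h 2 (by norm_num), h 3 (by norm_num)⟩
  · rintro ⟨h0, h1, h2, h3⟩ k hk
    interval_cases k <;> assumption

theorem c1a_iff (i : Fin n) : c1a (adjMatrix G) i = true ↔
    kd G i = kU ∨ kd G i = kW ∨ kd G i = kT ∨ (∃ k < 4, kd G i = kM k) ∨ kd G i = kL := by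
  unfold c1a
  simp only [Bool.or_eq_true, decide_eq_true_iff, kdM_eq, ex_lt4, or_assoc]

theorem c1m_iff (i : Fin n) : c1m (adjMatrix G) i = true ↔
    ∀ k < 4, ∃ a, G.Adj i a ∧ kd G a = kM k := by
  unfold c1m
  simp only [Bool.and_eq_true, hasM_iff, all_lt4, and_assoc]

theorem isMM_iff (i : Fin n) : isMM (adjMatrix G) i = true ↔ ∃ k < 4, kd G i = kM k := by
  unfold isMM
  simp only [Bool.or_eq_true, decide_eq_true_iff, kdM_eq, ex_lt4, or_assoc]

theorem imp_bool {a b : Bool} {p q : Prop} (ha : a = true ↔ p) (hb : b = true ↔ q) :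
    (!a || b) = true ↔ (p → q) := by
  rw [← ha, ← hb]
  cases a <;> cases b <;> simp

theorem c1B_iff : c1B (adjMatrix G) = true ↔ C1 G := by
  unfold c1B
  rw [all_rng]
  have key : ∀ v : Fin n, (c1a (adjMatrix G) v &&
    (!(decide (kdM (adjMatrix G) v = kU)) || (hasM (adjMatrix G) v kT && c1m (adjMatrix G) v)) &&
    (!(decide (kdM (adjMatrix G) v = kW)) || c1m (adjMatrix G) v) &&
    (!(decide (kdM (adjMatrix G) v = kT)) || (rng (adjMatrix G)).all (fun a =>
      !(adM (adjMatrix G) v a) || decide (kdM (adjMatrix G) a = kU))) &&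
    (!(isMM (adjMatrix G) v) || (hasM (adjMatrix G) v kU && hasM (adjMatrix G) v kW))) = true ↔
    (kd G v = kU ∨ kd G v = kW ∨ kd G v = kT ∨ (∃ k < 4, kd G v = kM k) ∨ kd G v = kL) ∧
    (kd G v = kU → (∃ a, G.Adj v a ∧ kd G a = kT) ∧ ∀ k < 4, ∃ a, G.Adj v a ∧ kd G a = kM k) ∧
    (kd G v = kW → ∀ k < 4, ∃ a, G.Adj v a ∧ kd G a = kM k) ∧
    (kd G v = kT → ∀ a, G.Adj v a → kd G a = kU) ∧
    ((∃ k < 4, kd G v = kM k) → (∃ a, G.Adj v a ∧ kd G a = kU) ∧
      ∃ a, G.Adj v a ∧ kd G a = kW) := by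
    intro v
    rw [Bool.and_eq_true, Bool.and_eq_true, Bool.and_eq_true, Bool.and_eq_true, c1a_iff,
      and_assoc, and_assoc, and_assoc]
    have e1 : decide (kdM (adjMatrix G) v = kU) = true ↔ kd G v = kU := by
      rw [decide_eq_true_iff, kdM_eq]
    have e2 : decide (kdM (adjMatrix G) v = kW) = true ↔ kd G v = kW := by
      rw [decide_eq_true_iff, kdM_eq]
    have e3 : decide (kdM (adjMatrix G) v = kT) = true ↔ kd G v = kT := by
      rw [decide_eq_true_iff, kdM_eq]
    have e4 : (rng (adjMatrix G)).all (fun a =>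
      !(adM (adjMatrix G) v a) || decide (kdM (adjMatrix G) a = kU)) = true ↔
      ∀ a, G.Adj v a → kd G a = kU := by
      rw [all_rng]
      refine forall_congr' fun a => imp_bool (adM_iff G v a) ?_
      rw [decide_eq_true_iff, kdM_eq]
    rw [imp_bool e1 (q := (∃ a, G.Adj v a ∧ kd G a = kT) ∧
        ∀ k < 4, ∃ a, G.Adj v a ∧ kd G a = kM k) (by rw [Bool.and_eq_true, hasM_iff, c1m_iff]),
      imp_bool e2 (c1m_iff v), imp_bool e3 e4, imp_bool (isMM_iff v)
        (q := (∃ a, G.Adj v a ∧ kd G a = kU) ∧ ∃ a, G.Adj v a ∧ kd G a = kW)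
        (by rw [Bool.and_eq_true, hasM_iff, hasM_iff])]
  constructor
  · intro h
    have h' := fun v => (key v).1 (h v)
    exact ⟨fun v => (h' v).1, fun v hv => ((h' v).2.1 hv).1, fun v hv => ((h' v).2.1 hv).2,
      fun v hv => (h' v).2.2.1 hv, fun v hv => (h' v).2.2.2.1 hv,
      fun k hk v hv => ((h' v).2.2.2.2 ⟨k, hk, hv⟩).1,
      fun k hk v hv => ((h' v).2.2.2.2 ⟨k, hk, hv⟩).2⟩
  · intro h v
    rw [key]
    refine ⟨h.all v, fun hv => ⟨h.ut v hv, h.um v hv⟩, h.wm v, h.tu v, ?_⟩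
    rintro ⟨k, hk, hv⟩
    exact ⟨h.mu k hk v hv, h.mw k hk v hv⟩

theorem nEM_iff (a b : Fin n) : nEM (adjMatrix G) a b = true ↔ nE G a b := by
  unfold nEM nE
  rw [Bool.and_eq_true, Bool.and_eq_true, adM_iff, Bool.not_eq_true', Bool.not_eq_true',
    decide_eq_false_iff_not, decide_eq_false_iff_not, kdM_eq, kdM_eq, and_assoc]

theorem cEM_iff (a b : Fin n) : cEM (adjMatrix G) a b = true ↔ cE G a b := by
  unfold cEM cE
  rw [Bool.and_eq_true, Bool.and_eq_true, nEM_iff, Bool.not_eq_true', Bool.not_eq_true',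
    decide_eq_false_iff_not, decide_eq_false_iff_not, kdM_eq, kdM_eq]
  unfold nE
  tauto

theorem volM_eq (τ : Fin n → ℕ) (a b : Fin n) :
    volM (adjMatrix G) (τ a) (τ b) a b = vol G τ a b := by
  unfold volM vol
  rw [kdM_eq, kdM_eq, lfM_eq, lfM_eq]

/-- the embedding of the lift -/
def emb (x : Fin n × Bool) : ℕ × Bool := (x.1, x.2)

theorem mem_ptM {y : ℕ × Bool} : y ∈ ptM (adjMatrix G) ↔ y.1 < n := by
  unfold ptM
  obtain ⟨a, s⟩ := y
  rw [List.mem_product, mem_rng]
  cases s <;> simp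

theorem reach_iff {R : ℕ × Bool → ℕ × Bool → Bool} {E : Fin n → Fin n → Prop}
    {ν : Fin n → Fin n → Bool}
    (hR : ∀ x y : Fin n × Bool, R (emb x) (emb y) = true ↔ Lift E ν x y) (x y : Fin n × Bool) :
    emb y ∈ reachG R (ptM (adjMatrix G)) (emb x) ↔ ReflTransGen (Lift E ν) x y := by
  rw [mem_reachG]
  constructor
  · rintro ⟨_, h⟩
    have key : ∀ z : ℕ × Bool,
        ReflTransGen (fun a b => R a b = true ∧ b ∈ ptM (adjMatrix G)) (emb x) z →
        ∃ z' : Fin n × Bool, emb z' = z ∧ ReflTransGen (Lift E ν) x z' := by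
      intro z hz
      induction hz with
      | refl => exact ⟨x, rfl, .refl⟩
      | @tail b c _ hbc ih =>
        obtain ⟨z', rfl, hz'⟩ := ih
        have hc : c.1 < n := mem_ptM.1 hbc.2
        refine ⟨(⟨c.1, hc⟩, c.2), rfl, hz'.tail ?_⟩
        rw [← hR]
        exact hbc.1
    obtain ⟨z', h1, h2⟩ := key _ h
    have : z' = y := by
      unfold emb at h1
      rw [Prod.mk.injEq] at h1
      exact Prod.ext (Fin.ext h1.1) h1.2
    rw [← this]
    exact h2
  · intro h
    refine ⟨mem_ptM.2 x.1.2, ?_⟩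
    induction h with
    | refl => exact .refl
    | @tail b c _ hbc ih => exact ih.tail ⟨(hR _ _).2 hbc, mem_ptM.2 c.1.2⟩

theorem oddM_iff (i : ℕ) (v : Fin n) :
    oddM (adjMatrix G) i v = true ↔ OddW (cE G) (vol G fun _ => i) v := by
  unfold oddM OddW
  rw [decide_eq_true_iff]
  exact reach_iff (x := (v, false)) (y := (v, true)) (fun x y => by
    rw [Bool.and_eq_true, decide_eq_true_iff]
    unfold Lift
    have h1 := cEM_iff (G := G) x.1 y.1
    have h2 := volM_eq (G := G) (fun _ => i) x.1 y.1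
    simp only [emb]
    rw [h1, h2])

theorem tauM_eq (v : Fin n) : tauM (adjMatrix G) v = tau G v := by
  unfold tauM tau
  have h : ∀ i, (oddM (adjMatrix G) i v = false) ↔ ¬ OddW (cE G) (vol G fun _ => i) v := by
    intro i
    rw [← oddM_iff, Bool.not_eq_true]
  by_cases h0 : OddW (cE G) (vol G fun _ => 0) v
  · rw [if_neg (fun h' => (h 0).1 h' h0), if_neg (not_not.2 h0)]
    by_cases h1 : OddW (cE G) (vol G fun _ => 1) v
    · rw [if_neg (fun h' => (h 1).1 h' h1), if_neg (not_not.2 h1)]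
    · rw [if_pos ((h 1).2 h1), if_pos h1]
  · rw [if_pos ((h 0).2 h0), if_pos h0]

theorem oddN_iff (v : Fin n) :
    oddN (adjMatrix G) v = true ↔ OddW (nE G) (vol G (tau G)) v := by
  unfold oddN OddW
  rw [decide_eq_true_iff]
  exact reach_iff (x := (v, false)) (y := (v, true)) (fun x y => by
    rw [Bool.and_eq_true, decide_eq_true_iff]
    unfold Lift
    have h1 := nEM_iff (G := G) x.1 y.1
    have h2 := volM_eq (G := G) (tau G) x.1 y.1
    simp only [emb]
    rw [h1, tauM_eq, tauM_eq, h2])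

theorem t1B_iff : t1B (adjMatrix G) = true ↔
    ∀ c a b, kd G c = kT → G.Adj c a → G.Adj c b → a ≠ b → tau G a ≠ tau G b := by
  unfold t1B
  rw [all_rng]
  constructor
  · intro h c a b hc hca hcb hab
    have h1 := h c
    rw [imp_bool (p := kd G c = kT) (by rw [decide_eq_true_iff, kdM_eq]) all_rng] at h1
    have h2 := h1 hc a
    rw [imp_bool (adM_iff G c a) all_rng] at h2
    have h3 := h2 hca b
    have h4 : adM (adjMatrix G) c b = true := (adM_iff G c b).2 hcb
    have h5 : ¬ ((a : ℕ) = b) := fun he => hab (Fin.ext he)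
    rw [h4, decide_eq_false h5, tauM_eq, tauM_eq] at h3
    simpa using h3
  · intro h c
    rw [imp_bool (p := kd G c = kT) (by rw [decide_eq_true_iff, kdM_eq]) all_rng]
    intro hc a
    rw [imp_bool (adM_iff G c a) all_rng]
    intro hca b
    by_cases hcb : G.Adj c b
    · by_cases hab : a = b
      · rw [hab]
        simp
      · have h6 := h c a b hc hca hcb hab
        rw [tauM_eq, tauM_eq, decide_eq_false h6]
        simp
    · have h4 : adM (adjMatrix G) c b = false := by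
        rw [← Bool.not_eq_true, adM_iff]
        exact hcb
      rw [h4]
      simp

theorem algB_iff : algB (adjMatrix G) = true ↔ Alg G := by
  unfold algB Alg
  rw [Bool.and_eq_true, Bool.and_eq_true, c1B_iff, t1B_iff, all_rng, and_assoc]
  refine and_congr Iff.rfl (and_congr Iff.rfl (forall_congr' fun v => ?_))
  rw [Bool.not_eq_true', ← oddN_iff, Bool.not_eq_true]

end

theorem taskP : TaskP := ⟨algB, algB_poly, fun _ _ => algB_iff⟩

end Pool.Agent.H719.PC
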