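import Mathlib

set_option autoImplicit false

/-!
# Graph coverings, the graph `HG`, and the conditions which describe its covers
-/

namespace Pool.Agent.H719.PC

/-- `G` covers `H`: there is a homomorphism which maps every closed neighbourhood bijectively onto
the closed neighbourhood of the image (a locally bijective homomorphism). -/
def Covers {V W : Type} (G : SimpleGraph V) (H : SimpleGraph W) : Prop :=
  ∃ f : V → W, (∀ a b, G.Adj a b → H.Adj (f a) (f b)) ∧
    ∀ v, Set.BijOn f {a | a = v ∨ G.Adj v a} {b | b = f v ∨ H.Adj (f v) b}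

/-- Three functions of the colour `k < 4`: `xn 0` is the low bit, `xn 1` the high bit and `xn 2`
the sum of the two bits. -/
def xn (i k : ℕ) : Bool :=
  if i = 0 then decide (k = 1 ∨ k = 3) else if i = 1 then decide (k = 2 ∨ k = 3)
  else decide (k = 1 ∨ k = 2)

/-- The vertices of the graph `HG`: `u i j`, `w i j`, `t j`, the middle vertex `m i j k` of the
edge of colour `k` at `u i j`, and the leaves `l i j r`. -/
inductive HV : Type
  | u (i : Fin 3) (j : Bool)
  | w (i : Fin 3) (j : Bool)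
  | t (j : Bool)
  | m (i : Fin 3) (j : Bool) (k : Fin 4)
  | l (i : Fin 3) (j : Bool) (r : Fin 6)
  deriving DecidableEq, Fintype

/-- The leaf number `r` hangs at the middle vertex of colour `kk r`. -/
def kk (r : ℕ) : ℕ := if r = 0 then 1 else if r ≤ 2 then 2 else 3

/-- The edges of `HG`, each in one direction. -/
def hdir : HV → HV → Bool
  | .u _ j, .t j' => decide (j = j')
  | .u i j, .m i' j' _ => decide (i = i' ∧ j = j')
  | .m i j k, .w i' j' => decide (i = i' ∧ j' = xor j (xn i k))
  | .m i j k, .l i' j' r => decide (i = i' ∧ j = j' ∧ kk r = k)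
  | _, _ => false

theorem hdir_irrefl (a : HV) : hdir a a = false := by cases a <;> rfl

/-- The graph `HG`, with 74 vertices and 90 edges. -/
def HG : SimpleGraph HV where
  Adj a b := hdir a b = true ∨ hdir b a = true
  symm := ⟨fun _ _ h => Or.symm h⟩
  loopless := ⟨fun a h => by rw [hdir_irrefl] at h; simp at h⟩

noncomputable section

open Classical

variable {V : Type} [Fintype V] (G : SimpleGraph V)

/-- the degree -/
def dg (v : V) : ℕ := (Finset.univ.filter fun a => G.Adj v a).card

/-- the number of neighbours of degree one -/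
def lf (v : V) : ℕ := (Finset.univ.filter fun a => G.Adj v a ∧ dg G a = 1).card

/-- the kind of a vertex: its degree and the number of its neighbours of degree one -/
def kd (v : V) : ℕ × ℕ := (dg G v, lf G v)

/-- the kind of `u i j` -/
def kU : ℕ × ℕ := (5, 0)
/-- the kind of `w i j` -/
def kW : ℕ × ℕ := (4, 0)
/-- the kind of `t j` -/
def kT : ℕ × ℕ := (3, 0)
/-- the kind of `m i j k` -/
def kM (k : ℕ) : ℕ × ℕ := (k + 2, k)
/-- the kind of a leaf -/
def kL : ℕ × ℕ := (1, 0)

/-- the local conditions for a cover of `HG` -/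
structure C1 : Prop where
  all : ∀ v, kd G v = kU ∨ kd G v = kW ∨ kd G v = kT ∨ (∃ k < 4, kd G v = kM k) ∨ kd G v = kL
  ut : ∀ v, kd G v = kU → ∃ a, G.Adj v a ∧ kd G a = kT
  um : ∀ v, kd G v = kU → ∀ k < 4, ∃ a, G.Adj v a ∧ kd G a = kM k
  wm : ∀ v, kd G v = kW → ∀ k < 4, ∃ a, G.Adj v a ∧ kd G a = kM k
  tu : ∀ v, kd G v = kT → ∀ a, G.Adj v a → kd G a = kU
  mu : ∀ k < 4, ∀ v, kd G v = kM k → ∃ a, G.Adj v a ∧ kd G a = kU
  mw : ∀ k < 4, ∀ v, kd G v = kM k → ∃ a, G.Adj v a ∧ kd G a = kW

/-- the existence of types and positions -/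
def Sol : Prop := ∃ (i : V → Fin 3) (p : V → Bool),
  (∀ k < 4, ∀ a b, G.Adj a b → kd G a = kU → kd G b = kM k → i a = i b ∧ p a = p b) ∧
  (∀ k < 4, ∀ a b, G.Adj a b → kd G a = kM k → kd G b = kW →
    i a = i b ∧ p b = xor (p a) (xn (i a) k)) ∧
  (∀ a b, G.Adj a b → kd G a = kU → kd G b = kT → p a = p b) ∧
  (∀ c a b, kd G c = kT → G.Adj c a → G.Adj c b → a ≠ b → i a ≠ i b)

/-- the edges without end of degree one -/
def nE (a b : V) : Prop := G.Adj a b ∧ kd G a ≠ kL ∧ kd G b ≠ kL

/-- the coloured edges -/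
def cE (a b : V) : Prop :=
  G.Adj a b ∧ (kd G a ≠ kL ∧ kd G a ≠ kT) ∧ (kd G b ≠ kL ∧ kd G b ≠ kT)

/-- the voltages -/
def vol (τ : V → ℕ) (a b : V) : Bool :=
  if kd G b = kW then xn (τ a) (lf G a) else if kd G a = kW then xn (τ b) (lf G b) else false

/-- the lift of a relation with voltages -/
def Lift (E : V → V → Prop) (ν : V → V → Bool) (x y : V × Bool) : Prop :=
  E x.1 y.1 ∧ y.2 = xor x.2 (ν x.1 y.1)

/-- there is a closed walk of odd voltage -/
def OddW (E : V → V → Prop) (ν : V → V → Bool) (v : V) : Prop :=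
  Relation.ReflTransGen (Lift E ν) (v, false) (v, true)

/-- the type computed by the algorithm -/
def tau (v : V) : ℕ :=
  if ¬ OddW (cE G) (vol G fun _ => 0) v then 0
  else if ¬ OddW (cE G) (vol G fun _ => 1) v then 1 else 2

/-- acceptance of the algorithm -/
def Alg : Prop := C1 G ∧
  (∀ c a b, kd G c = kT → G.Adj c a → G.Adj c b → a ≠ b → tau G a ≠ tau G b) ∧
  ∀ v, ¬ OddW (nE G) (vol G (tau G)) v

/-- no coloured component carries two types -/
def Rigid : Prop := ∀ v, kd G v ≠ kL → kd G v ≠ kT → ∀ i < 3, ∀ i' < 3, i ≠ i' →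
  OddW (cE G) (vol G fun _ => i) v ∨ OddW (cE G) (vol G fun _ => i') v

end

end Pool.Agent.H719.PC
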