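import Pool.Agent.H719.PC.Reach
import Pool.Agent.H719.PC.Defs

set_option autoImplicit false

/-!
# The algorithm on adjacency matrices, in polynomial time
-/

namespace Pool.Agent.H719.PC

open Pool.Agent.NPC

/-- the vertices -/
def rng (M : List (List Bool)) : List ℕ := List.range M.length

/-- adjacency -/
def adM (M : List (List Bool)) (i j : ℕ) : Bool := (M.getD i []).getD j false

/-- degree -/
def dgM (M : List (List Bool)) (i : ℕ) : ℕ := ((rng M).filter (fun j => adM M i j)).length

/-- number of leaves -/
def lfM (M : List (List Bool)) (i : ℕ) : ℕ :=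
  ((rng M).filter (fun j => adM M i j && decide (dgM M j = 1))).length

/-- kind -/
def kdM (M : List (List Bool)) (i : ℕ) : ℕ × ℕ := (dgM M i, lfM M i)

/-- is there a neighbour of kind `K`? -/
def hasM (M : List (List Bool)) (i : ℕ) (K : ℕ × ℕ) : Bool :=
  (rng M).any (fun j => adM M i j && decide (kdM M j = K))

/-- first part of the test at a vertex -/
def c1a (M : List (List Bool)) (v : ℕ) : Bool :=
  decide (kdM M v = kU) || decide (kdM M v = kW) || decide (kdM M v = kT) ||
    decide (kdM M v = kM 0) || decide (kdM M v = kM 1) || decide (kdM M v = kM 2) ||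
    decide (kdM M v = kM 3) || decide (kdM M v = kL)

/-- all middle kinds at the neighbours -/
def c1m (M : List (List Bool)) (v : ℕ) : Bool :=
  hasM M v (kM 0) && hasM M v (kM 1) && hasM M v (kM 2) && hasM M v (kM 3)

/-- is it a middle vertex? -/
def isMM (M : List (List Bool)) (v : ℕ) : Bool :=
  decide (kdM M v = kM 0) || decide (kdM M v = kM 1) || decide (kdM M v = kM 2) ||
    decide (kdM M v = kM 3)

/-- the local test -/
def c1B (M : List (List Bool)) : Bool :=
  (rng M).all (fun v => c1a M v &&
    (!(decide (kdM M v = kU)) || (hasM M v kT && c1m M v)) &&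
    (!(decide (kdM M v = kW)) || c1m M v) &&
    (!(decide (kdM M v = kT)) || (rng M).all (fun a => !(adM M v a) || decide (kdM M a = kU))) &&
    (!(isMM M v) || (hasM M v kU && hasM M v kW)))

/-- the points of the lift -/
def ptM (M : List (List Bool)) : List (ℕ × Bool) := (rng M) ×ˢ [false, true]

/-- edges without leaves -/
def nEM (M : List (List Bool)) (a b : ℕ) : Bool :=
  adM M a b && !(decide (kdM M a = kL)) && !(decide (kdM M b = kL))

/-- coloured edges -/
def cEM (M : List (List Bool)) (a b : ℕ) : Bool :=
  nEM M a b && !(decide (kdM M a = kT)) && !(decide (kdM M b = kT))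

/-- voltage -/
def volM (M : List (List Bool)) (s t a b : ℕ) : Bool :=
  if kdM M b = kW then xn s (lfM M a) else if kdM M a = kW then xn t (lfM M b) else false

/-- closed walk of odd voltage for the type `i` -/
def oddM (M : List (List Bool)) (i v : ℕ) : Bool :=
  decide ((v, true) ∈ reachG (fun x y : ℕ × Bool => cEM M x.1 y.1 &&
    decide (y.2 = xor x.2 (volM M i i x.1 y.1))) (ptM M) (v, false))

/-- the type -/
def tauM (M : List (List Bool)) (v : ℕ) : ℕ :=
  if oddM M 0 v = false then 0 else if oddM M 1 v = false then 1 else 2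

/-- closed walk of odd voltage in the whole graph -/
def oddN (M : List (List Bool)) (v : ℕ) : Bool :=
  decide ((v, true) ∈ reachG (fun x y : ℕ × Bool => nEM M x.1 y.1 &&
    decide (y.2 = xor x.2 (volM M (tauM M x.1) (tauM M y.1) x.1 y.1))) (ptM M) (v, false))

/-- the types around a vertex are distinct -/
def t1B (M : List (List Bool)) : Bool :=
  (rng M).all (fun c => !(decide (kdM M c = kT)) || (rng M).all (fun a => !(adM M c a) ||
    (rng M).all (fun b => !(adM M c b) || decide (a = b) ||
      !(decide (tauM M a = tauM M b)))))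

/-- the algorithm -/
def algB (M : List (List Bool)) : Bool :=
  c1B M && t1B M && (rng M).all (fun v => !(oddN M v))

section poly

variable {α : Type} [TEnc α]

theorem rng_poly {M : α → List (List Bool)} (hM : Poly M) : Poly (fun x => rng (M x)) :=
  (UPoly.length hM).range

theorem adM_poly {M : α → List (List Bool)} {i j : α → ℕ} (hM : Poly M) (hi : Poly i)
    (hj : Poly j) : Poly (fun x => adM (M x) (i x) (j x)) := by
  unfold adM
  fun_prop

attribute [fun_prop] rng_poly adM_poly
attribute [local irreducible] rng adM

theorem dgM_poly {M : α → List (List Bool)} {i : α → ℕ} (hM : Poly M) (hi : Poly i) :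
    Poly (fun x => dgM (M x) (i x)) := by
  unfold dgM
  fun_prop

attribute [fun_prop] dgM_poly
attribute [local irreducible] dgM

theorem lfM_poly {M : α → List (List Bool)} {i : α → ℕ} (hM : Poly M) (hi : Poly i) :
    Poly (fun x => lfM (M x) (i x)) := by
  unfold lfM
  fun_prop

attribute [fun_prop] lfM_poly
attribute [local irreducible] lfM

theorem kdM_poly {M : α → List (List Bool)} {i : α → ℕ} (hM : Poly M) (hi : Poly i) :
    Poly (fun x => kdM (M x) (i x)) := by
  unfold kdM
  fun_prop

attribute [fun_prop] kdM_poly
attribute [local irreducible] kdM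

theorem hasM_poly {M : α → List (List Bool)} {i : α → ℕ} {K : α → ℕ × ℕ} (hM : Poly M)
    (hi : Poly i) (hK : Poly K) : Poly (fun x => hasM (M x) (i x) (K x)) := by
  unfold hasM
  fun_prop

attribute [fun_prop] hasM_poly
attribute [local irreducible] hasM

theorem c1a_poly {M : α → List (List Bool)} {i : α → ℕ} (hM : Poly M) (hi : Poly i) :
    Poly (fun x => c1a (M x) (i x)) := by
  unfold c1a
  fun_prop

theorem c1m_poly {M : α → List (List Bool)} {i : α → ℕ} (hM : Poly M) (hi : Poly i) :
    Poly (fun x => c1m (M x) (i x)) := by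
  unfold c1m
  fun_prop

theorem isMM_poly {M : α → List (List Bool)} {i : α → ℕ} (hM : Poly M) (hi : Poly i) :
    Poly (fun x => isMM (M x) (i x)) := by
  unfold isMM
  fun_prop

attribute [fun_prop] c1a_poly c1m_poly isMM_poly
attribute [local irreducible] c1a c1m isMM

theorem c1B_poly {M : α → List (List Bool)} (hM : Poly M) : Poly (fun x => c1B (M x)) := by
  unfold c1B
  fun_prop

theorem ptM_poly {M : α → List (List Bool)} (hM : Poly M) : Poly (fun x => ptM (M x)) := by
  unfold ptM
  fun_prop

theorem nEM_poly {M : α → List (List Bool)} {a b : α → ℕ} (hM : Poly M) (ha : Poly a)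
    (hb : Poly b) : Poly (fun x => nEM (M x) (a x) (b x)) := by
  unfold nEM
  fun_prop

attribute [fun_prop] c1B_poly ptM_poly nEM_poly
attribute [local irreducible] c1B ptM nEM

theorem cEM_poly {M : α → List (List Bool)} {a b : α → ℕ} (hM : Poly M) (ha : Poly a)
    (hb : Poly b) : Poly (fun x => cEM (M x) (a x) (b x)) := by
  unfold cEM
  fun_prop

theorem xn_poly {i k : α → ℕ} (hi : Poly i) (hk : Poly k) : Poly (fun x => xn (i x) (k x)) := by
  unfold xn
  fun_prop

attribute [fun_prop] cEM_poly xn_poly
attribute [local irreducible] cEM xn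

theorem volM_poly {M : α → List (List Bool)} {s t a b : α → ℕ} (hM : Poly M) (hs : Poly s)
    (ht : Poly t) (ha : Poly a) (hb : Poly b) :
    Poly (fun x => volM (M x) (s x) (t x) (a x) (b x)) := by
  unfold volM
  fun_prop

attribute [fun_prop] volM_poly
attribute [local irreducible] volM

theorem oddM_poly {M : α → List (List Bool)} {i v : α → ℕ} (hM : Poly M) (hi : Poly i)
    (hv : Poly v) : Poly (fun x => oddM (M x) (i x) (v x)) := by
  unfold oddM
  fun_prop

attribute [fun_prop] oddM_poly
attribute [local irreducible] oddM

theorem tauM_poly {M : α → List (List Bool)} {v : α → ℕ} (hM : Poly M)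
    (hv : Poly v) : Poly (fun x => tauM (M x) (v x)) := by
  unfold tauM
  fun_prop

attribute [fun_prop] tauM_poly
attribute [local irreducible] tauM

theorem oddN_poly {M : α → List (List Bool)} {v : α → ℕ} (hM : Poly M)
    (hv : Poly v) : Poly (fun x => oddN (M x) (v x)) := by
  unfold oddN
  fun_prop

theorem t1B_poly {M : α → List (List Bool)} (hM : Poly M) : Poly (fun x => t1B (M x)) := by
  unfold t1B
  fun_prop

attribute [fun_prop] oddN_poly t1B_poly
attribute [local irreducible] oddN t1B

theorem algB_poly : Poly algB := by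
  unfold algB
  fun_prop

end poly

end Pool.Agent.H719.PC
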