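import Pool.Agent.H719.PC.Tasks

set_option autoImplicit false

/-!
# 3-colourability with small names is hard
-/

namespace Pool.Agent.H719.PC

open Pool.Agent.NPC Pool.Agent.NPC.R671 Pool.Agent.H692R2

theorem length_satCol (φ : List (Lit ℕ × Lit ℕ × Lit ℕ)) :
    (satCol φ).length = 3 + 19 * φ.length := by
  have h : ∀ l : List ((Lit ℕ × Lit ℕ × Lit ℕ) × ℕ), (l.flatMap (fun p =>
      varE p.1.1.2 ++ (varE p.1.2.1.2 ++ (varE p.1.2.2.2 ++ clauseE p.1 p.2)))).length =
        19 * l.length := by
    intro l
    induction l with
    | nil => rfl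
    | cons a l ih =>
      rw [List.flatMap_cons, List.length_append, ih]
      simp [varE, clauseE]
      omega
  unfold satCol
  rw [List.length_append, h, List.length_zipIdx]
  rfl

theorem taskH : TaskH := by
  refine hardPr_SAT3b.trans satCol_poly ?_ (fun φ _ => satCol_correct φ)
  rintro φ ⟨_, hb, hne⟩
  have hlen : 0 < φ.length := List.length_pos_iff.2 hne
  refine ⟨?_, ?_⟩
  · intro he
    have := congrArg List.length he
    rw [length_satCol, List.length_nil] at this
    omega
  intro e he
  refine ⟨satCol_loopless φ e he, ?_⟩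
  rw [length_satCol]
  unfold satCol at he
  rw [List.mem_append] at he
  rcases he with he | he
  · simp only [List.mem_cons, List.not_mem_nil, or_false] at he
    rcases he with rfl | rfl | rfl <;> simp only <;> omega
  · rw [List.mem_flatMap] at he
    obtain ⟨⟨d, k⟩, hd, he⟩ := he
    have hk : k < φ.length := by
      have := List.mem_zipIdx hd
      omega
    have hd' : d ∈ φ := by
      have := List.mem_zipIdx hd
      rw [this.2.2]
      exact List.getElem_mem _
    obtain ⟨b1, b2, b3⟩ := hb d hd'
    have l1 : ∀ l : Lit ℕ, litv l ≤ 8 * l.2 + 2 := by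
      intro l
      unfold litv
      split_ifs <;> omega
    have c1 := l1 d.1
    have c2 := l1 d.2.1
    have c3 := l1 d.2.2
    simp only [List.mem_append, varE, clauseE, List.mem_cons, List.not_mem_nil, or_false] at he
    rcases he with (rfl | rfl | rfl) | (rfl | rfl | rfl) | (rfl | rfl | rfl) |
      (rfl | rfl | rfl | rfl | rfl | rfl | rfl | rfl | rfl | rfl) <;> simp only <;> omega

end Pool.Agent.H719.PC
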