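import Pool.Agent.H719.PC.HKind

set_option autoImplicit false

/-!
# Coverings: general facts
-/

namespace Pool.Agent.H719.PC

open Classical

section

variable {V W : Type} [Fintype V] [Fintype W] {G : SimpleGraph V} {H : SimpleGraph W} {f : V → W}

omit [Fintype V] [Fintype W] in
theorem cov_bij (h1 : ∀ a b, G.Adj a b → H.Adj (f a) (f b))
    (h2 : ∀ v, Set.BijOn f {a | a = v ∨ G.Adj v a} {b | b = f v ∨ H.Adj (f v) b}) (v : V) :
    Set.BijOn f {a | G.Adj v a} {b | H.Adj (f v) b} := by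
  refine ⟨fun a ha => h1 _ _ ha, (h2 v).injOn.mono fun a ha => Or.inr ha, ?_⟩
  intro b hb
  obtain ⟨a, ha, hab⟩ := (h2 v).surjOn (Or.inr hb : b ∈ {b | b = f v ∨ H.Adj (f v) b})
  rcases ha with rfl | ha
  · rw [hab] at hb
    exact absurd hb (H.loopless.irrefl _)
  · exact ⟨a, ha, hab⟩

theorem cov_count (hb : ∀ v, Set.BijOn f {a | G.Adj v a} {b | H.Adj (f v) b}) (P : W → Prop)
    (v : V) : (Finset.univ.filter fun a => G.Adj v a ∧ P (f a)).card =
      (Finset.univ.filter fun b => H.Adj (f v) b ∧ P b).card := by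
  have h1 : (Finset.univ.filter fun b => H.Adj (f v) b ∧ P b) =
      (Finset.univ.filter fun a => G.Adj v a ∧ P (f a)).image f := by
    ext b
    simp only [Finset.mem_filter, Finset.mem_univ, true_and, Finset.mem_image]
    constructor
    · rintro ⟨h1, h2⟩
      obtain ⟨a, ha, rfl⟩ := (hb v).surjOn h1
      exact ⟨a, ⟨ha, h2⟩, rfl⟩
    · rintro ⟨a, ⟨h1, h2⟩, rfl⟩
      exact ⟨(hb v).mapsTo h1, h2⟩
  rw [h1, Finset.card_image_of_injOn]
  intro a ha b hb' hab
  simp only [Finset.coe_filter, Finset.mem_univ, true_and] at ha hb'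
  exact (hb v).injOn ha.1 hb'.1 hab

theorem cov_dg (hb : ∀ v, Set.BijOn f {a | G.Adj v a} {b | H.Adj (f v) b}) (v : V) :
    dg G v = dg H (f v) := by
  have := cov_count hb (fun _ => True) v
  simp only [and_true] at this
  exact this

theorem cov_kd (hb : ∀ v, Set.BijOn f {a | G.Adj v a} {b | H.Adj (f v) b}) (v : V) :
    kd G v = kd H (f v) := by
  unfold kd
  rw [cov_dg hb]
  have h2 : lf G v = lf H (f v) := by
    have := cov_count hb (fun b => dg H b = 1) v
    unfold lf
    simp only [cov_dg hb]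
    convert this
  rw [h2]

theorem covers_of_local (h1 : ∀ a b, G.Adj a b → H.Adj (f a) (f b))
    (h2 : ∀ v a b, G.Adj v a → G.Adj v b → f a = f b → a = b)
    (h3 : ∀ v, dg H (f v) ≤ dg G v) : Covers G H := by
  refine ⟨f, h1, fun v => ?_⟩
  have hs : ∀ b, H.Adj (f v) b → ∃ a, G.Adj v a ∧ f a = b := by
    have h4 : (Finset.univ.filter fun a => G.Adj v a).image f =
        Finset.univ.filter fun b => H.Adj (f v) b := by
      apply Finset.eq_of_subset_of_card_le
      · intro b hb
        simp only [Finset.mem_filter, Finset.mem_univ, true_and, Finset.mem_image] at hb ⊢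
        obtain ⟨a, ha, rfl⟩ := hb
        exact h1 _ _ ha
      · rw [Finset.card_image_of_injOn]
        · exact h3 v
        · intro a ha b hb hab
          simp only [Finset.coe_filter, Finset.mem_univ, true_and] at ha hb
          exact h2 v a b ha hb hab
    intro b hb
    have h5 : b ∈ (Finset.univ.filter fun a => G.Adj v a).image f := by
      rw [h4]
      simpa using hb
    simpa using h5
  refine ⟨?_, ?_, ?_⟩
  · rintro a (rfl | ha)
    · exact Or.inl rfl
    · exact Or.inr (h1 _ _ ha)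
  · rintro a (rfl | ha) b (rfl | hb) hab
    · rfl
    · have := h1 _ _ hb
      rw [hab] at this
      exact absurd this (H.loopless.irrefl _)
    · have := h1 _ _ ha
      rw [hab] at this
      exact absurd this (H.loopless.irrefl _)
    · exact h2 v a b ha hb hab
  · rintro b (rfl | hb)
    · exact ⟨v, Or.inl rfl, rfl⟩
    · obtain ⟨a, ha, rfl⟩ := hs b hb
      exact ⟨a, Or.inr ha, rfl⟩

/-- the local conditions lift along coverings -/
theorem cov_C1 (hb : ∀ v, Set.BijOn f {a | G.Adj v a} {b | H.Adj (f v) b}) (h : C1 H) : C1 G := by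
  have lift : ∀ v K, (∃ b, H.Adj (f v) b ∧ kd H b = K) → ∃ a, G.Adj v a ∧ kd G a = K := by
    rintro v K ⟨b, h1, h2⟩
    obtain ⟨a, ha, rfl⟩ := (hb v).surjOn h1
    exact ⟨a, ha, by rw [cov_kd hb]; exact h2⟩
  refine ⟨?_, ?_, ?_, ?_, ?_, ?_, ?_⟩
  · intro v
    rw [cov_kd hb]
    exact h.all _
  · intro v hv
    rw [cov_kd hb] at hv
    exact lift _ _ (h.ut _ hv)
  · intro v hv k hk
    rw [cov_kd hb] at hv
    exact lift _ _ (h.um _ hv k hk)
  · intro v hv k hk
    rw [cov_kd hb] at hv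
    exact lift _ _ (h.wm _ hv k hk)
  · intro v hv a ha
    rw [cov_kd hb] at hv ⊢
    exact h.tu _ hv _ ((hb v).mapsTo ha)
  · intro k hk v hv
    rw [cov_kd hb] at hv
    exact lift _ _ (h.mu k hk _ hv)
  · intro k hk v hv
    rw [cov_kd hb] at hv
    exact lift _ _ (h.mw k hk _ hv)

end

/-- the local conditions hold in `HG` -/
theorem C1_HG : C1 HG := by
  constructor <;> simp only [kd_HG, HG_adj]
  · exact hk_all
  · exact hk_ut
  · exact hk_um
  · exact hk_wm
  · exact hk_tu
  · exact hk_mu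
  · exact hk_mw

/-- a cover of `HG` has types and positions -/
theorem sol_of_covers {V : Type} [Fintype V] {G : SimpleGraph V} (h : Covers G HG) :
    C1 G ∧ Sol G := by
  obtain ⟨f, h1, h2⟩ := h
  have hb := fun v => cov_bij h1 h2 v
  refine ⟨cov_C1 hb C1_HG, fun v => ti (f v), fun v => pos (f v), ?_, ?_, ?_, ?_⟩
  · intro k hk a b hab ha hb'
    rw [cov_kd hb, kd_HG] at ha hb'
    exact hs1 k hk _ ha _ ((HG_adj _ _).1 (h1 _ _ hab)) hb'
  · intro k hk a b hab ha hb'
    rw [cov_kd hb, kd_HG] at ha hb'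
    exact hs2 k hk _ ha _ ((HG_adj _ _).1 (h1 _ _ hab)) hb'
  · intro a b hab ha hb'
    rw [cov_kd hb, kd_HG] at ha hb'
    exact hs3 _ ha _ ((HG_adj _ _).1 (h1 _ _ hab)) hb'
  · intro c a b hc hca hcb hab
    rw [cov_kd hb, kd_HG] at hc
    refine hs4 _ hc _ ((HG_adj _ _).1 (h1 _ _ hca)) _ ((HG_adj _ _).1 (h1 _ _ hcb)) ?_
    intro he
    exact hab ((hb c).injOn hca hcb he)

end Pool.Agent.H719.PC
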