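import Pool.Agent.H719.PC.Plan

set_option autoImplicit false

/-!
# A straight-line drawing of `HG`
-/

namespace Pool.Agent.H719.PC

open Pool.Agent.H239R2.Planar

/-- number of a vertex -/
def ix : HV → ℕ
  | .t j => j.toNat
  | .u i j => 2 + 2 * i + j.toNat
  | .w i j => 8 + 2 * i + j.toNat
  | .m i j k => 14 + 8 * i + 4 * j.toNat + k
  | .l i j r => 38 + 12 * i + 6 * j.toNat + r

/-- the coordinates -/
def tab : List (ℕ × ℕ) := [
    (1700, 2001), (2301, 2001), (1901, 2261), (2099, 2260), (1901, 2010), (2100, 2010),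
    (1901, 1740), (2100, 1739), (2001, 2360), (2001, 2159), (2000, 2109), (2001, 1909),
    (2000, 1841), (2000, 1640), (1943, 2316), (1957, 2217), (1957, 2304), (1943, 2202),
    (2057, 2204), (2043, 2303), (2043, 2218), (2056, 2316), (1944, 2068), (1956, 2054),
    (1956, 1966), (1944, 1954), (2058, 1954), (2042, 1968), (2043, 2054), (2057, 2066),
    (1942, 1798), (1956, 1697), (1943, 1684), (1956, 1784), (2057, 1683), (2043, 1782),
    (2057, 1798), (2042, 1697), (1962, 2222), (1962, 2296), (1964, 2297), (1934, 2200),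
    (1937, 2197), (1941, 2197), (2037, 2298), (2039, 2223), (2036, 2221), (2064, 2321),
    (2062, 2323), (2060, 2324), (1962, 2047), (1963, 1973), (1961, 1974), (1935, 1949),
    (1937, 1948), (1939, 1946), (2036, 1972), (2036, 2049), (2038, 2046), (2063, 2070),
    (2063, 2074), (2060, 2073), (1964, 1702), (1937, 1679), (1937, 1676), (1960, 1776),
    (1964, 1778), (1965, 1779), (2037, 1776), (2065, 1802), (2062, 1803), (2040, 1705),
    (2037, 1703), (2036, 1701)]

/-- the position of a vertex -/
def ps (v : HV) : ℕ × ℕ := tab.getD (ix v) (0, 0)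

/-- the middle vertex at a leaf -/
def kf (r : Fin 6) : Fin 4 := if r = 0 then 1 else if r = 1 then 2 else if r = 2 then 2 else 3

/-- the list of the edges -/
def eL : List (HV × HV) :=
  (List.finRange 3).flatMap (fun i => [false, true].flatMap (fun j =>
    (.u i j, .t j) :: ((List.finRange 4).map (fun k => (.u i j, .m i j k)) ++
      ((List.finRange 4).map (fun k => (.m i j k, .w i (xor j (xn i k)))) ++
      (List.finRange 6).map (fun r => (.m i j (kf r), .l i j r))))))

theorem mem_eL : ∀ a b : HV, hdir a b = true → (a, b) ∈ eL := by decide +kernel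

/-- the edges with the coordinates of their ends -/
def eX : List (ℕ × ℕ × (ℕ × ℕ) × (ℕ × ℕ)) := [
    (2, 0, (1901, 2261), (1700, 2001)), (2, 14, (1901, 2261), (1943, 2316)),
    (2, 15, (1901, 2261), (1957, 2217)), (2, 16, (1901, 2261), (1957, 2304)),
    (2, 17, (1901, 2261), (1943, 2202)), (14, 8, (1943, 2316), (2001, 2360)),
    (15, 9, (1957, 2217), (2001, 2159)), (16, 8, (1957, 2304), (2001, 2360)),
    (17, 9, (1943, 2202), (2001, 2159)), (15, 38, (1957, 2217), (1962, 2222)),
    (16, 39, (1957, 2304), (1962, 2296)), (16, 40, (1957, 2304), (1964, 2297)),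
    (17, 41, (1943, 2202), (1934, 2200)), (17, 42, (1943, 2202), (1937, 2197)),
    (17, 43, (1943, 2202), (1941, 2197)), (3, 1, (2099, 2260), (2301, 2001)),
    (3, 18, (2099, 2260), (2057, 2204)), (3, 19, (2099, 2260), (2043, 2303)),
    (3, 20, (2099, 2260), (2043, 2218)), (3, 21, (2099, 2260), (2056, 2316)),
    (18, 9, (2057, 2204), (2001, 2159)), (19, 8, (2043, 2303), (2001, 2360)),
    (20, 9, (2043, 2218), (2001, 2159)), (21, 8, (2056, 2316), (2001, 2360)),
    (19, 44, (2043, 2303), (2037, 2298)), (20, 45, (2043, 2218), (2039, 2223)),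
    (20, 46, (2043, 2218), (2036, 2221)), (21, 47, (2056, 2316), (2064, 2321)),
    (21, 48, (2056, 2316), (2062, 2323)), (21, 49, (2056, 2316), (2060, 2324)),
    (4, 0, (1901, 2010), (1700, 2001)), (4, 22, (1901, 2010), (1944, 2068)),
    (4, 23, (1901, 2010), (1956, 2054)), (4, 24, (1901, 2010), (1956, 1966)),
    (4, 25, (1901, 2010), (1944, 1954)), (22, 10, (1944, 2068), (2000, 2109)),
    (23, 10, (1956, 2054), (2000, 2109)), (24, 11, (1956, 1966), (2001, 1909)),
    (25, 11, (1944, 1954), (2001, 1909)), (23, 50, (1956, 2054), (1962, 2047)),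
    (24, 51, (1956, 1966), (1963, 1973)), (24, 52, (1956, 1966), (1961, 1974)),
    (25, 53, (1944, 1954), (1935, 1949)), (25, 54, (1944, 1954), (1937, 1948)),
    (25, 55, (1944, 1954), (1939, 1946)), (5, 1, (2100, 2010), (2301, 2001)),
    (5, 26, (2100, 2010), (2058, 1954)), (5, 27, (2100, 2010), (2042, 1968)),
    (5, 28, (2100, 2010), (2043, 2054)), (5, 29, (2100, 2010), (2057, 2066)),
    (26, 11, (2058, 1954), (2001, 1909)), (27, 11, (2042, 1968), (2001, 1909)),
    (28, 10, (2043, 2054), (2000, 2109)), (29, 10, (2057, 2066), (2000, 2109)),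
    (27, 56, (2042, 1968), (2036, 1972)), (28, 57, (2043, 2054), (2036, 2049)),
    (28, 58, (2043, 2054), (2038, 2046)), (29, 59, (2057, 2066), (2063, 2070)),
    (29, 60, (2057, 2066), (2063, 2074)), (29, 61, (2057, 2066), (2060, 2073)),
    (6, 0, (1901, 1740), (1700, 2001)), (6, 30, (1901, 1740), (1942, 1798)),
    (6, 31, (1901, 1740), (1956, 1697)), (6, 32, (1901, 1740), (1943, 1684)),
    (6, 33, (1901, 1740), (1956, 1784)), (30, 12, (1942, 1798), (2000, 1841)),
    (31, 13, (1956, 1697), (2000, 1640)), (32, 13, (1943, 1684), (2000, 1640)),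
    (33, 12, (1956, 1784), (2000, 1841)), (31, 62, (1956, 1697), (1964, 1702)),
    (32, 63, (1943, 1684), (1937, 1679)), (32, 64, (1943, 1684), (1937, 1676)),
    (33, 65, (1956, 1784), (1960, 1776)), (33, 66, (1956, 1784), (1964, 1778)),
    (33, 67, (1956, 1784), (1965, 1779)), (7, 1, (2100, 1739), (2301, 2001)),
    (7, 34, (2100, 1739), (2057, 1683)), (7, 35, (2100, 1739), (2043, 1782)),
    (7, 36, (2100, 1739), (2057, 1798)), (7, 37, (2100, 1739), (2042, 1697)),
    (34, 13, (2057, 1683), (2000, 1640)), (35, 12, (2043, 1782), (2000, 1841)),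
    (36, 12, (2057, 1798), (2000, 1841)), (37, 13, (2042, 1697), (2000, 1640)),
    (35, 68, (2043, 1782), (2037, 1776)), (36, 69, (2057, 1798), (2065, 1802)),
    (36, 70, (2057, 1798), (2062, 1803)), (37, 71, (2042, 1697), (2040, 1705)),
    (37, 72, (2042, 1697), (2037, 1703)), (37, 73, (2042, 1697), (2036, 1701))]

theorem eX_eq : eL.map (fun e => (ix e.1, ix e.2, ps e.1, ps e.2)) = eX := by decide +kernel

/-- positive part of the orientation of three points -/
def op (a b c : ℕ × ℕ) : ℕ := b.1 * c.2 + b.2 * a.1 + a.2 * c.1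

/-- negative part of the orientation of three points -/
def om (a b c : ℕ × ℕ) : ℕ := b.1 * a.2 + a.1 * c.2 + b.2 * c.1

/-- the points `c` and `d` lie strictly on the same side of the line `a b` -/
def same (a b c d : ℕ × ℕ) : Bool :=
  (decide (om a b c < op a b c) && decide (om a b d < op a b d)) ||
    (decide (op a b c < om a b c) && decide (op a b d < om a b d))

/-- the segments are disjoint -/
def sepr (a b c d : ℕ × ℕ) : Bool := same a b c d || same c d a b

/-- not collinear -/
def ncol (a b c : ℕ × ℕ) : Bool := decide (om a b c < op a b c) || decide (op a b c < om a b c)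

/-- the test for two edges -/
def okP (e f : ℕ × ℕ × (ℕ × ℕ) × (ℕ × ℕ)) : Bool :=
  if e.1 = f.1 then decide (e.2.1 = f.2.1) || ncol e.2.2.1 e.2.2.2 f.2.2.2
  else if e.1 = f.2.1 then ncol e.2.2.1 e.2.2.2 f.2.2.1
  else if e.2.1 = f.1 then ncol e.2.2.2 e.2.2.1 f.2.2.2
  else if e.2.1 = f.2.1 then ncol e.2.2.2 e.2.2.1 f.2.2.1
  else sepr e.2.2.1 e.2.2.2 f.2.2.1 f.2.2.2

theorem okP_all : (eX.all fun e => eX.all fun f => okP e f) = true := by decide +kernel

theorem ps_inj : ∀ a b : HV, ps a = ps b → a = b := by decide +kernel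

theorem ix_inj : ∀ a b : HV, ix a = ix b → a = b := by decide +kernel

end Pool.Agent.H719.PC
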