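import Pool.Agent.H719.PC.Draw

set_option autoImplicit false

/-!
# A straight-line drawing of `HG`: geometry
-/

namespace Pool.Agent.H719.PC

open Pool.Agent.H239R2.Planar

/-- a point with natural coordinates as a real point -/
def rp (x : ℕ × ℕ) : ℝ × ℝ := (x.1, x.2)

/-- orientation -/
def orR (a b c : ℝ × ℝ) : ℝ := (b.1 - a.1) * (c.2 - a.2) - (b.2 - a.2) * (c.1 - a.1)

theorem orR_cast (a b c : ℕ × ℕ) : orR (rp a) (rp b) (rp c) = (op a b c : ℝ) - om a b c := by
  simp only [orR, op, om, rp]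
  push_cast
  ring

theorem orR_comb (a b c d : ℝ × ℝ) (s t : ℝ) (h : s + t = 1) :
    orR a b (s • c + t • d) = s * orR a b c + t * orR a b d := by
  simp only [orR, Prod.fst_add, Prod.snd_add, Prod.smul_fst, Prod.smul_snd, smul_eq_mul]
  have h1 : s = 1 - t := by linarith
  rw [h1]
  ring

theorem orR_left (a b : ℝ × ℝ) : orR a b a = 0 := by simp only [orR]; ring

theorem orR_right (a b : ℝ × ℝ) : orR a b b = 0 := by simp only [orR]; ring

theorem orR_seg {a b q : ℝ × ℝ} (h : q ∈ segment ℝ a b) : orR a b q = 0 := by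
  obtain ⟨s, t, _, _, hst, rfl⟩ := h
  rw [orR_comb _ _ _ _ _ _ hst, orR_left, orR_right]
  ring

theorem same_disj {a b c d : ℕ × ℕ} (h : same a b c d = true) (q : ℝ × ℝ)
    (h1 : q ∈ segment ℝ (rp a) (rp b)) (h2 : q ∈ segment ℝ (rp c) (rp d)) : False := by
  have e1 := orR_seg h1
  obtain ⟨s, t, hs, ht, hst, rfl⟩ := h2
  rw [orR_comb _ _ _ _ _ _ hst, orR_cast, orR_cast] at e1
  unfold same at h
  rw [Bool.or_eq_true, Bool.and_eq_true, Bool.and_eq_true, decide_eq_true_iff,
    decide_eq_true_iff, decide_eq_true_iff, decide_eq_true_iff] at h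
  rcases h with ⟨h3, h4⟩ | ⟨h3, h4⟩
  · have h3' : (om a b c : ℝ) < op a b c := by exact_mod_cast h3
    have h4' : (om a b d : ℝ) < op a b d := by exact_mod_cast h4
    rcases eq_or_lt_of_le hs with hs0 | hs0
    · have ht1 : t = 1 := by linarith
      rw [← hs0, ht1] at e1
      linarith
    · have := mul_pos hs0 (sub_pos.2 h3')
      have := mul_nonneg ht (sub_pos.2 h4').le
      linarith
  · have h3' : (op a b c : ℝ) < om a b c := by exact_mod_cast h3
    have h4' : (op a b d : ℝ) < om a b d := by exact_mod_cast h4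
    rcases eq_or_lt_of_le hs with hs0 | hs0
    · have ht1 : t = 1 := by linarith
      rw [← hs0, ht1] at e1
      linarith
    · have := mul_pos hs0 (sub_pos.2 h3')
      have := mul_nonneg ht (sub_pos.2 h4').le
      nlinarith

theorem sepr_disj {a b c d : ℕ × ℕ} (h : sepr a b c d = true) (q : ℝ × ℝ)
    (h1 : q ∈ segment ℝ (rp a) (rp b)) (h2 : q ∈ segment ℝ (rp c) (rp d)) : False := by
  unfold sepr at h
  rw [Bool.or_eq_true] at h
  rcases h with h | h
  · exact same_disj h q h1 h2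
  · exact same_disj h q h2 h1

theorem ncol_meet {a b c : ℕ × ℕ} (h : ncol a b c = true) (q : ℝ × ℝ)
    (h1 : q ∈ segment ℝ (rp a) (rp b)) (h2 : q ∈ segment ℝ (rp a) (rp c)) : q = rp a := by
  have e1 := orR_seg h1
  obtain ⟨s, t, hs, ht, hst, rfl⟩ := h2
  rw [orR_comb _ _ _ _ _ _ hst, orR_left, orR_cast] at e1
  have h3 : (op a b c : ℝ) - om a b c ≠ 0 := by
    unfold ncol at h
    rw [Bool.or_eq_true, decide_eq_true_iff, decide_eq_true_iff] at h
    rcases h with h | h
    · have : (om a b c : ℝ) < op a b c := by exact_mod_cast h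
      exact (sub_pos.2 this).ne'
    · have : (op a b c : ℝ) < om a b c := by exact_mod_cast h
      exact (sub_neg.2 this).ne
  have h4 : t * ((op a b c : ℝ) - om a b c) = 0 := by linarith
  rcases mul_eq_zero.1 h4 with h5 | h5
  · have h6 : s = 1 := by linarith
    rw [h5, h6]
    simp
  · exact absurd h5 h3

/-- the position of a vertex -/
def pt (v : HV) : ℝ × ℝ := rp (ps v)

theorem rp_inj {x y : ℕ × ℕ} (h : rp x = rp y) : x = y := by
  unfold rp at h
  rw [Prod.mk.injEq] at h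
  exact Prod.ext (by exact_mod_cast h.1) (by exact_mod_cast h.2)

theorem pt_inj : Function.Injective pt := fun _ _ h => ps_inj _ _ (rp_inj h)

theorem pair_ok {a b c d : HV} (h1 : (a, b) ∈ eL) (h2 : (c, d) ∈ eL) :
    okP (ix a, ix b, ps a, ps b) (ix c, ix d, ps c, ps d) = true := by
  have m1 : (ix a, ix b, ps a, ps b) ∈ eX := by
    rw [← eX_eq, List.mem_map]
    exact ⟨(a, b), h1, rfl⟩
  have m2 : (ix c, ix d, ps c, ps d) ∈ eX := by
    rw [← eX_eq, List.mem_map]
    exact ⟨(c, d), h2, rfl⟩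
  have h3 := List.all_eq_true.1 okP_all _ m1
  exact List.all_eq_true.1 h3 _ m2

theorem cross_list {a b c d : HV} (h1 : (a, b) ∈ eL) (h2 : (c, d) ∈ eL) (hne : s(a, b) ≠ s(c, d))
    (q : ℝ × ℝ) (q1 : q ∈ segment ℝ (pt a) (pt b)) (q2 : q ∈ segment ℝ (pt c) (pt d)) :
    ∃ w, (w = a ∨ w = b) ∧ (w = c ∨ w = d) ∧ q = pt w := by
  have h := pair_ok h1 h2
  unfold okP at h
  simp only at h
  by_cases e1 : ix a = ix c
  · rw [if_pos e1, Bool.or_eq_true, decide_eq_true_iff] at h
    have e1' := ix_inj _ _ e1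
    subst e1'
    rcases h with h | h
    · exact absurd (by rw [ix_inj _ _ h]) hne
    · exact ⟨a, Or.inl rfl, Or.inl rfl, ncol_meet h q q1 q2⟩
  · rw [if_neg e1] at h
    by_cases e2 : ix a = ix d
    · rw [if_pos e2] at h
      have e2' := ix_inj _ _ e2
      subst e2'
      refine ⟨a, Or.inl rfl, Or.inr rfl, ncol_meet h q q1 ?_⟩
      rw [segment_symm]
      exact q2
    · rw [if_neg e2] at h
      by_cases e3 : ix b = ix c
      · rw [if_pos e3] at h
        have e3' := ix_inj _ _ e3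
        subst e3'
        refine ⟨b, Or.inr rfl, Or.inl rfl, ncol_meet h q ?_ q2⟩
        rw [segment_symm]
        exact q1
      · rw [if_neg e3] at h
        by_cases e4 : ix b = ix d
        · rw [if_pos e4] at h
          have e4' := ix_inj _ _ e4
          subst e4'
          refine ⟨b, Or.inr rfl, Or.inr rfl, ncol_meet h q ?_ ?_⟩
          · rw [segment_symm]
            exact q1
          · rw [segment_symm]
            exact q2
        · rw [if_neg e4] at h
          exact (sepr_disj h q q1 q2).elim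

theorem cross_adj {a b c d : HV} (h1 : HG.Adj a b) (h2 : HG.Adj c d) (hne : s(a, b) ≠ s(c, d))
    (q : ℝ × ℝ) (q1 : q ∈ segment ℝ (pt a) (pt b)) (q2 : q ∈ segment ℝ (pt c) (pt d)) :
    ∃ w, (w = a ∨ w = b) ∧ (w = c ∨ w = d) ∧ q = pt w := by
  rcases h1 with h1 | h1 <;> rcases h2 with h2 | h2
  · exact cross_list (mem_eL _ _ h1) (mem_eL _ _ h2) hne q q1 q2
  · rw [segment_symm] at q2
    obtain ⟨w, w1, w2, w3⟩ := cross_list (mem_eL _ _ h1) (mem_eL _ _ h2)
      (by rw [Sym2.eq_swap (a := d)]; exact hne) q q1 q2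
    exact ⟨w, w1, w2.symm, w3⟩
  · rw [segment_symm] at q1
    obtain ⟨w, w1, w2, w3⟩ := cross_list (mem_eL _ _ h1) (mem_eL _ _ h2)
      (by rw [Sym2.eq_swap (a := b)]; exact hne) q q1 q2
    exact ⟨w, w1.symm, w2, w3⟩
  · rw [segment_symm] at q1 q2
    obtain ⟨w, w1, w2, w3⟩ := cross_list (mem_eL _ _ h1) (mem_eL _ _ h2)
      (by rw [Sym2.eq_swap (a := b), Sym2.eq_swap (a := d)]; exact hne) q q1 q2
    exact ⟨w, w1.symm, w2.symm, w3⟩

theorem taskF2 : TaskF2 := by
  refine ⟨pt, pt_inj, ?_, ?_⟩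
  · intro u v w huv hw
    obtain ⟨x, hx⟩ := no_isolated w
    have hwx : HG.Adj w x := (HG_had _ _).2 hx
    by_cases hs : s(u, v) = s(w, x)
    · rcases Sym2.eq_iff.1 hs with ⟨h1, _⟩ | ⟨_, h1⟩
      · exact Or.inl h1.symm
      · exact Or.inr h1.symm
    · obtain ⟨z, z1, _, z3⟩ := cross_adj huv hwx hs (pt w) hw (left_mem_segment ℝ _ _)
      rw [pt_inj z3]
      exact z1
  · intro u v x y huv hxy hne q q1 q2
    exact cross_adj huv hxy hne q q1 q2

end Pool.Agent.H719.PC
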