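import Pool.Agent.H719.PC.Defs

set_option autoImplicit false

/-!
# The kinds of the vertices of `HG`
-/

namespace Pool.Agent.H719.PC

/-- the degrees in `HG` -/
def hdg : HV → ℕ
  | .u _ _ => 5
  | .w _ _ => 4
  | .t _ => 3
  | .m _ _ k => k + 2
  | .l _ _ _ => 1

/-- the kinds in `HG` -/
def hkd : HV → ℕ × ℕ
  | .u _ _ => kU
  | .w _ _ => kW
  | .t _ => kT
  | .m _ _ k => kM k
  | .l _ _ _ => kL

theorem hdg_dec : ∀ v : HV,
    (Finset.univ.filter (fun a => (hdir v a || hdir a v) = true)).card = hdg v := by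
  decide +kernel

theorem hlf_dec : ∀ v : HV,
    (Finset.univ.filter (fun a => ((hdir v a || hdir a v) && decide (hdg a = 1)) = true)).card =
      (hkd v).2 := by
  decide +kernel

theorem HG_adj (a b : HV) : HG.Adj a b ↔ (hdir a b || hdir b a) = true := by
  rw [Bool.or_eq_true]
  rfl

open Classical in
theorem dg_HG (v : HV) : dg HG v = hdg v := by
  rw [← hdg_dec]
  unfold dg
  congr 1
  ext a
  rw [Finset.mem_filter, Finset.mem_filter, HG_adj]

open Classical in
theorem lf_HG (v : HV) : lf HG v = (hkd v).2 := by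
  rw [← hlf_dec]
  unfold lf
  congr 1
  ext a
  rw [Finset.mem_filter, Finset.mem_filter, HG_adj, dg_HG, Bool.and_eq_true, decide_eq_true_iff]

theorem kd_HG (v : HV) : kd HG v = hkd v := by
  unfold kd
  rw [dg_HG, lf_HG]
  cases v <;> rfl

theorem hk_all : ∀ v, hkd v = kU ∨ hkd v = kW ∨ hkd v = kT ∨ (∃ k < 4, hkd v = kM k) ∨
    hkd v = kL := by decide +kernel

theorem hk_ut : ∀ v, hkd v = kU → ∃ a, (hdir v a || hdir a v) = true ∧ hkd a = kT := by
  decide +kernel

theorem hk_um : ∀ v, hkd v = kU → ∀ k < 4, ∃ a, (hdir v a || hdir a v) = true ∧ hkd a = kM k := by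
  decide +kernel

theorem hk_wm : ∀ v, hkd v = kW → ∀ k < 4, ∃ a, (hdir v a || hdir a v) = true ∧ hkd a = kM k := by
  decide +kernel

theorem hk_tu : ∀ v, hkd v = kT → ∀ a, (hdir v a || hdir a v) = true → hkd a = kU := by
  decide +kernel

theorem hk_mu : ∀ k < 4, ∀ v, hkd v = kM k → ∃ a, (hdir v a || hdir a v) = true ∧ hkd a = kU := by
  decide +kernel

theorem hk_mw : ∀ k < 4, ∀ v, hkd v = kM k → ∃ a, (hdir v a || hdir a v) = true ∧ hkd a = kW := by
  decide +kernel

/-- type of a vertex of `HG` -/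
def ti : HV → Fin 3
  | .u i _ => i
  | .w i _ => i
  | .t _ => 0
  | .m i _ _ => i
  | .l i _ _ => i

/-- position of a vertex of `HG` -/
def pos : HV → Bool
  | .u _ j => j
  | .w _ j => j
  | .t j => j
  | .m _ j _ => j
  | .l _ j _ => j

theorem hs1' : ∀ a, hkd a = kU → ∀ b, (hdir a b || hdir b a) = true →
    ∀ k : Fin 4, hkd b = kM k → ti a = ti b ∧ pos a = pos b := by
  decide +kernel

theorem hs1 (k : ℕ) (hk : k < 4) (a : HV) (ha : hkd a = kU) (b : HV)
    (hab : (hdir a b || hdir b a) = true) (hb : hkd b = kM k) : ti a = ti b ∧ pos a = pos b :=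
  hs1' a ha b hab ⟨k, hk⟩ hb

theorem hs2' : ∀ k : Fin 4, ∀ a, hkd a = kM k → ∀ b, (hdir a b || hdir b a) = true →
    hkd b = kW → ti a = ti b ∧ pos b = xor (pos a) (xn (ti a) k) := by
  decide +kernel

theorem hs2 (k : ℕ) (hk : k < 4) (a : HV) (ha : hkd a = kM k) (b : HV)
    (hab : (hdir a b || hdir b a) = true) (hb : hkd b = kW) :
    ti a = ti b ∧ pos b = xor (pos a) (xn (ti a) k) :=
  hs2' ⟨k, hk⟩ a ha b hab hb

theorem hs3 : ∀ a, hkd a = kU → ∀ b, (hdir a b || hdir b a) = true → hkd b = kT →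
    pos a = pos b := by
  decide +kernel

theorem hs4 : ∀ c, hkd c = kT → ∀ a, (hdir c a || hdir a c) = true → ∀ b,
    (hdir c b || hdir b c) = true → a ≠ b → ti a ≠ ti b := by
  decide +kernel

end Pool.Agent.H719.PC
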