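import Pool.Agent.H719.PC.Tasks
import Pool.Agent.H719.PC.HKind

set_option autoImplicit false

/-!
# The graph `HG` is connected and planar
-/

namespace Pool.Agent.H719.PC

open SimpleGraph Pool.Agent.H239R2.Planar

/-- adjacency in `HG` -/
def had (a b : HV) : Bool := hdir a b || hdir b a

/-- the next colour around `u i j` -/
def nx (i : Fin 3) (k : Fin 4) : Fin 4 :=
  if i = 0 then (if k = 0 then 2 else if k = 2 then 1 else 3)
  else if i = 1 then (if k = 0 then 1 else if k = 1 then 2 else 3)
  else (if k = 0 then 3 else if k = 3 then 1 else 2)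

/-- the last colour around `u i j` -/
def lst (i : Fin 3) : Fin 4 := if i = 0 then 3 else if i = 1 then 3 else 2

/-- the previous colour around `u i j` -/
def pv (i : Fin 3) (k : Fin 4) : Fin 4 :=
  if i = 0 then (if k = 2 then 0 else if k = 1 then 2 else 1)
  else if i = 1 then (if k = 1 then 0 else if k = 2 then 1 else 2)
  else (if k = 3 then 0 else if k = 1 then 3 else 1)

/-- the neighbour of `a` which follows `b` in the rotation -/
def hN : HV → HV → HV
  | .t j, .u i _ => if j = false then .u (i + 1) j else .u (i + 2) j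
  | .u i j, .t _ => .m i j 0
  | .u i j, .m _ _ k => if k = lst i then .t j else .m i j (nx i k)
  | .w i j, .m _ j' k =>
      if k = 0 then .m i (!j) (lst i)
      else if k = nx i (nx i 0) then .m i j (nx i 0)
      else .m i j' (pv i k)
  | .m i j k, .u _ _ => .w i (xor j (xn i k))
  | .m i j k, .w _ _ => if k = 0 then .u i j else if k = 1 then .l i j 0
      else if k = 2 then .l i j 1 else .l i j 3
  | .m i j _, .l _ _ r => if r = 1 then .l i j 2 else if r = 3 then .l i j 4
      else if r = 4 then .l i j 5 else .u i j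
  | _, b => b

theorem had_symm : ∀ a b : HV, had a b = had b a := by
  intro a b
  unfold had
  rw [Bool.or_comm]

theorem HG_had (a b : HV) : HG.Adj a b ↔ had a b = true := HG_adj a b

theorem hN_adj : ∀ a b : HV, had a b = true → had a (hN a b) = true := by decide +kernel

/-- a code -/
def hc : HV → ℕ
  | .t j => 100 + j.toNat
  | .u i j => 200 + 10 * i + j.toNat
  | .w i j => 300 + 10 * i + j.toNat
  | .m i j k => 400 + 20 * i + 10 * j.toNat + k
  | .l i j r => 500 + 20 * i + 10 * j.toNat + r

theorem hc_inj : ∀ a b : HV, hc a = hc b → a = b := by decide +kernel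

theorem hc_lt : ∀ a : HV, hc a < 1000 := by decide +kernel

theorem hN_inj : ∀ u v : HV, had u v = true → ∀ w, had u w = true → hN u v = hN u w → v = w := by
  decide +kernel

theorem hN_cycle : ∀ u v : HV, had u v = true → ∀ w, had u w = true →
    w = v ∨ w = hN u v ∨ w = hN u (hN u v) ∨ w = hN u (hN u (hN u v)) ∨
      w = hN u (hN u (hN u (hN u v))) := by
  decide +kernel

/-- one step along a face -/
def step (d : HV × HV) : HV × HV := (d.2, hN d.2 d.1)

/-- code of a dart -/
def cd (d : HV × HV) : ℕ := hc d.1 * 1000 + hc d.2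

theorem cd_inj {d d' : HV × HV} (h : cd d = cd d') : d = d' := by
  unfold cd at h
  have h1 := hc_lt d.2
  have h2 := hc_lt d'.2
  exact Prod.ext (hc_inj _ _ (by omega)) (hc_inj _ _ (by omega))

/-- the least code on the next `n` darts of the face -/
def lab : ℕ → HV × HV → ℕ
  | 0, d => cd d
  | n + 1, d => min (cd d) (lab n (step d))

theorem lab_mem : ∀ (n : ℕ) (d : HV × HV), ∃ k : ℕ, lab n d = cd (step^[k] d) := by
  intro n
  induction n with
  | zero => intro d; exact ⟨0, rfl⟩
  | succ n ih =>
    intro d
    obtain ⟨k, hk⟩ := ih (step d)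
    rcases min_choice (cd d) (lab n (step d)) with h | h
    · exact ⟨0, by rw [lab, h]; rfl⟩
    · exact ⟨k + 1, by rw [lab, h, hk]; rfl⟩

theorem lab_step : ∀ u v : HV, had u v = true → lab 25 (step (u, v)) = lab 25 (u, v) := by
  decide +kernel

/-- the labels of the faces -/
def labs : Finset ℕ :=
  (((Finset.univ : Finset HV) ×ˢ (Finset.univ : Finset HV)).filter
    (fun d => had d.1 d.2 = true)).image (lab 25)

theorem card_labs : labs.card = 18 := by decide +kernel

theorem mem_labs (x : ℕ) : x ∈ labs ↔ ∃ d : HV × HV, had d.1 d.2 = true ∧ lab 25 d = x := by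
  unfold labs
  simp only [Finset.mem_image, Finset.mem_filter, Finset.mem_product, Finset.mem_univ, true_and]

attribute [irreducible] lab labs

instance : Finite HG.Dart := Finite.of_injective _ (Dart.toProd_injective (G := HG))

/-- the rotation -/
noncomputable def hRot : Equiv.Perm HG.Dart :=
  Equiv.ofBijective (fun d => (⟨(d.fst, hN d.fst d.snd),
      (HG_had _ _).2 (hN_adj _ _ ((HG_had _ _).1 d.adj))⟩ : HG.Dart)) (by
    rw [← Finite.injective_iff_bijective]
    intro d e hde
    have h0 : (⟨(d.fst, hN d.fst d.snd), (HG_had _ _).2 (hN_adj _ _ ((HG_had _ _).1 d.adj))⟩ :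
        HG.Dart) = ⟨(e.fst, hN e.fst e.snd), (HG_had _ _).2 (hN_adj _ _ ((HG_had _ _).1 e.adj))⟩ :=
      hde
    have h1 := congrArg (fun x : HG.Dart => x.fst) h0
    have h2 := congrArg (fun x : HG.Dart => x.snd) h0
    change d.fst = e.fst at h1
    change hN d.fst d.snd = hN e.fst e.snd at h2
    rw [← h1] at h2
    have he : had d.fst e.snd = true := by rw [h1]; exact (HG_had _ _).1 e.adj
    have h3 := hN_inj _ _ ((HG_had _ _).1 d.adj) _ he h2
    apply Dart.ext
    exact Prod.ext h1 h3)

theorem hRot_fst (d : HG.Dart) : (hRot d).fst = d.fst := rfl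
theorem hRot_snd (d : HG.Dart) : (hRot d).snd = hN d.fst d.snd := rfl

theorem hRot_isRotation : IsRotation HG hRot := by
  refine ⟨hRot_fst, ?_⟩
  intro d e hde
  have he : had d.fst e.snd = true := by rw [hde]; exact (HG_had _ _).1 e.adj
  have key : ∀ n : ℕ, ((hRot ^ n) d).fst = d.fst ∧
      ((hRot ^ n) d).snd = (hN d.fst)^[n] d.snd := by
    intro n
    induction n with
    | zero => exact ⟨rfl, rfl⟩
    | succ n ih =>
      rw [pow_succ', Equiv.Perm.mul_apply, hRot_fst, hRot_snd, ih.1, ih.2,
        Function.iterate_succ_apply']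
      exact ⟨rfl, rfl⟩
  have hext : ∀ n : ℕ, (hN d.fst)^[n] d.snd = e.snd → hRot.SameCycle d e := by
    intro n hn
    refine ⟨n, ?_⟩
    rw [zpow_natCast]
    apply Dart.ext
    exact Prod.ext ((key n).1.trans hde) ((key n).2.trans hn)
  rcases hN_cycle _ _ ((HG_had _ _).1 d.adj) _ he with h | h | h | h | h
  · exact hext 0 h.symm
  · exact hext 1 h.symm
  · exact hext 2 h.symm
  · exact hext 3 h.symm
  · exact hext 4 h.symm

theorem face_step (d : HG.Dart) : (facePerm HG hRot d).toProd = step d.toProd := rfl

theorem face_iter (d : HG.Dart) (n : ℕ) :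
    ((facePerm HG hRot ^ n) d).toProd = step^[n] d.toProd := by
  induction n with
  | zero => rfl
  | succ n ih =>
    rw [pow_succ', Equiv.Perm.mul_apply, face_step, ih, Function.iterate_succ_apply']

theorem lab_iter (d : HG.Dart) (n : ℕ) :
    lab 25 ((facePerm HG hRot ^ n) d).toProd = lab 25 d.toProd := by
  induction n with
  | zero => rfl
  | succ n ih =>
    rw [pow_succ', Equiv.Perm.mul_apply, face_step, ← ih]
    exact lab_step _ _ ((HG_had _ _).1 ((facePerm HG hRot ^ n) d).adj)

theorem sameCycle_of_lab {d e : HG.Dart} (h : lab 25 d.toProd = lab 25 e.toProd) :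
    (facePerm HG hRot).SameCycle d e := by
  obtain ⟨k, hk⟩ := lab_mem 25 d.toProd
  obtain ⟨l, hl⟩ := lab_mem 25 e.toProd
  rw [hk, hl] at h
  have h1 := cd_inj h
  rw [← face_iter, ← face_iter] at h1
  have h2 : (facePerm HG hRot ^ k) d = (facePerm HG hRot ^ l) e := Dart.ext _ _ h1
  have h3 : (facePerm HG hRot).SameCycle d ((facePerm HG hRot ^ k) d) := ⟨k, by rw [zpow_natCast]⟩
  have h4 : (facePerm HG hRot).SameCycle e ((facePerm HG hRot ^ l) e) := ⟨l, by rw [zpow_natCast]⟩
  rw [h2] at h3
  exact h3.trans h4.symm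

/-- the label of a face -/
noncomputable def faceLab : Face HG hRot → ℕ :=
  Quotient.lift (fun d : HG.Dart => lab 25 d.toProd) (fun d e hde => by
    have hde' : (facePerm HG hRot).SameCycle d e := hde
    obtain ⟨n, hn⟩ := hde'.exists_nat_pow_eq
    change lab 25 d.toProd = lab 25 e.toProd
    rw [← hn, lab_iter])

theorem faceLab_mk (d : HG.Dart) : faceLab (Quotient.mk _ d) = lab 25 d.toProd := rfl

theorem faceLab_inj : Function.Injective faceLab := by
  intro a b hab
  induction a using Quotient.inductionOn with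
  | _ d =>
  induction b using Quotient.inductionOn with
  | _ e =>
  rw [faceLab_mk, faceLab_mk] at hab
  exact Quotient.sound (sameCycle_of_lab hab)

theorem faceLab_range : Set.range faceLab = (labs : Set ℕ) := by
  ext x
  rw [Set.mem_range, Finset.mem_coe, mem_labs]
  constructor
  · rintro ⟨a, rfl⟩
    induction a using Quotient.inductionOn with
    | _ d => exact ⟨d.toProd, (HG_had _ _).1 d.adj, (faceLab_mk d).symm⟩
  · rintro ⟨d, hd, rfl⟩
    exact ⟨Quotient.mk _ (⟨d, (HG_had _ _).2 hd⟩ : HG.Dart), faceLab_mk _⟩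

theorem card_face : Nat.card (Face HG hRot) = 18 := by
  rw [Nat.card_congr (Equiv.ofInjective _ faceLab_inj), faceLab_range, Nat.card_coe_set_eq,
    Set.ncard_coe_finset, card_labs]

/-- a spanning tree -/
def par : HV → HV
  | .t j => .u 0 j
  | .u i j => if i = 0 then (if j = true then .m 0 true 1 else .u 0 false) else .t j
  | .w i j => .m i j 0
  | .m i j k => if i = 0 ∧ j = true ∧ k = 1 then .w 0 false else .u i j
  | .l i j r => .m i j (if r = 0 then 1 else if r ≤ 2 then 2 else 3)

theorem par_adj : ∀ v : HV, v = .u 0 false ∨ had v (par v) = true := by decide +kernel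

theorem par_root : ∀ v : HV, par^[12] v = .u 0 false := by decide +kernel

theorem HG_connected : HG.Connected := by
  have h1 : ∀ v, HG.Reachable v (par v) := by
    intro v
    rcases par_adj v with h | h
    · rw [h]
      exact Reachable.refl _
    · exact ((HG_had _ _).2 h).reachable
  have h2 : ∀ (n : ℕ) v, HG.Reachable v (par^[n] v) := by
    intro n
    induction n with
    | zero => intro v; exact Reachable.refl _
    | succ n ih =>
      intro v
      rw [Function.iterate_succ_apply']
      exact (ih v).trans (h1 _)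
  have h3 : ∀ v, HG.Reachable v (.u 0 false) := fun v => par_root v ▸ h2 12 v
  have : Nonempty HV := ⟨.u 0 false⟩
  exact ⟨fun a b => (h3 a).trans (h3 b).symm⟩

theorem sum_hdg : ∑ v : HV, hdg v = 180 := by decide +kernel

theorem card_HV : Fintype.card HV = 74 := by decide +kernel

theorem card_edges : Nat.card HG.edgeSet = 90 := by
  classical
  have h1 := HG.sum_degrees_eq_twice_card_edges
  have h2 : ∀ v, HG.degree v = hdg v := by
    intro v
    rw [← dg_HG]
    unfold dg
    rw [← SimpleGraph.card_neighborFinset_eq_degree]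
    congr 1
    ext a
    simp
  rw [Finset.sum_congr rfl fun v _ => h2 v, sum_hdg] at h1
  rw [Nat.card_eq_fintype_card, ← SimpleGraph.edgeFinset_card]
  omega

theorem no_isolated : ∀ v : HV, ∃ w, had v w = true := by decide +kernel

theorem HG_planar : IsPlanar HG := by
  refine ⟨hRot, hRot_isRotation, ?_⟩
  have h1 : Nat.card {v : HV // ∀ w, ¬ HG.Adj v w} = 0 := by
    rw [Nat.card_eq_zero]
    left
    refine ⟨fun v => ?_⟩
    obtain ⟨w, hw⟩ := no_isolated v.1
    exact v.2 w ((HG_had _ _).2 hw)
  have h2 : Nat.card HG.ConnectedComponent = 1 := by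
    have := HG_connected.preconnected.subsingleton_connectedComponent
    have : Nonempty HG.ConnectedComponent := ⟨HG.connectedComponentMk (.u 0 false)⟩
    exact Nat.card_unique
  rw [h1, h2, card_face, card_edges, Nat.card_eq_fintype_card, card_HV]

theorem taskF1 : TaskF1 := ⟨HG_connected, HG_planar⟩

end Pool.Agent.H719.PC
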