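import Pool.Agent.H719.PC.AlgCorr
import Pool.Agent.H719.PC.Plan

set_option autoImplicit false

/-!
# Covering `HG` is in `NP`
-/

namespace Pool.Agent.H719.PC

open Pool.Agent.NPC Pool.Agent.NPC.R671

/-- test for adjacency matrices -/
def wfM (M : List (List Bool)) : Bool :=
  M.all (fun r => decide (r.length = M.length)) &&
    ((rng M).all (fun i => !(adM M i i) && (rng M).all (fun j => decide (adM M i j = adM M j i))))

theorem wfM_iff (M : List (List Bool)) :
    wfM M = true ↔ ∃ (n : ℕ) (G : SimpleGraph (Fin n)), adjMatrix G = M := by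
  constructor
  · intro h
    simp only [wfM, rng, Bool.and_eq_true, List.all_eq_true, decide_eq_true_eq, List.mem_range,
      Bool.not_eq_true'] at h
    obtain ⟨h1, h2⟩ := h
    refine ⟨M.length, ⟨fun i j => adM M i j = true, ⟨?_⟩, ⟨?_⟩⟩, ?_⟩
    · intro i j hij
      rw [← (h2 i i.isLt).2 j j.isLt]
      exact hij
    · intro i hi
      have h3 := (h2 i i.isLt).1
      rw [h3] at hi
      exact absurd hi (by simp)
    · unfold adjMatrix
      apply List.ext_getElem
      · simp
      · intro i hi hi'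
        rw [List.getElem_ofFn]
        apply List.ext_getElem
        · rw [List.length_ofFn, h1 _ (List.getElem_mem _)]
        · intro j hj hj'
          rw [List.getElem_ofFn]
          simp only [adM, List.getD_eq_getElem?_getD]
          rw [List.getElem?_eq_getElem hi', Option.getD_some, List.getElem?_eq_getElem hj',
            Option.getD_some, Bool.decide_eq_true]
  · rintro ⟨n, G, rfl⟩
    unfold wfM
    rw [Bool.and_eq_true, all_rng, List.all_eq_true]
    refine ⟨?_, ?_⟩
    · intro row hrow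
      unfold adjMatrix at hrow
      rw [List.mem_ofFn] at hrow
      obtain ⟨i, rfl⟩ := hrow
      simp [length_adjMatrix]
    · intro i
      rw [Bool.and_eq_true, Bool.not_eq_true', all_rng]
      refine ⟨?_, ?_⟩
      · rw [← Bool.not_eq_true, adM_iff]
        exact G.loopless.irrefl i
      · intro j
        rw [decide_eq_true_iff, Bool.eq_iff_iff, adM_iff, adM_iff, SimpleGraph.adj_comm]

/-- codes of the edges of `HG` -/
noncomputable def eH : List (ℕ × ℕ) :=
  ((Finset.univ.filter (fun d : HV × HV => had d.1 d.2 = true)).toList).map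
    (fun d => (hc d.1, hc d.2))

theorem mem_eH (a b : HV) : (hc a, hc b) ∈ eH ↔ had a b = true := by
  unfold eH
  simp only [List.mem_map, Finset.mem_toList, Finset.mem_filter, Finset.mem_univ, true_and,
    Prod.mk.injEq]
  constructor
  · rintro ⟨⟨a', b'⟩, h1, h2, h3⟩
    rw [← hc_inj _ _ h2, ← hc_inj _ _ h3]
    exact h1
  · intro h
    exact ⟨(a, b), h, rfl, rfl⟩

/-- codes and degrees in `HG` -/
noncomputable def dH : List (ℕ × ℕ) := (Finset.univ : Finset HV).toList.map fun a => (hc a, hdg a)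

theorem mem_dH (x : ℕ × ℕ) : x ∈ dH ↔ ∃ a : HV, (hc a, hdg a) = x := by
  unfold dH
  simp

/-- the verifier -/
noncomputable def RB (x : List (List Bool) × List ℕ) : Bool :=
  wfM x.1 && decide (x.2.length = x.1.length) && x.2.all (fun a => decide (a < 1000)) &&
    (rng x.1).all (fun v => dH.any (fun e => decide (e.1 = x.2.getD v 0) &&
      decide (e.2 ≤ dgM x.1 v))) &&
    (rng x.1).all (fun v => (rng x.1).all (fun a => !(adM x.1 v a) ||
      (decide ((x.2.getD v 0, x.2.getD a 0) ∈ eH) && (rng x.1).all (fun b => !(adM x.1 v b) ||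
        (!(decide (x.2.getD a 0 = x.2.getD b 0)) || decide (a = b))))))

section
attribute [local irreducible] rng adM dgM

theorem wfM_poly {α : Type} [TEnc α] {M : α → List (List Bool)} (hM : Poly M) :
    Poly (fun x => wfM (M x)) := by
  unfold wfM
  fun_prop

attribute [fun_prop] wfM_poly
attribute [local irreducible] wfM eH dH

theorem RB_poly : Poly RB := by
  unfold RB
  fun_prop

end

theorem covers_iff_f {V : Type} [Fintype V] (G : SimpleGraph V) : Covers G HG ↔
    ∃ f : V → HV, (∀ a b, G.Adj a b → HG.Adj (f a) (f b)) ∧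
      (∀ v a b, G.Adj v a → G.Adj v b → f a = f b → a = b) ∧ ∀ v, hdg (f v) ≤ dg G v := by
  constructor
  · rintro ⟨f, h1, h2⟩
    have hb := fun v => cov_bij h1 h2 v
    refine ⟨f, h1, fun v a b ha hb' hab => (hb v).injOn ha hb' hab, fun v => ?_⟩
    rw [cov_dg hb, dg_HG]
  · rintro ⟨f, h1, h2, h3⟩
    refine covers_of_local h1 h2 fun v => ?_
    rw [dg_HG]
    exact h3 v

theorem RB_iff {n : ℕ} (G : SimpleGraph (Fin n)) (w : List ℕ) : RB (adjMatrix G, w) = true ↔
    w.length = n ∧ (∀ a ∈ w, a < 1000) ∧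
    (∀ v : Fin n, ∃ a : HV, hc a = w.getD v 0 ∧ hdg a ≤ dg G v) ∧
    ∀ v a : Fin n, G.Adj v a → (w.getD v 0, w.getD a 0) ∈ eH ∧
      ∀ b : Fin n, G.Adj v b → w.getD a 0 = w.getD b 0 → a = b := by
  unfold RB
  simp only
  rw [Bool.and_eq_true, Bool.and_eq_true, Bool.and_eq_true, Bool.and_eq_true, decide_eq_true_iff,
    length_adjMatrix, and_iff_right ((wfM_iff _).2 ⟨n, G, rfl⟩), and_assoc, and_assoc]
  refine and_congr Iff.rfl (and_congr ?_ (and_congr ?_ ?_))
  · rw [List.all_eq_true]
    simp only [decide_eq_true_iff]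
  · rw [all_rng]
    refine forall_congr' fun v => ?_
    rw [List.any_eq_true]
    constructor
    · rintro ⟨e, he, h1⟩
      rw [mem_dH] at he
      obtain ⟨a, rfl⟩ := he
      rw [Bool.and_eq_true, decide_eq_true_iff, decide_eq_true_iff, dgM_eq] at h1
      exact ⟨a, h1⟩
    · rintro ⟨a, h1, h2⟩
      refine ⟨_, (mem_dH _).2 ⟨a, rfl⟩, ?_⟩
      rw [Bool.and_eq_true, decide_eq_true_iff, decide_eq_true_iff, dgM_eq]
      exact ⟨h1, h2⟩
  · rw [all_rng]
    refine forall_congr' fun v => ?_
    rw [all_rng]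
    refine forall_congr' fun a => ?_
    refine imp_bool (adM_iff G v a) ?_
    rw [Bool.and_eq_true, decide_eq_true_iff]
    refine and_congr Iff.rfl ?_
    rw [all_rng]
    refine forall_congr' fun b => ?_
    refine imp_bool (adM_iff G v b) ?_
    refine imp_bool (by rw [decide_eq_true_iff]) ?_
    rw [decide_eq_true_iff, Fin.val_inj]

theorem covers_cert (M : List (List Bool)) :
    (∃ (n : ℕ) (G : SimpleGraph (Fin n)), adjMatrix G = M ∧ Covers G HG) ↔
      ∃ w : List ℕ, RB (M, w) = true := by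
  constructor
  · rintro ⟨n, G, rfl, hc'⟩
    obtain ⟨f, h1, h2, h3⟩ := (covers_iff_f G).1 hc'
    refine ⟨List.ofFn fun i => hc (f i), (RB_iff G _).2 ⟨List.length_ofFn, ?_, ?_, ?_⟩⟩
    · intro a ha
      rw [List.mem_ofFn] at ha
      obtain ⟨i, rfl⟩ := ha
      exact hc_lt _
    · intro v
      exact ⟨f v, by rw [getD_ofFn], h3 v⟩
    · intro v a hva
      rw [getD_ofFn, getD_ofFn, mem_eH, ← HG_had]
      refine ⟨h1 _ _ hva, fun b hvb hab => ?_⟩
      rw [getD_ofFn] at hab
      exact h2 v a b hva hvb (hc_inj _ _ hab)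
  · rintro ⟨w, hw⟩
    have hM : wfM M = true := by
      unfold RB at hw
      simp only [Bool.and_eq_true] at hw
      exact hw.1.1.1.1
    obtain ⟨n, G, rfl⟩ := (wfM_iff M).1 hM
    obtain ⟨_, _, h1, h2⟩ := (RB_iff G w).1 hw
    refine ⟨n, G, rfl, (covers_iff_f G).2 ?_⟩
    choose f hf1 hf2 using h1
    refine ⟨f, ?_, ?_, hf2⟩
    · intro a b hab
      have h3 := (h2 a b hab).1
      rw [← hf1, ← hf1, mem_eH] at h3
      exact (HG_had _ _).2 h3
    · intro v a b ha hb hab
      refine (h2 v a ha).2 b hb ?_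
      rw [← hf1, ← hf1, hab]

theorem RB_short {M : List (List Bool)} {w : List ℕ} (h : RB (M, w) = true) :
    sz w ≤ (5000 * Polynomial.X + 1 : Polynomial ℕ).eval (sz M) := by
  unfold RB at h
  simp only [Bool.and_eq_true, decide_eq_true_eq, List.all_eq_true] at h
  obtain ⟨⟨⟨⟨_, h4⟩, hlt⟩, _⟩, _⟩ := h
  have hsz : ∀ a ∈ w, sz a ≤ 4999 := by
    intro a ha
    have h1 := sz_nat_le a
    have h2 := Poly.size_le_self a
    have h3 := hlt a ha
    omega
  have h5 := sz_le_length_mul w _ hsz
  have h1 : M.length ≤ sz M := (length_lt_sz M).le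
  simp only [Polynomial.eval_add, Polynomial.eval_mul, Polynomial.eval_X,
    Polynomial.eval_ofNat, Polynomial.eval_one]
  rw [h4] at h5
  omega

theorem taskNP : TaskNP := by
  refine inNPP_of (R := RB) RB_poly (5000 * Polynomial.X + 1) ?_
  intro M
  rw [covers_cert]
  exact exists_congr fun w => ⟨fun h => ⟨RB_short h, h⟩, fun h => h.2⟩

end Pool.Agent.H719.PC
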