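import Pool.Agent.H719.PC.Tasks
import Pool.Agent.H239R2.Cover.PlanarP1

set_option autoImplicit false

/-!
# Sparsity in planar graphs: a set of edges without small even subsets is sparse
-/

namespace Pool.Agent.H719.PC

open SimpleGraph Pool.Agent.H239R2.Planar

open Classical in
theorem card_even_conv {V : Type} (B : Finset (Sym2 V)) (v : V) :
    Nat.card {e // e ∈ B ∧ v ∈ e} = (B.filter (fun e => v ∈ e)).card := by
  rw [Nat.subtype_card]
  intro e
  rw [Finset.mem_filter]

open Classical in
theorem taskSP1 : TaskSP1 := by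
  intro V _ G hG A hA hB
  obtain ⟨σ, hσ, heu⟩ := hG
  -- the cycles supported on `A`
  set L := (bdry G).comp (ext0 G A) with hL
  have h1 := LinearMap.finrank_range_add_finrank_ker L
  rw [Module.finrank_fintype_fun_eq_card] at h1
  have h2 : Fintype.card {e : G.edgeSet // e.1 ∈ A} = A.card := by
    rw [← Fintype.card_coe A]
    apply Fintype.card_congr
    exact
      { toFun := fun e => ⟨e.1.1, e.2⟩
        invFun := fun e => ⟨⟨e.1, hA e.2⟩, e.2⟩
        left_inv := fun _ => rfl
        right_inv := fun _ => rfl }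
  have h3 := range_le G A
  rw [← hL] at h3
  -- dimension of the cycle space
  set P := {X : Reg G σ A // (bdr G σ A X).Nonempty} with hP
  have h4 : (LinearMap.ker L).map (ext0 G A) ≤ Submodule.span ℚ (Set.range
      (fun X : P => DD G σ (ind G σ A X.1))) := by
    rintro _ ⟨y, hy, rfl⟩
    have hy' : bdry G (ext0 G A y) = 0 := hy
    have h5 : ext0 G A y ∈ LinearMap.range (DD G σ) := by
      rw [ker_bdry G hσ heu]
      exact hy'
    obtain ⟨ψ, hψ⟩ := h5
    rw [← hψ]
    apply mem_span_of_supported
    intro d hd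
    have h6 : DD G σ ψ ⟨d.edge, d.edge_mem⟩ = 0 := by
      rw [hψ]
      simp [ext0, hd]
    rw [DD_apply, sub_eq_zero] at h6
    rcases (dart_edge_eq_iff _ _).mp (dt_edge G ⟨d.edge, d.edge_mem⟩) with h7 | h7
    · rw [h7] at h6; exact h6
    · rw [h7, Dart.symm_symm] at h6; exact h6.symm
  have h5 : Module.finrank ℚ (LinearMap.ker L) ≤ Fintype.card P := by
    have h6 := Submodule.finrank_mono h4
    rw [← (Submodule.equivMapOfInjective _ (ext0_inj G A) (LinearMap.ker L)).finrank_eq] at h6
    exact h6.trans (finrank_range_le_card _)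
  have h6 : 2 * 4 * Fintype.card P ≤ 2 * A.card := by
    refine le_trans ?_ (sum_bdr_le G σ A)
    have h7 : ∑ X : P, (bdr G σ A X.1).card ≤ ∑ X : Reg G σ A, (bdr G σ A X).card := by
      rw [← Finset.sum_subtype (Finset.univ.filter fun X : Reg G σ A =>
        (bdr G σ A X).Nonempty) (by simp) (fun X => (bdr G σ A X).card)]
      exact Finset.sum_le_sum_of_subset (Finset.filter_subset _ _)
    refine le_trans ?_ h7
    rw [mul_comm, ← smul_eq_mul, ← Finset.card_univ]
    apply Finset.card_nsmul_le_sum
    rintro ⟨X, hX⟩ _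
    refine hB _ (Finset.filter_subset _ _) hX fun v => ?_
    rw [card_even_conv]
    exact bdr_even G hσ A X v
  have h8 : A.card ≤ rk A + Fintype.card P := by omega
  omega

end Pool.Agent.H719.PC
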