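import Pool.Agent.H719.PC.Sp1
import Pool.Agent.H239R2.Cover.PlanarP2

set_option autoImplicit false

/-!
# Sparsity of graphs with a straight-line drawing
-/

namespace Pool.Agent.H719.PC

open SimpleGraph Pool.Agent.H239R2.Planar

open Filter Topology in
open Classical in
/-- Sparsity of a graph with a straight-line drawing in the plane. -/
theorem taskSP2 : TaskSP2 := by
  intro V _ G hG A hA hev0
  obtain ⟨p, hp, -, hcr⟩ := hG
  -- a linear change of coordinates making the abscissas distinct
  obtain ⟨ε, hε⟩ : ∃ ε : ℝ, Function.Injective (fun v => (p v).1 + ε * (p v).2) := by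
    have h1 : ∀ q : V × V, ∀ᶠ ε : ℝ in 𝓝[>] (0:ℝ), q.1 ≠ q.2 →
        (p q.1).1 + ε * (p q.1).2 ≠ (p q.2).1 + ε * (p q.2).2 := by
      intro q
      by_cases hq : q.1 = q.2
      · exact Filter.Eventually.of_forall fun _ h => absurd hq h
      by_cases h2 : (p q.1).1 = (p q.2).1
      · have h3 : (p q.1).2 ≠ (p q.2).2 := fun h3 => hq (hp (Prod.ext h2 h3))
        filter_upwards [eventually_mem_nhdsWithin] with ε hε _ h4
        have hε' : (0:ℝ) < ε := hε
        rw [h2] at h4
        exact h3 (mul_left_cancel₀ hε'.ne' (add_left_cancel h4))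
      · have h3 : Tendsto (fun ε : ℝ => ((p q.1).1 + ε * (p q.1).2) - ((p q.2).1 + ε * (p q.2).2))
            (𝓝[>] 0) (𝓝 (((p q.1).1 + 0 * (p q.1).2) - ((p q.2).1 + 0 * (p q.2).2))) := by
          refine Tendsto.mono_left ?_ nhdsWithin_le_nhds
          exact Continuous.tendsto (by fun_prop) 0
        have h4 : (((p q.1).1 + 0 * (p q.1).2) - ((p q.2).1 + 0 * (p q.2).2)) ≠ 0 := by
          simpa [sub_eq_zero] using h2
        filter_upwards [h3.eventually (isOpen_ne.mem_nhds h4)] with ε hε _ h5
        exact hε (sub_eq_zero.2 h5)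
    obtain ⟨ε, h2⟩ := (Filter.eventually_all.2 h1).exists
    refine ⟨ε, fun u v huv => ?_⟩
    by_contra hne
    exact h2 (u, v) hne huv
  set X : V → ℝ := fun v => (p v).1 + ε * (p v).2 with hX
  set Y : V → ℝ := fun v => (p v).2 with hY
  let E : Type := {e : V × V // s(e.1, e.2) ∈ A ∧ X e.1 < X e.2}
  let tl : E → V := fun e => e.1.1
  let hd : E → V := fun e => e.1.2
  have hgood : P2.Good tl hd X Y := by
    refine ⟨hε, fun e => e.2.2, ?_⟩
    rintro ⟨⟨u, v⟩, hA1, h1⟩ ⟨⟨u', v'⟩, hA2, h2⟩ hef x a1 a2 a3 a4 heq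
    simp only [tl, hd] at a1 a2 a3 a4 h1 h2 hA1 hA2
    have adj1 : G.Adj u v := G.mem_edgeSet.1 (hA (by exact_mod_cast hA1))
    have adj2 : G.Adj u' v' := G.mem_edgeSet.1 (hA (by exact_mod_cast hA2))
    have hpt : ∀ a b : V, X a < X b → X a ≤ x → x ≤ X b →
        ∃ q ∈ segment ℝ (p a) (p b), q.2 = Y a + (x - X a) * ((Y b - Y a) / (X b - X a)) ∧
          q.1 + ε * q.2 = x := by
      intro a b hab ha hb
      have hab' : X b - X a ≠ 0 := by linarith
      set t := (x - X a) / (X b - X a) with ht
      have ht' : t * (X b - X a) = x - X a := by rw [ht]; field_simp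
      refine ⟨(1 - t) • p a + t • p b, ⟨1 - t, t, ?_, ?_, by ring, rfl⟩, ?_, ?_⟩
      · rw [sub_nonneg, ht, div_le_one (by linarith)]; linarith
      · rw [ht]; apply div_nonneg <;> linarith
      · simp only [Prod.snd_add, Prod.smul_snd, smul_eq_mul, hY]
        rw [ht]
        ring
      · simp only [Prod.snd_add, Prod.smul_snd, smul_eq_mul, Prod.fst_add, Prod.smul_fst]
        have : (1 - t) * (p a).1 + t * (p b).1 + ε * ((1 - t) * (p a).2 + t * (p b).2) =
            X a + t * (X b - X a) := by simp only [hX]; ring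
        rw [this, ht']
        ring
    obtain ⟨q, q1, q2, q3⟩ := hpt u v h1 a1.le a2.le
    obtain ⟨q', q1', q2', q3'⟩ := hpt u' v' h2 a3 a4
    have hq2 : q.2 = q'.2 := by
      rw [q2, q2']
      exact heq
    have hq : q = q' := by
      refine Prod.ext ?_ hq2
      rw [hq2] at q3
      linarith
    rw [← hq] at q1'
    have hss : s(u, v) ≠ s(u', v') := by
      intro hs
      rw [Sym2.eq_iff] at hs
      rcases hs with ⟨r1, r2⟩ | ⟨r1, r2⟩
      · subst r1; subst r2; exact hef rfl
      · subst r1; subst r2; linarith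
    obtain ⟨w, hw1, -, hw3⟩ := hcr u v u' v' adj1 adj2 hss q q1 q1'
    have hXw : X w = x := by
      rw [← q3, hw3]
    rcases hw1 with hw | hw
    · rw [hw] at hXw; linarith
    · rw [hw] at hXw; linarith
  -- the map to the edges
  have hinj : Function.Injective (fun e : E => s(e.1.1, e.1.2)) := by
    rintro ⟨⟨u, v⟩, hA1, h1⟩ ⟨⟨u', v'⟩, hA2, h2⟩ hs
    simp only at hs h1 h2
    rw [Sym2.eq_iff] at hs
    rcases hs with ⟨r1, r2⟩ | ⟨r1, r2⟩
    · subst r1; subst r2; rfl
    · subst r1; subst r2; linarith
  have himg : (Finset.univ : Finset E).image (fun e : E => s(e.1.1, e.1.2)) = A := by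
    ext a
    simp only [Finset.mem_image, Finset.mem_univ, true_and]
    constructor
    · rintro ⟨e, rfl⟩; exact e.2.1
    · intro ha
      induction a using Sym2.ind with
      | _ u v =>
        have adj : G.Adj u v := G.mem_edgeSet.1 (hA (by exact_mod_cast ha))
        have hne : X u ≠ X v := fun h => adj.ne (hε h)
        rcases lt_or_gt_of_ne hne with h1 | h1
        · exact ⟨⟨(u, v), ha, h1⟩, rfl⟩
        · exact ⟨⟨(v, u), by rw [Sym2.eq_swap]; exact ha, h1⟩, Sym2.eq_swap⟩
  have hcard : Fintype.card E = A.card := by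
    have h1 := congrArg Finset.card himg
    rw [Finset.card_image_of_injective _ hinj, Finset.card_univ] at h1
    exact h1
  -- girth
  have hB : ∀ B : Finset E, B.Nonempty →
      (∀ v, Even (B.filter (fun e => tl e = v ∨ hd e = v)).card) → 2 * 4 ≤ B.card := by
    intro B hne hev
    have h1 := hev0 (B.image (fun e : E => s(e.1.1, e.1.2))) ?_ (hne.image _) ?_
    · rw [Finset.card_image_of_injective _ hinj] at h1
      exact h1
    · intro a ha
      rw [Finset.mem_image] at ha
      obtain ⟨e, -, rfl⟩ := ha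
      exact e.2.1
    · intro v
      rw [card_even_conv, Finset.filter_image, Finset.card_image_of_injective _ hinj]
      have h2 := hev v
      have h3 : (B.filter (fun e : E => v ∈ s(e.1.1, e.1.2))) =
          B.filter (fun e => tl e = v ∨ hd e = v) := by
        refine Finset.filter_congr fun e _ => ?_
        rw [Sym2.mem_iff]
        simp only [tl, hd]
        tauto
      rw [h3]
      exact h2
  have hsp := P2.sparse hgood 4 hB
  -- rank
  have hrk : Fintype.card E ≤ rk A + Module.finrank ℚ (P2.Z tl hd) := by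
    let D : (E → ℚ) →ₗ[ℚ] (V → ℚ) :=
      Fintype.linearCombination ℚ (fun e : E => (Pi.single e.1.1 1 - Pi.single e.1.2 1 : V → ℚ))
    have h1 := D.finrank_range_add_finrank_ker
    rw [Module.finrank_fintype_fun_eq_card] at h1
    have h2 : Module.finrank ℚ D.range ≤ rk A := by
      unfold rk
      apply Submodule.finrank_mono
      rw [Fintype.range_linearCombination]
      refine Submodule.span_mono ?_
      rintro _ ⟨e, rfl⟩
      exact ⟨e.1.1, e.1.2, e.2.1, rfl⟩
    have h3 : Module.finrank ℚ D.ker ≤ Module.finrank ℚ (P2.Z tl hd) := by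
      apply Submodule.finrank_mono
      intro z hz v
      rw [LinearMap.mem_ker] at hz
      have h4 := congrFun hz v
      simp only [D, Fintype.linearCombination_apply, Finset.sum_apply, Pi.smul_apply,
        Pi.sub_apply, smul_eq_mul, Pi.zero_apply, mul_sub, Finset.sum_sub_distrib] at h4
      have h5 : ∀ g : E → V, (∑ e : E, z e * (Pi.single (g e) (1:ℚ) : V → ℚ) v) =
          ∑ e : E, if g e = v then z e else 0 := by
        intro g
        refine Finset.sum_congr rfl fun e _ => ?_
        rw [Pi.single_apply]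
        by_cases hv : g e = v
        · rw [if_pos hv, if_pos hv.symm, mul_one]
        · rw [if_neg hv, if_neg (Ne.symm hv), mul_zero]
      have h6 := h5 tl
      have h7 := h5 hd
      simp only [tl, hd] at h6 h7
      rw [h6, h7] at h4
      exact (sub_eq_zero.1 h4).symm
    omega
  rw [hcard] at hsp hrk
  omega

end Pool.Agent.H719.PC
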