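import Pool.Agent.H719.PC.RedCorr
import Pool.Agent.H719.PC.NPmem
import Pool.Agent.H719.PC.ColH
import Pool.Agent.H719.PC.Sp1
import Pool.Agent.H719.PC.Sp2
import Pool.Agent.H719.PC.Draw2
import Pool.Agent.NPC.Classes

set_option autoImplicit false

/-!
# The graph `HG`: covering it is NP-complete, and easy on planar graphs
-/

namespace Pool.Agent.H719.PC

open Pool.Agent.NPC Pool.Agent.NPC.R671 Pool.Agent.H692R2 Pool.Agent.H239R2.Planar

theorem covers_alg {V : Type} [Fintype V] (G : SimpleGraph V) (hG : Spr G) :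
    Covers G HG ↔ Alg G := by
  rw [taskA]
  constructor
  · rintro ⟨h1, h2⟩
    exact (taskC V G h1 (taskB V G h1 hG)).1 h2
  · intro h
    exact ⟨h.1, (taskC V G h.1 (taskB V G h.1 hG)).2 h⟩

theorem algB_correct {n : ℕ} (G : SimpleGraph (Fin n))
    (hG : IsPlanar G ∨ HasStraightLineDrawing G) : algB (adjMatrix G) = true ↔ Covers G HG := by
  rw [algB_iff, covers_alg G (hG.elim (taskSP1 _ G) (taskSP2 _ G))]

/-- the problem on planar graphs is easy -/
theorem planar_easy : ∃ D : List Bool → List Bool, PolyTime D ∧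
    ∀ (n : ℕ) (G : SimpleGraph (Fin n)), (IsPlanar G ∨ HasStraightLineDrawing G) →
      (D (bits (adjMatrix G)) = [true] ↔ Covers G HG) := by
  have h : InPP (fun M : List (List Bool) => algB M = true) := inPP_of algB_poly fun _ => Iff.rfl
  obtain ⟨V, hV, hV'⟩ := h.exists_test
  exact ⟨V, hV, fun n G hG => by rw [← hV', algB_correct G hG]⟩

theorem hard_covers : HardPr (fun _ : List (List Bool) => True) (fun M : List (List Bool) =>
    ∃ (n : ℕ) (G : SimpleGraph (Fin n)), adjMatrix G = M ∧ Covers G HG) := by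
  refine HardPr.trans taskH redG_poly (fun _ _ => trivial) fun E hE => ?_
  rw [red_iff E hE]
  constructor
  · intro h
    exact ⟨_, redG E, rfl, h⟩
  · rintro ⟨n, G, hG, h⟩
    have hn : n = (vL E).length := by
      rw [← length_adjMatrix G, hG, length_adjMatrix]
    subst hn
    rw [adjMatrix_inj hG] at h
    exact h

theorem np_complete : InNPP (fun M : List (List Bool) =>
    ∃ (n : ℕ) (G : SimpleGraph (Fin n)), adjMatrix G = M ∧ Covers G HG) ∧
    NPHardP (fun M : List (List Bool) =>
    ∃ (n : ℕ) (G : SimpleGraph (Fin n)), adjMatrix G = M ∧ Covers G HG) :=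
  ⟨taskNP, hard_covers.toHardI.toNPHardP⟩

theorem covers_refl {V : Type} (G : SimpleGraph V) : Covers G G :=
  ⟨id, fun _ _ h => h, fun _ => ⟨fun _ h => h, fun _ _ _ _ h => h, fun b h => ⟨b, h, rfl⟩⟩⟩

end Pool.Agent.H719.PC
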