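import Pool.Agent.H719.PC.Defs

set_option autoImplicit false

/-!
# Closed walks of odd voltage and potentials
-/

namespace Pool.Agent.H719.PC

open Relation

variable {V : Type} {E : V → V → Prop} {ν : V → V → Bool}

theorem lift_shift {x y : V × Bool} (c : Bool) (h : ReflTransGen (Lift E ν) x y) :
    ReflTransGen (Lift E ν) (x.1, xor x.2 c) (y.1, xor y.2 c) := by
  induction h with
  | refl => exact .refl
  | tail _ hbc ih =>
    refine ih.tail ⟨hbc.1, ?_⟩
    simp only [hbc.2]
    rw [Bool.xor_assoc, Bool.xor_assoc, Bool.xor_comm c]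

theorem lift_symm (hE : ∀ a b, E a b → E b a) (hν : ∀ a b, E a b → ν a b = ν b a)
    {x y : V × Bool} (h : ReflTransGen (Lift E ν) x y) : ReflTransGen (Lift E ν) y x := by
  induction h with
  | refl => exact .refl
  | tail _ hbc ih =>
    refine ReflTransGen.head ⟨hE _ _ hbc.1, ?_⟩ ih
    rw [hbc.2, ← hν _ _ hbc.1, Bool.xor_assoc, Bool.xor_self, Bool.xor_false]

theorem lift_of {a b : V} (h : ReflTransGen E a b) (s : Bool) :
    ∃ s', ReflTransGen (Lift E ν) (a, s) (b, s') := by
  induction h with
  | refl => exact ⟨s, .refl⟩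
  | @tail b c _ hbc ih =>
    obtain ⟨s', hs⟩ := ih
    exact ⟨xor s' (ν b c), hs.tail ⟨hbc, rfl⟩⟩

theorem of_lift {x y : V × Bool} (h : ReflTransGen (Lift E ν) x y) : ReflTransGen E x.1 y.1 := by
  induction h with
  | refl => exact .refl
  | tail _ hbc ih => exact ih.tail hbc.1

theorem oddW_of_reach (hE : ∀ a b, E a b → E b a) (hν : ∀ a b, E a b → ν a b = ν b a) {a b : V}
    (h : ReflTransGen E a b) (hb : OddW E ν b) : OddW E ν a := by
  obtain ⟨s, hs⟩ := lift_of (ν := ν) h false
  have h1 := lift_shift s hb
  have h2 := lift_shift true (lift_symm hE hν hs)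
  simp only [Bool.false_xor, Bool.true_xor, Bool.xor_true] at h1 h2
  exact hs.trans (h1.trans h2)

theorem potential_reach (p : V → Bool) (hp : ∀ a b, E a b → p b = xor (p a) (ν a b))
    {x y : V × Bool} (h : ReflTransGen (Lift E ν) x y) : xor y.2 (p y.1) = xor x.2 (p x.1) := by
  induction h with
  | refl => rfl
  | tail _ hbc ih =>
    rw [← ih, hbc.2, hp _ _ hbc.1]
    generalize ν _ _ = c
    generalize p _ = d
    rename_i b _ _
    generalize b.2 = e
    cases c <;> cases d <;> cases e <;> rfl

theorem not_odd_of_potential (p : V → Bool) (hp : ∀ a b, E a b → p b = xor (p a) (ν a b)) (v : V) :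
    ¬ OddW E ν v := by
  intro h
  have := potential_reach p hp h
  simp at this

theorem exists_potential (hE : ∀ a b, E a b → E b a) (hν : ∀ a b, E a b → ν a b = ν b a)
    (h : ∀ v, ¬ OddW E ν v) : ∃ p : V → Bool, ∀ a b, E a b → p b = xor (p a) (ν a b) := by
  classical
  -- representatives
  let s : Setoid V := ⟨ReflTransGen E, fun _ => .refl, fun {_ _} h => by
    induction h with
    | refl => exact .refl
    | tail _ hbc ih => exact ReflTransGen.head (hE _ _ hbc) ih, fun h1 h2 => h1.trans h2⟩
  let r : V → V := fun v => (Quotient.mk s v).out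
  have hr : ∀ v, ReflTransGen E (r v) v := fun v => Quotient.mk_out (s := s) v
  have hr2 : ∀ a b, E a b → r a = r b := by
    intro a b hab
    have : Quotient.mk s a = Quotient.mk s b := Quotient.sound (ReflTransGen.single hab)
    simp only [r, this]
  refine ⟨fun v => decide (ReflTransGen (Lift E ν) (r v, false) (v, true)), fun a b hab => ?_⟩
  -- exactly one of the two lifts is reachable
  have huniq : ∀ v s, ReflTransGen (Lift E ν) (r v, false) (v, s) →
      decide (ReflTransGen (Lift E ν) (r v, false) (v, true)) = s := by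
    intro v s hs
    cases s with
    | true => rw [decide_eq_true_iff]; exact hs
    | false =>
      rw [decide_eq_false_iff_not]
      intro ht
      apply h (r v)
      have h2 := lift_shift true (lift_symm hE hν hs)
      simp only [Bool.false_xor] at h2
      exact ht.trans h2
  obtain ⟨s, hs⟩ := lift_of (ν := ν) (hr a) false
  have h1 := huniq a s hs
  have h2 : ReflTransGen (Lift E ν) (r b, false) (b, xor s (ν a b)) := by
    rw [← hr2 a b hab]
    exact hs.tail ⟨hab, rfl⟩
  have h3 := huniq b _ h2
  simp only [h1, h3]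

end Pool.Agent.H719.PC
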