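import Pool.Agent.H719.PC.RedN

set_option autoImplicit false

/-!
# The reduction on lists of edges: correctness
-/

namespace Pool.Agent.H719.PC

open Pool.Agent.NPC Pool.Agent.NPC.R671 Pool.Agent.H692R2

theorem covers_iso {V W X : Type} {G : SimpleGraph V} {G' : SimpleGraph W} {H : SimpleGraph X}
    (e : V ≃ W) (he : ∀ a b, G.Adj a b ↔ G'.Adj (e a) (e b)) (h : Covers G' H) : Covers G H := by
  obtain ⟨f, h1, h2⟩ := h
  refine ⟨fun v => f (e v), fun a b hab => h1 _ _ ((he a b).1 hab), fun v => ?_⟩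
  refine ⟨?_, ?_, ?_⟩
  · rintro a (rfl | ha)
    · exact Or.inl rfl
    · exact (h2 (e v)).mapsTo (Or.inr ((he _ _).1 ha) : e a ∈ {a | a = e v ∨ G'.Adj (e v) a})
  · intro a ha b hb hab
    apply e.injective
    refine (h2 (e v)).injOn ?_ ?_ hab
    · rcases ha with rfl | ha
      · exact Or.inl rfl
      · exact Or.inr ((he _ _).1 ha)
    · rcases hb with rfl | hb
      · exact Or.inl rfl
      · exact Or.inr ((he _ _).1 hb)
  · intro b hb
    obtain ⟨a, ha, hab⟩ := (h2 (e v)).surjOn hb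
    refine ⟨e.symm a, ?_, ?_⟩
    · rcases ha with rfl | ha
      · exact Or.inl (by simp)
      · refine Or.inr ((he _ _).2 ?_)
        rw [e.apply_symm_apply]
        exact ha
    · simp only [e.apply_symm_apply]
      exact hab

/-- the data of a list of edges -/
def datE (E : List (ℕ × ℕ)) (hE : PrB E) : Dat where
  M := E.length
  hM := List.length_pos_iff.2 hE.1
  e1 s := ⟨(E[s]).1, by
    have := (hE.2 _ (List.getElem_mem s.2)).2.1
    simp only [Fin.getElem_fin]
    omega⟩
  e2 s := ⟨(E[s]).2, by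
    have := (hE.2 _ (List.getElem_mem s.2)).2.2
    simp only [Fin.getElem_fin]
    omega⟩
  h1 s := (hE.2 _ (List.getElem_mem s.2)).2.1
  h2 s := (hE.2 _ (List.getElem_mem s.2)).2.2
  hne s h := (hE.2 _ (List.getElem_mem s.2)).1 (congrArg Fin.val h)

theorem col_iff (E : List (ℕ × ℕ)) (hE : PrB E) : Col 3 E ↔
    ∃ c : Fin (3 * (datE E hE).M) → Fin 3, ∀ s, c ((datE E hE).e1 s) ≠ c ((datE E hE).e2 s) := by
  constructor
  · rintro ⟨c, hc⟩
    exact ⟨fun q => c q, fun s => hc _ (List.getElem_mem s.2)⟩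
  · rintro ⟨c, hc⟩
    refine ⟨fun n => if h : n < 3 * (datE E hE).M then c ⟨n, h⟩ else 0, fun e he => ?_⟩
    obtain ⟨s, hs, rfl⟩ := List.getElem_of_mem he
    have h1 := (hE.2 _ (List.getElem_mem hs)).2.1
    have h2 := (hE.2 _ (List.getElem_mem hs)).2.2
    have hM : (datE E hE).M = E.length := rfl
    have h3 : E[s].1 < 3 * (datE E hE).M := by rw [hM]; omega
    have h4 : E[s].2 < 3 * (datE E hE).M := by rw [hM]; omega
    simp only [dif_pos h3, dif_pos h4]
    exact hc ⟨s, hs⟩

section codes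

variable {D : Dat}

/-- code of a member of the system -/
def cU (x : D.U) : L4 := (x.1, x.2.1, x.2.2.1, x.2.2.2)

theorem cU_inj {x y : D.U} (h : cU x = cU y) : x = y := by
  unfold cU at h
  simp only [Prod.mk.injEq] at h
  obtain ⟨h1, h2, h3, h4⟩ := h
  exact Prod.ext (Fin.ext h1) (Prod.ext (Fin.ext h2) (Prod.ext (Fin.ext h3) (Fin.ext h4)))

/-- code of a vertex -/
def code : GV D.U D.sys.T → Lb
  | .u x => (0, cU x, 0)
  | .w x => (1, cU x, 0)
  | .t z => (2, cU z.1, 0)
  | .m x k => (3, cU x, k)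
  | .l x r => (4, cU x, r)

theorem code_inj : Function.Injective (code (D := D)) := by
  intro a b h
  cases a <;> cases b <;> simp only [code, Prod.mk.injEq] at h
  · rw [cU_inj h.2.1]
  · exact absurd h.1 (by norm_num)
  · exact absurd h.1 (by norm_num)
  · exact absurd h.1 (by norm_num)
  · exact absurd h.1 (by norm_num)
  · exact absurd h.1 (by norm_num)
  · rw [cU_inj h.2.1]
  · exact absurd h.1 (by norm_num)
  · exact absurd h.1 (by norm_num)
  · exact absurd h.1 (by norm_num)
  · exact absurd h.1 (by norm_num)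
  · exact absurd h.1 (by norm_num)
  · rw [Subtype.ext (cU_inj h.2.1)]
  · exact absurd h.1 (by norm_num)
  · exact absurd h.1 (by norm_num)
  · exact absurd h.1 (by norm_num)
  · exact absurd h.1 (by norm_num)
  · exact absurd h.1 (by norm_num)
  · rw [cU_inj h.2.1, Fin.ext h.2.2]
  · exact absurd h.1 (by norm_num)
  · exact absurd h.1 (by norm_num)
  · exact absurd h.1 (by norm_num)
  · exact absurd h.1 (by norm_num)
  · exact absurd h.1 (by norm_num)
  · rw [cU_inj h.2.1, Fin.ext h.2.2]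

end codes

section red

variable (E : List (ℕ × ℕ)) (hE : PrB E)

theorem sg_val : ∀ (k : Fin 3) (a : Fin 4), (sg k a : ℕ) = sgN k a := by decide

theorem neg_val : ∀ k : Fin 3, ((-k : Fin 3) : ℕ) = (3 - k) % 3 := by decide

theorem xr_val : ∀ a k : Fin 4, (xr a k : ℕ) = xrN a k := by decide

theorem used_iff (p : Fin (3 * (datE E hE).M)) (s : Fin (datE E hE).M) :
    usedN E p s = true ↔ (datE E hE).used p s := by
  unfold usedN Dat.used
  have hs : (s : ℕ) < E.length := s.2
  rw [Bool.or_eq_true, Bool.or_eq_true, decide_eq_true_iff, decide_eq_true_iff, decide_eq_true_iff,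
    List.getD_eq_getElem _ _ hs, Fin.ext_iff, Fin.ext_iff, Fin.ext_iff]
  rfl

theorem rep_code (x : (datE E hE).U) : repN E (cU x) = cU ((datE E hE).rep x) := by
  unfold repN
  have h1 : ((decide ((cU x).2.2.2 = 0) && usedN E (cU x).1 (cU x).2.2.1) = true) ↔
      (x.2.2.2 = 0 ∧ (datE E hE).used x.1 x.2.2.1) := by
    rw [Bool.and_eq_true, decide_eq_true_iff, ← used_iff]
    refine and_congr ?_ Iff.rfl
    change ((x.2.2.2 : Fin 4) : ℕ) = 0 ↔ x.2.2.2 = 0
    rw [Fin.ext_iff]
    rfl
  by_cases h : x.2.2.2 = 0 ∧ (datE E hE).used x.1 x.2.2.1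
  · rw [if_pos (h1.2 h), Dat.rep_used _ h]
    rfl
  · rw [if_neg (fun h' => h (h1.1 h')), Dat.rep_free _ h]
    unfold cU
    simp only [sg_val, neg_val]
    rfl

theorem phi_code (k : Fin 4) (x : (datE E hE).U) :
    phN E k (cU x) = cU ((datE E hE).phi k x) := by
  unfold phN cU Dat.phi
  simp only [xr_val]
  have h1 : ((k : ℕ) = 3) ↔ k = 3 := by
    rw [Fin.ext_iff]
    rfl
  by_cases h : k = 3
  · rw [if_pos (h1.2 h), if_pos h]
    rfl
  · rw [if_neg (fun h' => h (h1.1 h')), if_neg h]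

theorem mem_uL (y : L4) : y ∈ uL E ↔ ∃ x : (datE E hE).U, cU x = y := by
  obtain ⟨a, b, c, d⟩ := y
  unfold uL
  rw [List.mem_product, List.mem_product, List.mem_product, List.mem_range, List.mem_range,
    List.mem_range, List.mem_range]
  constructor
  · rintro ⟨h1, h2, h3, h4⟩
    exact ⟨(⟨a, h1⟩, ⟨b, h2⟩, ⟨c, h3⟩, ⟨d, h4⟩), rfl⟩
  · rintro ⟨x, hx⟩
    unfold cU at hx
    simp only [Prod.mk.injEq] at hx
    obtain ⟨rfl, rfl, rfl, rfl⟩ := hx
    exact ⟨x.1.2, x.2.1.2, x.2.2.1.2, x.2.2.2.2⟩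

theorem nodup_uL : (uL E).Nodup := by
  unfold uL
  exact List.nodup_range.product (List.nodup_range.product (List.nodup_range.product
    List.nodup_range))

theorem mem_vL (y : Lb) : y ∈ vL E ↔ ∃ v : GV (datE E hE).U (datE E hE).sys.T, code v = y := by
  unfold vL
  rw [List.mem_append, List.mem_append, List.mem_append, List.mem_append, List.mem_map,
    List.mem_map, List.mem_map, List.mem_map, List.mem_map]
  constructor
  · rintro (⟨x, hx, rfl⟩ | ⟨x, hx, rfl⟩ | ⟨x, hx, rfl⟩ | ⟨⟨x, k⟩, hx, rfl⟩ | ⟨⟨x, k⟩, hx, rfl⟩)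
    · obtain ⟨x, rfl⟩ := (mem_uL E hE x).1 hx
      exact ⟨.u x, rfl⟩
    · obtain ⟨x, rfl⟩ := (mem_uL E hE x).1 hx
      exact ⟨.w x, rfl⟩
    · rw [List.mem_filter, decide_eq_true_iff] at hx
      obtain ⟨x, rfl⟩ := (mem_uL E hE x).1 hx.1
      have h1 := hx.2
      rw [rep_code E hE] at h1
      exact ⟨.t ⟨x, cU_inj h1⟩, rfl⟩
    · rw [List.mem_product, List.mem_range] at hx
      obtain ⟨x, rfl⟩ := (mem_uL E hE x).1 hx.1
      exact ⟨.m x ⟨k, hx.2⟩, rfl⟩
    · rw [List.mem_product, List.mem_range] at hx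
      obtain ⟨x, rfl⟩ := (mem_uL E hE x).1 hx.1
      exact ⟨.l x ⟨k, hx.2⟩, rfl⟩
  · rintro ⟨v, rfl⟩
    cases v with
    | u x => exact Or.inl ⟨_, (mem_uL E hE _).2 ⟨x, rfl⟩, rfl⟩
    | w x => exact Or.inr (Or.inl ⟨_, (mem_uL E hE _).2 ⟨x, rfl⟩, rfl⟩)
    | t z =>
      refine Or.inr (Or.inr (Or.inl ⟨cU z.1, ?_, rfl⟩))
      rw [List.mem_filter, decide_eq_true_iff]
      refine ⟨(mem_uL E hE _).2 ⟨z.1, rfl⟩, ?_⟩
      rw [rep_code E hE]
      exact congrArg cU z.2
    | m x k =>
      refine Or.inr (Or.inr (Or.inr (Or.inl ⟨(cU x, (k : ℕ)), ?_, rfl⟩)))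
      rw [List.mem_product, List.mem_range]
      exact ⟨(mem_uL E hE _).2 ⟨x, rfl⟩, k.2⟩
    | l x r =>
      refine Or.inr (Or.inr (Or.inr (Or.inr ⟨(cU x, (r : ℕ)), ?_, rfl⟩)))
      rw [List.mem_product, List.mem_range]
      exact ⟨(mem_uL E hE _).2 ⟨x, rfl⟩, r.2⟩

theorem nodup_vL : (vL E).Nodup := by
  unfold vL
  have h0 := nodup_uL E
  have n1 : ((uL E).map (fun x => ((0, x, 0) : Lb))).Nodup :=
    h0.map (fun a b h => by simpa using h)
  have n2 : ((uL E).map (fun x => ((1, x, 0) : Lb))).Nodup :=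
    h0.map (fun a b h => by simpa using h)
  have n3 : (((uL E).filter (fun x => decide (repN E x = x))).map
      (fun x => ((2, x, 0) : Lb))).Nodup :=
    (h0.filter _).map (fun a b h => by simpa using h)
  have n4 : (((uL E) ×ˢ (List.range 4)).map (fun y => ((3, y.1, y.2) : Lb))).Nodup :=
    (h0.product List.nodup_range).map (fun a b h => by
      simp only [Prod.mk.injEq, true_and] at h
      exact Prod.ext h.1 h.2)
  have n5 : (((uL E) ×ˢ (List.range 6)).map (fun y => ((4, y.1, y.2) : Lb))).Nodup :=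
    (h0.product List.nodup_range).map (fun a b h => by
      simp only [Prod.mk.injEq, true_and] at h
      exact Prod.ext h.1 h.2)
  refine n1.append (n2.append (n3.append (n4.append n5 ?_) ?_) ?_) ?_
  · intro y hy hy'
    simp only [List.mem_map] at hy hy'
    obtain ⟨a, _, rfl⟩ := hy
    obtain ⟨b, _, hb⟩ := hy'
    simp at hb
  · intro y hy hy'
    simp only [List.mem_append, List.mem_map] at hy hy'
    obtain ⟨a, _, rfl⟩ := hy
    rcases hy' with ⟨b, _, hb⟩ | ⟨b, _, hb⟩ <;> simp at hb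
  · intro y hy hy'
    simp only [List.mem_append, List.mem_map] at hy hy'
    obtain ⟨a, _, rfl⟩ := hy
    rcases hy' with ⟨b, _, hb⟩ | ⟨b, _, hb⟩ | ⟨b, _, hb⟩ <;> simp at hb
  · intro y hy hy'
    simp only [List.mem_append, List.mem_map] at hy hy'
    obtain ⟨a, _, rfl⟩ := hy
    rcases hy' with ⟨b, _, hb⟩ | ⟨b, _, hb⟩ | ⟨b, _, hb⟩ | ⟨b, _, hb⟩ <;> simp at hb

theorem dir_code (a b : GV (datE E hE).U (datE E hE).sys.T) :
    adirN E (code a) (code b) = true ↔ (datE E hE).sys.dir a b := by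
  unfold adirN
  simp only [Bool.or_eq_true, Bool.and_eq_true, decide_eq_true_iff]
  constructor
  · cases a <;> cases b <;> simp only [code] <;> intro h <;>
      first
      | (exfalso; omega)
      | skip
    · rename_i x z
      refine .ut _ _ ?_
      have h1 : repN E (cU x) = cU z.1 := by
        rcases h with h | h | h | h
        · exact h.2.2
        · exact absurd h.2.1 (by norm_num)
        · exact absurd h.1 (by norm_num)
        · exact absurd h.1 (by norm_num)
      rw [rep_code E hE] at h1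
      exact cU_inj h1
    · rename_i x x' k
      have h1 : cU x = cU x' := by
        rcases h with h | h | h | h
        · exact absurd h.2.1 (by norm_num)
        · exact h.2.2
        · exact absurd h.1 (by norm_num)
        · exact absurd h.1 (by norm_num)
      rw [cU_inj h1]
      exact .um _ _
    · rename_i x k y
      have h1 : phN E k (cU x) = cU y := by
        rcases h with h | h | h | h
        · exact absurd h.1 (by norm_num)
        · exact absurd h.1 (by norm_num)
        · exact h.2.2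
        · exact absurd h.2.1 (by norm_num)
      rw [phi_code E hE] at h1
      rw [← cU_inj h1]
      exact .mw _ _
    · rename_i x k x' r
      have h1 : cU x = cU x' ∧ kk r = k := by
        rcases h with h | h | h | h
        · exact absurd h.1 (by norm_num)
        · exact absurd h.1 (by norm_num)
        · exact absurd h.2.1 (by norm_num)
        · exact h.2.2
      rw [cU_inj h1.1]
      exact .ml _ _ _ h1.2
  · rintro (⟨x, z, h⟩ | ⟨x, k⟩ | ⟨x, k⟩ | ⟨x, k, r, h⟩)
    · refine Or.inl ⟨rfl, rfl, ?_⟩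
      simp only [code]
      rw [rep_code E hE]
      exact congrArg cU h
    · exact Or.inr (Or.inl ⟨rfl, rfl, rfl⟩)
    · refine Or.inr (Or.inr (Or.inl ⟨rfl, rfl, ?_⟩))
      simp only [code]
      rw [phi_code E hE]
      rfl
    · exact Or.inr (Or.inr (Or.inr ⟨rfl, rfl, rfl, h⟩))

theorem adj_code (a b : GV (datE E hE).U (datE E hE).sys.T) :
    adN E (code a) (code b) = true ↔ (datE E hE).sys.graph.Adj a b := by
  unfold adN
  rw [Bool.or_eq_true, dir_code, dir_code]
  rfl

include hE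

theorem red_iff : Col 3 E ↔ Covers (redG E) HG := by
  rw [col_iff E hE, ← Dat.sol_iff_col, ← sys_covers]
  obtain ⟨e, he⟩ := exists_equiv (vL E) (nodup_vL E) (code (D := datE E hE)) code_inj
    (mem_vL E hE)
  have hadj : ∀ i j, (redG E).Adj i j ↔ (datE E hE).sys.graph.Adj (e i) (e j) := by
    intro i j
    rw [← adj_code, he, he]
    rfl
  constructor
  · exact covers_iso e hadj
  · refine covers_iso e.symm fun a b => ?_
    rw [hadj, e.apply_symm_apply, e.apply_symm_apply]

theorem vL_pos : 0 < (vL E).length := by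
  have h0 : (0 : ℕ) < E.length := List.length_pos_iff.2 hE.1
  apply List.length_pos_of_mem (a := ((0, (0, 0, 0, 0), 0) : Lb))
  rw [mem_vL E hE]
  exact ⟨.u (⟨0, by change 0 < 3 * E.length; omega⟩, 0, ⟨0, h0⟩, 0), rfl⟩

end red

end Pool.Agent.H719.PC
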