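import Pool.Agent.H719.PC.RedSys
import Pool.Agent.H671R2.PolyAuto

set_option autoImplicit false

/-!
# The reduction on lists of edges: polynomial time
-/

namespace Pool.Agent.H719.PC

open Pool.Agent.NPC Pool.Agent.NPC.R671

/-- codes of the members of a system -/
abbrev L4 : Type := ℕ × ℕ × ℕ × ℕ

/-- codes of vertices -/
abbrev Lb : Type := ℕ × L4 × ℕ

/-- the permutations -/
def sgN (k a : ℕ) : ℕ := [0, 1, 2, 3, 0, 3, 1, 2, 0, 2, 3, 1].getD (4 * k + a) 0

/-- addition of colours -/
def xrN (a k : ℕ) : ℕ := [0, 1, 2, 3, 1, 0, 3, 2, 2, 3, 0, 1, 3, 2, 1, 0].getD (4 * a + k) 0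

/-- `p` is used in the slot `s` -/
def usedN (E : List (ℕ × ℕ)) (p s : ℕ) : Bool :=
  decide (p = (E.getD s (0, 0)).1) || (decide (p = (E.getD s (0, 0)).2) ||
    decide (p = 2 * E.length + s))

/-- representatives -/
def repN (E : List (ℕ × ℕ)) (x : L4) : L4 :=
  if (decide (x.2.2.2 = 0) && usedN E x.1 x.2.2.1) = true then
    (2 * E.length + x.2.2.1, x.2.1, x.2.2.1, 0)
  else (x.1, 0, x.2.2.1, sgN ((3 - x.2.1) % 3) x.2.2.2)

/-- cyclic successor -/
def sucN (E : List (ℕ × ℕ)) (s : ℕ) : ℕ := if s + 1 = E.length then 0 else s + 1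

/-- edges of colour `k` -/
def phN (E : List (ℕ × ℕ)) (k : ℕ) (x : L4) : L4 :=
  (x.1, x.2.1, if k = 3 then sucN E x.2.2.1 else x.2.2.1, xrN x.2.2.2 k)

/-- the members of the system -/
def uL (E : List (ℕ × ℕ)) : List L4 :=
  (List.range (3 * E.length)) ×ˢ ((List.range 3) ×ˢ ((List.range E.length) ×ˢ (List.range 4)))

/-- the vertices -/
def vL (E : List (ℕ × ℕ)) : List Lb :=
  (uL E).map (fun x => (0, x, 0)) ++ ((uL E).map (fun x => (1, x, 0)) ++
    (((uL E).filter (fun x => decide (repN E x = x))).map (fun x => (2, x, 0)) ++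
      (((uL E) ×ˢ (List.range 4)).map (fun y => (3, y.1, y.2)) ++
        ((uL E) ×ˢ (List.range 6)).map (fun y => (4, y.1, y.2)))))

/-- the edges, each in one direction -/
def adirN (E : List (ℕ × ℕ)) (a b : Lb) : Bool :=
  (decide (a.1 = 0) && (decide (b.1 = 2) && decide (repN E a.2.1 = b.2.1))) ||
  ((decide (a.1 = 0) && (decide (b.1 = 3) && decide (a.2.1 = b.2.1))) ||
  ((decide (a.1 = 3) && (decide (b.1 = 1) && decide (phN E a.2.2 a.2.1 = b.2.1))) ||
  (decide (a.1 = 3) && (decide (b.1 = 4) && (decide (a.2.1 = b.2.1) &&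
    decide (kk b.2.2 = a.2.2))))))

/-- the edges -/
def adN (E : List (ℕ × ℕ)) (a b : Lb) : Bool := adirN E a b || adirN E b a

theorem adN_symm (E : List (ℕ × ℕ)) (a b : Lb) : adN E a b = adN E b a := by
  unfold adN
  rw [Bool.or_comm]

theorem adN_irrefl (E : List (ℕ × ℕ)) (a : Lb) : adN E a a = false := by
  have h : adirN E a a = false := by
    unfold adirN
    simp only [Bool.or_eq_false_iff, Bool.and_eq_false_iff, decide_eq_false_iff_not]
    omega
  unfold adN
  rw [h]
  rfl

/-- the graph of the reduction -/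
def redG (E : List (ℕ × ℕ)) : SimpleGraph (Fin (vL E).length) :=
  listGraph (vL E) (adN E) (adN_symm E) (adN_irrefl E)

section poly

variable {α : Type} [TEnc α]

theorem sgN_poly {k a : α → ℕ} (hk : Poly k) (ha : Poly a) : Poly (fun x => sgN (k x) (a x)) := by
  unfold sgN
  fun_prop

theorem xrN_poly {k a : α → ℕ} (hk : Poly k) (ha : Poly a) : Poly (fun x => xrN (k x) (a x)) := by
  unfold xrN
  fun_prop

theorem usedN_poly {E : α → List (ℕ × ℕ)} {p s : α → ℕ} (hE : Poly E) (hp : Poly p)
    (hs : Poly s) : Poly (fun x => usedN (E x) (p x) (s x)) := by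
  unfold usedN
  fun_prop

theorem sucN_poly {E : α → List (ℕ × ℕ)} {s : α → ℕ} (hE : Poly E)
    (hs : Poly s) : Poly (fun x => sucN (E x) (s x)) := by
  unfold sucN
  fun_prop

theorem kk_poly {r : α → ℕ} (hr : Poly r) : Poly (fun x => kk (r x)) := by
  unfold kk
  fun_prop

attribute [fun_prop] sgN_poly xrN_poly usedN_poly sucN_poly kk_poly
attribute [local irreducible] sgN xrN usedN sucN kk

theorem repN_poly {E : α → List (ℕ × ℕ)} {x : α → L4} (hE : Poly E) (hx : Poly x) :
    Poly (fun y => repN (E y) (x y)) := by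
  unfold repN
  fun_prop

theorem phN_poly {E : α → List (ℕ × ℕ)} {k : α → ℕ} {x : α → L4} (hE : Poly E) (hk : Poly k)
    (hx : Poly x) : Poly (fun y => phN (E y) (k y) (x y)) := by
  unfold phN
  fun_prop

attribute [fun_prop] repN_poly phN_poly
attribute [local irreducible] repN phN

theorem uL_poly : Poly uL := by
  unfold uL
  have h1 : Poly (fun E : List (ℕ × ℕ) => List.range (3 * E.length)) :=
    (UPoly.mul (UPoly.const 3) (UPoly.length NPC.Poly.id)).range
  have h2 : Poly (fun E : List (ℕ × ℕ) => List.range E.length) :=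
    (UPoly.length NPC.Poly.id).range
  have h3 : Poly (fun _ : List (ℕ × ℕ) => List.range 3) := NPC.Poly.const _
  have h4 : Poly (fun _ : List (ℕ × ℕ) => List.range 4) := NPC.Poly.const _
  exact poly_product h1 (poly_product h3 (poly_product h2 h4))

theorem uL_poly' {E : α → List (ℕ × ℕ)} (hE : Poly E) : Poly (fun x => uL (E x)) :=
  uL_poly.comp hE

attribute [fun_prop] uL_poly'
attribute [local irreducible] uL

theorem vL_poly {E : α → List (ℕ × ℕ)} (hE : Poly E) : Poly (fun x => vL (E x)) := by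
  unfold vL
  fun_prop

theorem adirN_poly {E : α → List (ℕ × ℕ)} {a b : α → Lb} (hE : Poly E) (ha : Poly a)
    (hb : Poly b) : Poly (fun x => adirN (E x) (a x) (b x)) := by
  unfold adirN
  fun_prop

attribute [fun_prop] vL_poly adirN_poly
attribute [local irreducible] vL adirN

theorem adN_poly {E : α → List (ℕ × ℕ)} {a b : α → Lb} (hE : Poly E) (ha : Poly a)
    (hb : Poly b) : Poly (fun x => adN (E x) (a x) (b x)) := by
  unfold adN
  fun_prop

attribute [fun_prop] adN_poly
attribute [local irreducible] adN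

theorem redG_poly : Poly (fun E : List (ℕ × ℕ) => adjMatrix (redG E)) := by
  have h1 : Poly (fun E : List (ℕ × ℕ) => (vL E).map (fun u => (vL E).map (fun w =>
      adN E u w))) := by
    fun_prop
  exact h1.congr fun E => (adjMatrix_listGraph _ _ _ _).symm

end poly

end Pool.Agent.H719.PC
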