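import Pool.Agent.H719.PC.Sys

set_option autoImplicit false

/-!
# The system of a list of edges
-/

namespace Pool.Agent.H719.PC

/-- the linear maps which permute the three functions of the colours -/
def sg (k : Fin 3) (a : Fin 4) : Fin 4 :=
  if k = 0 then a
  else if k = 1 then (if a = 0 then 0 else if a = 1 then 3 else if a = 2 then 1 else 2)
  else (if a = 0 then 0 else if a = 1 then 2 else if a = 2 then 3 else 1)

/-- addition of colours -/
def xr (a k : Fin 4) : Fin 4 :=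
  (![![0, 1, 2, 3], ![1, 0, 3, 2], ![2, 3, 0, 1], ![3, 2, 1, 0]] : Fin 4 → Fin 4 → Fin 4) a k

theorem sg_eq_zero : ∀ (k : Fin 3) (a : Fin 4), sg k a = 0 ↔ a = 0 := by decide
theorem sg_inv1 : ∀ (k : Fin 3) (a : Fin 4), sg k (sg (-k) a) = a := by decide
theorem sg_inv2 : ∀ (k : Fin 3) (a : Fin 4), sg (-k) (sg k a) = a := by decide
theorem sg_zero : ∀ a : Fin 4, sg 0 a = a := by decide
theorem xn_sg : ∀ (c k : Fin 3) (a : Fin 4), xn ((c + k : Fin 3) : ℕ) a = xn c (sg (-k) a) := by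
  decide
theorem xn_xr : ∀ (i : Fin 3) (a k : Fin 4), xn i (xr a k) = xor (xn i a) (xn i k) := by decide
theorem xn_zero : ∀ i : Fin 3, xn i 0 = false := by decide
theorem xr_inj : ∀ a b k : Fin 4, xr a k = xr b k → a = b := by decide
theorem xr_zero : ∀ a : Fin 4, xr a 0 = a := by decide
theorem xr_conn : ∀ a b : Fin 4, ∃ k l : Fin 4, k ≠ 3 ∧ l ≠ 3 ∧ xr a k = xr b l := by decide
theorem third_ne : ∀ a b : Fin 3, a ≠ b → -(a + b) ≠ a ∧ -(a + b) ≠ b := by decide
theorem add_right_ne : ∀ c k l : Fin 3, k ≠ l → c + k ≠ c + l := by decide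
theorem add_left_ne : ∀ c d k : Fin 3, c ≠ d → c + k ≠ d + k := by decide

/-- the data of the reduction -/
structure Dat where
  M : ℕ
  hM : 0 < M
  e1 : Fin M → Fin (3 * M)
  e2 : Fin M → Fin (3 * M)
  h1 : ∀ s, (e1 s : ℕ) < 2 * M
  h2 : ∀ s, (e2 s : ℕ) < 2 * M
  hne : ∀ s, e1 s ≠ e2 s

namespace Dat

variable (D : Dat)

/-- the vertices -/
abbrev U : Type := Fin (3 * D.M) × Fin 3 × Fin D.M × Fin 4

/-- the dummy variable of an edge -/
def dm (s : Fin D.M) : Fin (3 * D.M) := ⟨2 * D.M + s, by omega⟩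

/-- cyclic successor -/
def suc (s : Fin D.M) : Fin D.M := ⟨if (s : ℕ) + 1 = D.M then 0 else s + 1, by
  split_ifs
  · exact D.hM
  · omega⟩

theorem suc_inj : Function.Injective D.suc := by
  intro s t h
  unfold suc at h
  rw [Fin.mk.injEq] at h
  split_ifs at h <;> apply Fin.ext <;> omega

/-- the variable `p` is used in the slot `s` -/
def used (p : Fin (3 * D.M)) (s : Fin D.M) : Prop := p = D.e1 s ∨ p = D.e2 s ∨ p = D.dm s

instance (p : Fin (3 * D.M)) (s : Fin D.M) : Decidable (D.used p s) := by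
  unfold used; infer_instance

theorem e1_ne_dm (s t : Fin D.M) : D.e1 s ≠ D.dm t := by
  intro h
  have h1 := congrArg Fin.val h
  have h2 := D.h1 s
  simp only [dm] at h1
  omega

theorem e2_ne_dm (s t : Fin D.M) : D.e2 s ≠ D.dm t := by
  intro h
  have h1 := congrArg Fin.val h
  have h2 := D.h2 s
  simp only [dm] at h1
  omega

theorem dm_inj {s t : Fin D.M} (h : D.dm s = D.dm t) : s = t := by
  have h1 := congrArg Fin.val h
  simp only [dm] at h1
  exact Fin.ext (by omega)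

theorem used_dm (s : Fin D.M) : D.used (D.dm s) s := Or.inr (Or.inr rfl)

/-- the edges of colour `k` -/
def phi (k : Fin 4) (x : D.U) : D.U :=
  (x.1, x.2.1, if k = 3 then D.suc x.2.2.1 else x.2.2.1, xr x.2.2.2 k)

/-- the representatives -/
def rep (x : D.U) : D.U :=
  if x.2.2.2 = 0 ∧ D.used x.1 x.2.2.1 then (D.dm x.2.2.1, x.2.1, x.2.2.1, 0)
  else (x.1, 0, x.2.2.1, sg (-x.2.1) x.2.2.2)

/-- the classes -/
def cls (x : D.U) (j : Fin 3) : D.U :=
  if x.2.2.2 = 0 ∧ D.used x.1 x.2.2.1 then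
    (if j = 0 then D.e1 x.2.2.1 else if j = 1 then D.e2 x.2.2.1 else D.dm x.2.2.1,
      x.2.1, x.2.2.1, 0)
  else (x.1, j, x.2.2.1, sg j x.2.2.2)

theorem phi_bij (k : Fin 4) : Function.Bijective (D.phi k) := by
  rw [← Finite.injective_iff_bijective]
  rintro ⟨p, κ, s, a⟩ ⟨p', κ', s', a'⟩ h
  simp only [phi, Prod.mk.injEq] at h
  obtain ⟨h1, h2, h3, h4⟩ := h
  have h5 := xr_inj _ _ _ h4
  have h6 : s = s' := by
    split_ifs at h3
    · exact D.suc_inj h3
    · exact h3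
  rw [h1, h2, h5, h6]

theorem rep_used {x : D.U} (h : x.2.2.2 = 0 ∧ D.used x.1 x.2.2.1) :
    D.rep x = (D.dm x.2.2.1, x.2.1, x.2.2.1, 0) := by
  unfold rep
  rw [if_pos h]

theorem rep_free {x : D.U} (h : ¬ (x.2.2.2 = 0 ∧ D.used x.1 x.2.2.1)) :
    D.rep x = (x.1, 0, x.2.2.1, sg (-x.2.1) x.2.2.2) := by
  unfold rep
  rw [if_neg h]

theorem cls_used {x : D.U} (h : x.2.2.2 = 0 ∧ D.used x.1 x.2.2.1) (j : Fin 3) :
    D.cls x j = (if j = 0 then D.e1 x.2.2.1 else if j = 1 then D.e2 x.2.2.1 else D.dm x.2.2.1,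
      x.2.1, x.2.2.1, 0) := by
  unfold cls
  rw [if_pos h]

theorem cls_free {x : D.U} (h : ¬ (x.2.2.2 = 0 ∧ D.used x.1 x.2.2.1)) (j : Fin 3) :
    D.cls x j = (x.1, j, x.2.2.1, sg j x.2.2.2) := by
  unfold cls
  rw [if_neg h]

theorem rep_rep (x : D.U) : D.rep (D.rep x) = D.rep x := by
  by_cases h : x.2.2.2 = 0 ∧ D.used x.1 x.2.2.1
  · rw [D.rep_used h, D.rep_used ⟨rfl, D.used_dm _⟩]
  · rw [D.rep_free h, D.rep_free]
    · simp only [neg_zero, sg_zero]
    · rintro ⟨h1, h2⟩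
      exact h ⟨(sg_eq_zero _ _).1 h1, h2⟩

theorem cls_inj (z : D.U) : Function.Injective (D.cls z) := by
  intro j l h
  unfold cls at h
  by_cases hz : z.2.2.2 = 0 ∧ D.used z.1 z.2.2.1
  · rw [if_pos hz, if_pos hz, Prod.mk.injEq] at h
    have h1 := h.1
    have n1 := D.hne z.2.2.1
    have n2 := D.e1_ne_dm z.2.2.1 z.2.2.1
    have n3 := D.e2_ne_dm z.2.2.1 z.2.2.1
    fin_cases j <;> fin_cases l <;> simp at h1 ⊢
    · exact n1 h1
    · exact n2 h1
    · exact n1 h1.symm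
    · exact n3 h1
    · exact n2 h1.symm
    · exact n3 h1.symm
  · rw [if_neg hz, if_neg hz] at h
    simp only [Prod.mk.injEq] at h
    exact h.2.1

theorem cls_rep (z : D.U) (hz : D.rep z = z) (x : D.U) : D.rep x = z ↔ ∃ j, D.cls z j = x := by
  by_cases hu : z.2.2.2 = 0 ∧ D.used z.1 z.2.2.1
  · rw [D.rep_used hu] at hz
    obtain ⟨p, κ, s, a⟩ := z
    simp only [Prod.mk.injEq, true_and] at hz
    obtain ⟨rfl, rfl⟩ := hz
    simp only [D.cls_used hu]
    constructor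
    · intro hx
      by_cases hux : x.2.2.2 = 0 ∧ D.used x.1 x.2.2.1
      · rw [D.rep_used hux] at hx
        obtain ⟨p', κ', s', a'⟩ := x
        simp only [Prod.mk.injEq, and_true] at hx
        obtain ⟨_, rfl, rfl⟩ := hx
        simp only at hux
        obtain ⟨rfl, h1 | h1 | h1⟩ := hux
        · exact ⟨0, by rw [h1]; rfl⟩
        · exact ⟨1, by rw [h1]; rfl⟩
        · exact ⟨2, by rw [h1]; rfl⟩
      · exfalso
        rw [D.rep_free hux] at hx
        simp only [Prod.mk.injEq] at hx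
        obtain ⟨h1, _, h3, h4⟩ := hx
        refine hux ⟨(sg_eq_zero _ _).1 h4, ?_⟩
        rw [h1, h3]
        exact D.used_dm _
    · rintro ⟨j, rfl⟩
      rw [D.rep_used]
      refine ⟨rfl, ?_⟩
      simp only
      unfold used
      fin_cases j <;> simp
  · rw [D.rep_free hu] at hz
    obtain ⟨p, κ, s, a⟩ := z
    simp only [Prod.mk.injEq, true_and] at hz
    obtain ⟨rfl, _⟩ := hz
    simp only [D.cls_free hu]
    simp only at hu
    constructor
    · intro hx
      by_cases hux : x.2.2.2 = 0 ∧ D.used x.1 x.2.2.1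
      · exfalso
        rw [D.rep_used hux] at hx
        simp only [Prod.mk.injEq] at hx
        obtain ⟨h1, _, h3, h4⟩ := hx
        refine hu ⟨h4.symm, ?_⟩
        rw [← h1, ← h3]
        exact D.used_dm _
      · rw [D.rep_free hux] at hx
        obtain ⟨p', κ', s', a'⟩ := x
        simp only [Prod.mk.injEq, true_and] at hx
        obtain ⟨rfl, rfl, rfl⟩ := hx
        refine ⟨κ', ?_⟩
        rw [sg_inv1]
    · rintro ⟨j, rfl⟩
      rw [D.rep_free]
      · simp only [sg_inv2]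
      · rintro ⟨h1, h2⟩
        exact hu ⟨(sg_eq_zero _ _).1 h1, h2⟩

/-- the system -/
def sys : Sys D.U where
  φ := D.phi
  hφ := D.phi_bij
  rep := D.rep
  hrep := D.rep_rep
  g := D.cls
  g_inj z _ := D.cls_inj z
  g_rep := D.cls_rep

theorem sol_of_col (c : Fin (3 * D.M) → Fin 3) (hc : ∀ s, c (D.e1 s) ≠ c (D.e2 s)) :
    D.sys.Sol := by
  -- extension to the dummy variables
  obtain ⟨χ, x1, x2, x3⟩ : ∃ χ : Fin (3 * D.M) → Fin 3, (∀ s, χ (D.e1 s) = c (D.e1 s)) ∧
      (∀ s, χ (D.e2 s) = c (D.e2 s)) ∧ ∀ s, χ (D.dm s) = -(c (D.e1 s) + c (D.e2 s)) := by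
    refine ⟨fun p => if h : (p : ℕ) < 2 * D.M then c p else
      -(c (D.e1 ⟨p - 2 * D.M, by omega⟩) + c (D.e2 ⟨p - 2 * D.M, by omega⟩)), ?_, ?_, ?_⟩
    · intro s
      simp only [dif_pos (D.h1 s)]
    · intro s
      simp only [dif_pos (D.h2 s)]
    · intro s
      have h1 : ¬ ((D.dm s : ℕ) < 2 * D.M) := by
        simp only [dm]; omega
      simp only [dif_neg h1]
      have h2 : ∀ h, (⟨(D.dm s : ℕ) - 2 * D.M, h⟩ : Fin D.M) = s := by
        intro h
        apply Fin.ext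
        simp only [dm]
        omega
      rw [h2]
  have hχ : ∀ p p' s, D.used p s → D.used p' s → p ≠ p' → χ p ≠ χ p' := by
    intro p p' s hp hp' hne
    have t := third_ne _ _ (hc s)
    rcases hp with rfl | rfl | rfl <;> rcases hp' with rfl | rfl | rfl
    · exact absurd rfl hne
    · rw [x1, x2]; exact hc s
    · rw [x1, x3]; exact t.1.symm
    · rw [x1, x2]; exact (hc s).symm
    · exact absurd rfl hne
    · rw [x2, x3]; exact t.2.symm
    · rw [x1, x3]; exact t.1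
    · rw [x2, x3]; exact t.2
    · exact absurd rfl hne
  refine ⟨fun x => χ x.1 + x.2.1, fun x => χ x.1 + x.2.1, fun x => xn (χ x.1 + x.2.1 : Fin 3) x.2.2.2,
    fun x => xn (χ x.1 + x.2.1 : Fin 3) x.2.2.2, ?_, ?_⟩
  · intro k x
    exact ⟨rfl, xn_xr _ _ _⟩
  · intro x x' h
    change D.rep x = D.rep x' at h
    by_cases hx : x.2.2.2 = 0 ∧ D.used x.1 x.2.2.1
    · by_cases hx' : x'.2.2.2 = 0 ∧ D.used x'.1 x'.2.2.1
      · rw [D.rep_used hx, D.rep_used hx'] at h
        obtain ⟨p, κ, s, a⟩ := x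
        obtain ⟨p', κ', s', a'⟩ := x'
        simp only [Prod.mk.injEq, and_true] at h hx hx'
        obtain ⟨_, rfl, rfl⟩ := h
        obtain ⟨rfl, hp⟩ := hx
        obtain ⟨rfl, hp'⟩ := hx'
        refine ⟨?_, fun hne => ?_⟩
        · simp only [Fin.val_zero]
          rw [xn_zero, xn_zero]
        · refine add_left_ne _ _ _ (hχ p p' s hp hp' ?_)
          rintro rfl
          exact hne rfl
      · exfalso
        rw [D.rep_used hx, D.rep_free hx'] at h
        simp only [Prod.mk.injEq] at h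
        obtain ⟨h1, _, h3, h4⟩ := h
        refine hx' ⟨(sg_eq_zero _ _).1 h4.symm, ?_⟩
        rw [← h1, ← h3]
        exact D.used_dm _
    · by_cases hx' : x'.2.2.2 = 0 ∧ D.used x'.1 x'.2.2.1
      · exfalso
        rw [D.rep_free hx, D.rep_used hx'] at h
        simp only [Prod.mk.injEq] at h
        obtain ⟨h1, _, h3, h4⟩ := h
        refine hx ⟨(sg_eq_zero _ _).1 h4, ?_⟩
        rw [h1, h3]
        exact D.used_dm _
      · rw [D.rep_free hx, D.rep_free hx'] at h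
        obtain ⟨p, κ, s, a⟩ := x
        obtain ⟨p', κ', s', a'⟩ := x'
        simp only [Prod.mk.injEq, true_and] at h
        obtain ⟨rfl, rfl, h3⟩ := h
        refine ⟨?_, fun hne => ?_⟩
        · simp only
          rw [xn_sg, xn_sg, h3]
        · simp only
          refine add_right_ne _ _ _ ?_
          rintro rfl
          apply hne
          have h4 := congrArg (sg κ) h3
          rw [sg_inv1, sg_inv1] at h4
          rw [h4]

theorem col_of_sol (h : D.sys.Sol) :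
    ∃ c : Fin (3 * D.M) → Fin 3, ∀ s, c (D.e1 s) ≠ c (D.e2 s) := by
  obtain ⟨i, iw, p, pw, h1, h2⟩ := h
  have step : ∀ x x' k k', D.phi k x = D.phi k' x' → i x = i x' := by
    intro x x' k k' he
    rw [← (h1 k x).1, ← (h1 k' x').1]
    change iw (D.phi k x) = iw (D.phi k' x')
    rw [he]
  have c1 : ∀ q κ s a a', i (q, κ, s, a) = i (q, κ, s, a') := by
    intro q κ s a a'
    obtain ⟨k, l, hk, hl, hkl⟩ := xr_conn a a'
    refine step _ _ k l ?_
    unfold phi
    simp only [if_neg hk, if_neg hl, hkl]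
  have c2 : ∀ q κ s a a', i (q, κ, s, a) = i (q, κ, D.suc s, a') := by
    intro q κ s a a'
    rw [c1 q κ (D.suc s) a' (xr a 3)]
    refine step _ _ 3 0 ?_
    unfold phi
    simp only [if_true, if_neg (show ¬ ((0 : Fin 4) = 3) by decide), xr_zero]
  have c3 : ∀ q κ (n : ℕ) (hn : n < D.M), i (q, κ, ⟨n, hn⟩, 0) = i (q, κ, ⟨0, D.hM⟩, 0) := by
    intro q κ n
    induction n with
    | zero => intro _; rfl
    | succ n ih =>
      intro hn
      rw [← ih (by omega), c2 q κ ⟨n, by omega⟩ 0 0]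
      have : D.suc ⟨n, by omega⟩ = ⟨n + 1, hn⟩ := by
        unfold suc
        rw [Fin.mk.injEq, if_neg (by simp only; omega)]
      rw [this]
  refine ⟨fun q => i (q, 0, ⟨0, D.hM⟩, 0), fun s => ?_⟩
  simp only
  rw [← c3 (D.e1 s) 0 s s.2, ← c3 (D.e2 s) 0 s s.2]
  refine (h2 (D.e1 s, 0, s, 0) (D.e2 s, 0, s, 0) ?_).2 ?_
  · change D.rep (D.e1 s, 0, s, 0) = D.rep (D.e2 s, 0, s, 0)
    rw [D.rep_used ⟨rfl, Or.inl rfl⟩, D.rep_used ⟨rfl, Or.inr (Or.inl rfl)⟩]
  · intro he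
    rw [Prod.mk.injEq] at he
    exact D.hne s he.1

theorem sol_iff_col : D.sys.Sol ↔ ∃ c : Fin (3 * D.M) → Fin 3, ∀ s, c (D.e1 s) ≠ c (D.e2 s) :=
  ⟨D.col_of_sol, fun ⟨c, hc⟩ => D.sol_of_col c hc⟩

end Dat

end Pool.Agent.H719.PC
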