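import Pool.Agent.H719.PC.ThmA2

set_option autoImplicit false

/-!
# Graphs of systems
-/

namespace Pool.Agent.H719.PC

/-- A system: four bijections `φ k` (the edges of colour `k`) and a choice of representatives of
classes with three elements. -/
structure Sys (U : Type) where
  φ : Fin 4 → U → U
  hφ : ∀ k, Function.Bijective (φ k)
  rep : U → U
  hrep : ∀ x, rep (rep x) = rep x
  g : U → Fin 3 → U
  g_inj : ∀ z, rep z = z → Function.Injective (g z)
  g_rep : ∀ z, rep z = z → ∀ x, rep x = z ↔ ∃ j, g z j = x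

/-- the vertices of the graph of a system -/
inductive GV (U T : Type) : Type
  | u (x : U)
  | w (x : U)
  | t (z : T)
  | m (x : U) (k : Fin 4)
  | l (x : U) (r : Fin 6)
  deriving Fintype

variable {U : Type} (S : Sys U)

/-- the representatives -/
abbrev Sys.T : Type := {z : U // S.rep z = z}

/-- the edges, each in one direction -/
inductive Sys.dir : GV U S.T → GV U S.T → Prop
  | ut (x : U) (z : S.T) (h : S.rep x = z.1) : Sys.dir (.u x) (.t z)
  | um (x : U) (k : Fin 4) : Sys.dir (.u x) (.m x k)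
  | mw (x : U) (k : Fin 4) : Sys.dir (.m x k) (.w (S.φ k x))
  | ml (x : U) (k : Fin 4) (r : Fin 6) (h : kk r = k) : Sys.dir (.m x k) (.l x r)

/-- the graph of a system -/
def Sys.graph : SimpleGraph (GV U S.T) where
  Adj a b := S.dir a b ∨ S.dir b a
  symm := ⟨fun _ _ h => Or.symm h⟩
  loopless := ⟨fun a h => by rcases h with h | h <;> cases h⟩

section enum

variable {V : Type} [Fintype V] {G : SimpleGraph V}

open Classical in
theorem dg_of_enum {ι : Type} [Fintype ι] {v : V} (e : ι → V) (he : Function.Injective e)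
    (h : ∀ a, G.Adj v a ↔ ∃ i, e i = a) : dg G v = Fintype.card ι := by
  unfold dg
  rw [← Finset.card_univ, ← Finset.card_image_of_injective _ he]
  congr 1
  ext a
  simp [h]

open Classical in
theorem lf_of_enum {ι : Type} [Fintype ι] {v : V} (e : ι → V) (he : Function.Injective e)
    (h : ∀ a, (G.Adj v a ∧ dg G a = 1) ↔ ∃ i, e i = a) : lf G v = Fintype.card ι := by
  unfold lf
  rw [← Finset.card_univ, ← Finset.card_image_of_injective _ he]
  congr 1
  ext a
  simp [h]

end enum

section adj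

variable {S}

theorem adj_u {x : U} {a : GV U S.T} : S.graph.Adj (.u x) a ↔
    a = .t ⟨S.rep x, S.hrep x⟩ ∨ ∃ k, a = .m x k := by
  constructor
  · rintro (h | h)
    · cases h with
      | ut _ z h => exact Or.inl (by rw [GV.t.injEq]; exact Subtype.ext h.symm)
      | um _ k => exact Or.inr ⟨k, rfl⟩
    · cases h
  · rintro (rfl | ⟨k, rfl⟩)
    · exact Or.inl (.ut _ _ rfl)
    · exact Or.inl (.um _ _)

theorem adj_w {y : U} {a : GV U S.T} : S.graph.Adj (.w y) a ↔
    ∃ k x, S.φ k x = y ∧ a = .m x k := by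
  constructor
  · rintro (h | h)
    · cases h
    · cases h with
      | mw x k => exact ⟨k, x, rfl, rfl⟩
  · rintro ⟨k, x, rfl, rfl⟩
    exact Or.inr (.mw _ _)

theorem adj_t {z : S.T} {a : GV U S.T} : S.graph.Adj (.t z) a ↔ ∃ x, S.rep x = z.1 ∧ a = .u x := by
  constructor
  · rintro (h | h)
    · cases h
    · cases h with
      | ut x _ h => exact ⟨x, h, rfl⟩
  · rintro ⟨x, h, rfl⟩
    exact Or.inr (.ut _ _ h)

theorem adj_m {x : U} {k : Fin 4} {a : GV U S.T} : S.graph.Adj (.m x k) a ↔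
    a = .u x ∨ a = .w (S.φ k x) ∨ ∃ r : Fin 6, kk r = k ∧ a = .l x r := by
  constructor
  · rintro (h | h)
    · cases h with
      | mw _ _ => exact Or.inr (Or.inl rfl)
      | ml _ _ r h => exact Or.inr (Or.inr ⟨r, h, rfl⟩)
    · cases h with
      | um _ _ => exact Or.inl rfl
  · rintro (rfl | rfl | ⟨r, h, rfl⟩)
    · exact Or.inr (.um _ _)
    · exact Or.inl (.mw _ _)
    · exact Or.inl (.ml _ _ _ h)

theorem kk_lt (r : Fin 6) : kk r < 4 := by
  have : ∀ r : Fin 6, kk r < 4 := by decide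
  exact this r

theorem kk_pos (r : Fin 6) : 1 ≤ kk r := by
  have : ∀ r : Fin 6, 1 ≤ kk r := by decide
  exact this r

theorem adj_l {x : U} {r : Fin 6} {a : GV U S.T} : S.graph.Adj (.l x r) a ↔
    a = .m x ⟨kk r, kk_lt r⟩ := by
  constructor
  · rintro (h | h)
    · cases h
    · cases h with
      | ml _ k _ h =>
        rw [GV.m.injEq]
        exact ⟨rfl, Fin.ext h.symm⟩
  · rintro rfl
    exact Or.inr (.ml _ _ _ rfl)

end adj

section kinds

variable {S} [Fintype U] [Fintype S.T]

theorem sdg_u (x : U) : dg S.graph (.u x) = 5 := by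
  rw [dg_of_enum (ι := Option (Fin 4)) (fun o => match o with
    | none => GV.t ⟨S.rep x, S.hrep x⟩
    | some k => GV.m x k)]
  · rfl
  · rintro (_ | k) (_ | l) h
    · rfl
    · simp at h
    · simp at h
    · simp only [GV.m.injEq] at h
      rw [h.2]
  · intro a
    rw [adj_u]
    constructor
    · rintro (rfl | ⟨k, rfl⟩)
      · exact ⟨none, rfl⟩
      · exact ⟨some k, rfl⟩
    · rintro ⟨_ | k, rfl⟩
      · exact Or.inl rfl
      · exact Or.inr ⟨k, rfl⟩

theorem sdg_w (y : U) : dg S.graph (.w y) = 4 := by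
  have h1 : ∀ k, ∃ x, S.φ k x = y := fun k => (S.hφ k).2 y
  choose f hf using h1
  rw [dg_of_enum (ι := Fin 4) (fun k => GV.m (f k) k)]
  · rfl
  · intro k l h
    simp only [GV.m.injEq] at h
    exact h.2
  · intro a
    rw [adj_w]
    constructor
    · rintro ⟨k, x, h, rfl⟩
      refine ⟨k, ?_⟩
      rw [(S.hφ k).1 ((hf k).trans h.symm)]
    · rintro ⟨k, rfl⟩
      exact ⟨k, f k, hf k, rfl⟩

theorem sdg_t (z : S.T) : dg S.graph (.t z) = 3 := by
  rw [dg_of_enum (ι := Fin 3) (fun j => GV.u (S.g z.1 j))]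
  · rfl
  · intro k l h
    simp only [GV.u.injEq] at h
    exact S.g_inj z.1 z.2 h
  · intro a
    rw [adj_t]
    constructor
    · rintro ⟨x, h, rfl⟩
      obtain ⟨j, hj⟩ := (S.g_rep z.1 z.2 x).1 h
      exact ⟨j, by rw [hj]⟩
    · rintro ⟨j, rfl⟩
      exact ⟨_, (S.g_rep z.1 z.2 _).2 ⟨j, rfl⟩, rfl⟩

theorem card_kk_sub (k : Fin 4) : Fintype.card {r : Fin 6 // kk r = k} = k := by
  revert k
  decide

theorem sdg_m (x : U) (k : Fin 4) : dg S.graph (.m x k) = k + 2 := by
  rw [dg_of_enum (ι := Bool ⊕ {r : Fin 6 // kk r = k}) (fun o => match o with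
    | .inl true => GV.u x
    | .inl false => GV.w (S.φ k x)
    | .inr r => GV.l x r.1)]
  · rw [Fintype.card_sum, card_kk_sub, Fintype.card_bool, add_comm]
  · rintro ((_ | _) | r) ((_ | _) | r') h <;> simp at h ⊢
    exact Subtype.ext h
  · intro a
    rw [adj_m]
    constructor
    · rintro (rfl | rfl | ⟨r, hr, rfl⟩)
      · exact ⟨.inl true, rfl⟩
      · exact ⟨.inl false, rfl⟩
      · exact ⟨.inr ⟨r, hr⟩, rfl⟩
    · rintro ⟨(_ | _) | r, rfl⟩
      · exact Or.inr (Or.inl rfl)
      · exact Or.inl rfl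
      · exact Or.inr (Or.inr ⟨r.1, r.2, rfl⟩)

theorem sdg_l (x : U) (r : Fin 6) : dg S.graph (.l x r) = 1 := by
  rw [dg_of_enum (ι := Unit) (fun _ => GV.m x ⟨kk r, kk_lt r⟩)]
  · rfl
  · intro a b _
    rfl
  · intro a
    rw [adj_l]
    constructor
    · rintro rfl
      exact ⟨(), rfl⟩
    · rintro ⟨_, rfl⟩
      rfl

theorem slf_zero {v : GV U S.T} (h : ∀ a, S.graph.Adj v a → dg S.graph a ≠ 1) :
    lf S.graph v = 0 := by
  rw [lf_of_enum (ι := Empty) (fun o => o.elim)]
  · rfl
  · intro a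
    exact a.elim
  · intro a
    constructor
    · rintro ⟨h1, h2⟩
      exact absurd h2 (h a h1)
    · rintro ⟨i, _⟩
      exact i.elim

theorem skd_u (x : U) : kd S.graph (.u x) = kU := by
  unfold kd
  rw [sdg_u, slf_zero]
  · rfl
  · intro a ha
    rw [adj_u] at ha
    rcases ha with rfl | ⟨k, rfl⟩
    · rw [sdg_t]; norm_num
    · rw [sdg_m]; omega

theorem skd_w (x : U) : kd S.graph (.w x) = kW := by
  unfold kd
  rw [sdg_w, slf_zero]
  · rfl
  · intro a ha
    rw [adj_w] at ha
    obtain ⟨k, x, _, rfl⟩ := ha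
    rw [sdg_m]; omega

theorem skd_t (z : S.T) : kd S.graph (.t z) = kT := by
  unfold kd
  rw [sdg_t, slf_zero]
  · rfl
  · intro a ha
    rw [adj_t] at ha
    obtain ⟨x, _, rfl⟩ := ha
    rw [sdg_u]; norm_num

theorem skd_l (x : U) (r : Fin 6) : kd S.graph (.l x r) = kL := by
  unfold kd
  rw [sdg_l, slf_zero]
  · rfl
  · intro a ha
    rw [adj_l] at ha
    rw [ha, sdg_m]; omega

theorem skd_m (x : U) (k : Fin 4) : kd S.graph (.m x k) = kM k := by
  unfold kd
  rw [sdg_m, lf_of_enum (ι := {r : Fin 6 // kk r = k}) (fun r => GV.l x r.1)]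
  · rw [card_kk_sub]
    rfl
  · intro a b h
    simp only [GV.l.injEq, true_and] at h
    exact Subtype.ext h
  · intro a
    rw [adj_m]
    constructor
    · rintro ⟨rfl | rfl | ⟨r, hr, rfl⟩, h2⟩
      · rw [sdg_u] at h2; omega
      · rw [sdg_w] at h2; omega
      · exact ⟨⟨r, hr⟩, rfl⟩
    · rintro ⟨r, rfl⟩
      exact ⟨Or.inr (Or.inr ⟨r.1, r.2, rfl⟩), sdg_l _ _⟩

theorem sC1 : C1 S.graph := by
  refine ⟨?_, ?_, ?_, ?_, ?_, ?_, ?_⟩
  · intro v
    cases v with
    | u x => exact Or.inl (skd_u x)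
    | w x => exact Or.inr (Or.inl (skd_w x))
    | t z => exact Or.inr (Or.inr (Or.inl (skd_t z)))
    | m x k => exact Or.inr (Or.inr (Or.inr (Or.inl ⟨k, k.2, skd_m x k⟩)))
    | l x r => exact Or.inr (Or.inr (Or.inr (Or.inr (skd_l x r))))
  · intro v hv
    cases v with
    | u x => exact ⟨_, adj_u.2 (Or.inl rfl), skd_t _⟩
    | w x => rw [skd_w] at hv; exact absurd hv (by decide)
    | t z => rw [skd_t] at hv; exact absurd hv (by decide)
    | m x k => rw [skd_m] at hv; exact absurd hv (kM_ne_kU _)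
    | l x r => rw [skd_l] at hv; exact absurd hv (by decide)
  · intro v hv k hk
    cases v with
    | u x => exact ⟨_, adj_u.2 (Or.inr ⟨⟨k, hk⟩, rfl⟩), skd_m _ _⟩
    | w x => rw [skd_w] at hv; exact absurd hv (by decide)
    | t z => rw [skd_t] at hv; exact absurd hv (by decide)
    | m x k => rw [skd_m] at hv; exact absurd hv (kM_ne_kU _)
    | l x r => rw [skd_l] at hv; exact absurd hv (by decide)
  · intro v hv k hk
    cases v with
    | u x => rw [skd_u] at hv; exact absurd hv (by decide)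
    | w y =>
      obtain ⟨x, hx⟩ := (S.hφ ⟨k, hk⟩).2 y
      exact ⟨_, adj_w.2 ⟨⟨k, hk⟩, x, hx, rfl⟩, skd_m _ _⟩
    | t z => rw [skd_t] at hv; exact absurd hv (by decide)
    | m x k => rw [skd_m] at hv; exact absurd hv (kM_ne_kW _)
    | l x r => rw [skd_l] at hv; exact absurd hv (by decide)
  · intro v hv a ha
    cases v with
    | u x => rw [skd_u] at hv; exact absurd hv (by decide)
    | w y => rw [skd_w] at hv; exact absurd hv (by decide)
    | t z =>
      obtain ⟨x, _, rfl⟩ := adj_t.1 ha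
      exact skd_u x
    | m x k => rw [skd_m] at hv; exact absurd hv (kM_ne_kT _)
    | l x r => rw [skd_l] at hv; exact absurd hv (by decide)
  · intro k hk v hv
    cases v with
    | u x => rw [skd_u] at hv; exact absurd hv.symm (kM_ne_kU _)
    | w y => rw [skd_w] at hv; exact absurd hv.symm (kM_ne_kW _)
    | t z => rw [skd_t] at hv; exact absurd hv.symm (kM_ne_kT _)
    | m x k => exact ⟨_, adj_m.2 (Or.inl rfl), skd_u _⟩
    | l x r => rw [skd_l] at hv; exact absurd hv.symm (kM_ne_kL _)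
  · intro k hk v hv
    cases v with
    | u x => rw [skd_u] at hv; exact absurd hv.symm (kM_ne_kU _)
    | w y => rw [skd_w] at hv; exact absurd hv.symm (kM_ne_kW _)
    | t z => rw [skd_t] at hv; exact absurd hv.symm (kM_ne_kT _)
    | m x k => exact ⟨_, adj_m.2 (Or.inr (Or.inl rfl)), skd_w _⟩
    | l x r => rw [skd_l] at hv; exact absurd hv.symm (kM_ne_kL _)

/-- the existence of types and positions for a system -/
def Sys.Sol (S : Sys U) : Prop := ∃ (i iw : U → Fin 3) (p pw : U → Bool),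
  (∀ k x, iw (S.φ k x) = i x ∧ pw (S.φ k x) = xor (p x) (xn (i x) k)) ∧
  ∀ x x', S.rep x = S.rep x' → p x = p x' ∧ (x ≠ x' → i x ≠ i x')

theorem sol_iff : Sol S.graph ↔ S.Sol := by
  constructor
  · rintro ⟨i, p, s1, s2, s3, s4⟩
    refine ⟨fun x => i (.u x), fun x => i (.w x), fun x => p (.u x), fun x => p (.w x), ?_, ?_⟩
    · intro k x
      obtain ⟨e1, e2⟩ := s1 k k.2 _ _ (adj_u.2 (Or.inr ⟨k, rfl⟩)) (skd_u x) (skd_m x k)
      obtain ⟨e3, e4⟩ := s2 k k.2 _ _ (adj_m.2 (Or.inr (Or.inl rfl))) (skd_m x k)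
        (skd_w (S.φ k x))
      refine ⟨(e1.trans e3).symm, ?_⟩
      change p (.w (S.φ k x)) = xor (p (.u x)) (xn (i (.u x)) k)
      rw [e4, ← e2, ← e1]
    · intro x x' h
      have a1 : S.graph.Adj (.t ⟨S.rep x', S.hrep x'⟩) (.u x) := adj_t.2 ⟨x, h, rfl⟩
      have a2 : S.graph.Adj (.t ⟨S.rep x', S.hrep x'⟩) (.u x') := adj_t.2 ⟨x', rfl, rfl⟩
      refine ⟨(s3 _ _ a1.symm (skd_u x) (skd_t _)).trans
        (s3 _ _ a2.symm (skd_u x') (skd_t _)).symm, fun hne => ?_⟩
      refine s4 _ _ _ (skd_t _) a1 a2 ?_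
      intro he
      rw [GV.u.injEq] at he
      exact hne he
  · rintro ⟨i, iw, p, pw, h1, h2⟩
    let I : GV U S.T → Fin 3 := fun v => match v with
      | .u x => i x
      | .w x => iw x
      | .t _ => 0
      | .m x _ => i x
      | .l _ _ => 0
    let Q : GV U S.T → Bool := fun v => match v with
      | .u x => p x
      | .w x => pw x
      | .t z => p z.1
      | .m x _ => p x
      | .l _ _ => false
    refine ⟨I, Q, ?_, ?_, ?_, ?_⟩
    · intro k hk a b hab ha hb
      cases a with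
      | u x =>
        rcases adj_u.1 hab with rfl | ⟨k', rfl⟩
        · rw [skd_t] at hb
          exact absurd hb.symm (kM_ne_kT k)
        · exact ⟨rfl, rfl⟩
      | w x => rw [skd_w] at ha; exact absurd ha (by decide)
      | t z => rw [skd_t] at ha; exact absurd ha (by decide)
      | m x k => rw [skd_m] at ha; exact absurd ha (kM_ne_kU _)
      | l x r => rw [skd_l] at ha; exact absurd ha (by decide)
    · intro k hk a b hab ha hb
      cases a with
      | u x => rw [skd_u] at ha; exact absurd ha.symm (kM_ne_kU _)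
      | w x => rw [skd_w] at ha; exact absurd ha.symm (kM_ne_kW _)
      | t z => rw [skd_t] at ha; exact absurd ha.symm (kM_ne_kT _)
      | m x k' =>
        rw [skd_m] at ha
        have hkk := kM_inj ha
        subst hkk
        rcases adj_m.1 hab with rfl | rfl | ⟨r, _, rfl⟩
        · rw [skd_u] at hb; exact absurd hb (by decide)
        · exact ⟨(h1 k' x).1.symm, (h1 k' x).2⟩
        · rw [skd_l] at hb; exact absurd hb (by decide)
      | l x r => rw [skd_l] at ha; exact absurd ha.symm (kM_ne_kL _)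
    · intro a b hab ha hb
      cases a with
      | u x =>
        rcases adj_u.1 hab with rfl | ⟨k', rfl⟩
        · exact (h2 _ _ (S.hrep x).symm).1
        · exact rfl
      | w x => rw [skd_w] at ha; exact absurd ha (by decide)
      | t z => rw [skd_t] at ha; exact absurd ha (by decide)
      | m x k => rw [skd_m] at ha; exact absurd ha (kM_ne_kU _)
      | l x r => rw [skd_l] at ha; exact absurd ha (by decide)
    · intro c a b hc hca hcb hab
      cases c with
      | u x => rw [skd_u] at hc; exact absurd hc (by decide)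
      | w x => rw [skd_w] at hc; exact absurd hc (by decide)
      | t z =>
        obtain ⟨x, hx, rfl⟩ := adj_t.1 hca
        obtain ⟨x', hx', rfl⟩ := adj_t.1 hcb
        refine (h2 x x' (hx.trans hx'.symm)).2 ?_
        rintro rfl
        exact hab rfl
      | m x k => rw [skd_m] at hc; exact absurd hc (kM_ne_kT _)
      | l x r => rw [skd_l] at hc; exact absurd hc (by decide)

theorem sys_covers : Covers S.graph HG ↔ S.Sol := by
  rw [taskA, sol_iff]
  exact ⟨fun h => h.2, fun h => ⟨sC1, h⟩⟩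

end kinds

end Pool.Agent.H719.PC
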