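import Pool.Agent.H719.PC.Defs
import Pool.Agent.H692R2.Col
import Pool.Agent.H671R2.GraphEnc
import Pool.Agent.NPC.Dec
import Pool.Agent.NPC.Sat2
import Pool.Agent.H239R2.Cover.PlanarDefs

set_option autoImplicit false

/-!
# Statements of the parts
-/

namespace Pool.Agent.H719.PC

open Pool.Agent.NPC Pool.Agent.NPC.R671 Pool.Agent.H692R2 Pool.Agent.H239R2.Planar

/-- sparsity of planar graphs: a set `A` of edges without nonempty even subset of less than `8`
elements has at most `4/3` times as many elements as its rank -/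
def Spr {V : Type} (G : SimpleGraph V) : Prop :=
  ∀ A : Finset (Sym2 V), (A : Set (Sym2 V)) ⊆ G.edgeSet →
    (∀ B ⊆ A, B.Nonempty → (∀ v : V, Even (Nat.card {e // e ∈ B ∧ v ∈ e})) → 8 ≤ B.card) →
    4 * A.card ≤ 4 * rk A + A.card

/-- TASK SP1 -/
def TaskSP1 : Prop := ∀ (V : Type) [Fintype V] (G : SimpleGraph V), IsPlanar G → Spr G

/-- TASK SP2 -/
def TaskSP2 : Prop :=
  ∀ (V : Type) [Fintype V] (G : SimpleGraph V), HasStraightLineDrawing G → Spr G

/-- TASK A -/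
def TaskA : Prop := ∀ (V : Type) [Fintype V] (G : SimpleGraph V), Covers G HG ↔ C1 G ∧ Sol G

/-- TASK B -/
def TaskB : Prop := ∀ (V : Type) [Fintype V] (G : SimpleGraph V), C1 G → Spr G → Rigid G

/-- TASK C -/
def TaskC : Prop := ∀ (V : Type) [Fintype V] (G : SimpleGraph V), C1 G → Rigid G →
  (Sol G ↔ Alg G)

/-- TASK P -/
def TaskP : Prop := ∃ d : List (List Bool) → Bool, Poly d ∧
  ∀ (n : ℕ) (G : SimpleGraph (Fin n)), d (adjMatrix G) = true ↔ Alg G

/-- TASK NP -/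
def TaskNP : Prop := InNPP (fun M : List (List Bool) =>
  ∃ (n : ℕ) (G : SimpleGraph (Fin n)), adjMatrix G = M ∧ Covers G HG)

/-- instances of 3-colourability with small names -/
def PrB (E : List (ℕ × ℕ)) : Prop :=
  E ≠ [] ∧ ∀ e ∈ E, e.1 ≠ e.2 ∧ e.1 < 2 * E.length ∧ e.2 < 2 * E.length

/-- TASK R -/
def TaskR : Prop := ∃ (N : List (ℕ × ℕ) → ℕ) (G : ∀ E, SimpleGraph (Fin (N E))),
  Poly (fun E => adjMatrix (G E)) ∧ (∀ E, PrB E → 0 < N E) ∧
    ∀ E, PrB E → (Col 3 E ↔ C1 (G E) ∧ Sol (G E))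

/-- TASK H -/
def TaskH : Prop := HardPr PrB (Col 3)

/-- TASK F1 -/
def TaskF1 : Prop := HG.Connected ∧ IsPlanar HG

/-- TASK F2 -/
def TaskF2 : Prop := HasStraightLineDrawing HG

end Pool.Agent.H719.PC
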