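import Pool.Agent.H719.PC.Cov

set_option autoImplicit false

/-!
# Covers of `HG` are described by types and positions
-/

namespace Pool.Agent.H719.PC

open Classical

section nb

variable {V : Type} [Fintype V] {G : SimpleGraph V}

/-- neighbours -/
noncomputable def nbs (G : SimpleGraph V) (v : V) : Finset V := Finset.univ.filter fun a => G.Adj v a

theorem mem_nbs {v a : V} : a ∈ nbs G v ↔ G.Adj v a := by simp [nbs]

theorem card_nbs (v : V) : (nbs G v).card = dg G v := rfl

theorem image_eq_injOn {α β : Type} [DecidableEq β] {N : Finset α} {K : Finset β} {f : α → β}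
    (h1 : K ⊆ N.image f) (h2 : N.card ≤ K.card) : N.image f = K ∧ Set.InjOn f N := by
  have h3 : (N.image f).card ≤ N.card := Finset.card_image_le
  have h4 : K = N.image f := Finset.eq_of_subset_of_card_le h1 (h3.trans h2)
  refine ⟨h4.symm, ?_⟩
  rw [← Finset.card_image_iff]
  apply le_antisymm h3
  rw [← h4]
  exact h2

theorem nbU (h : C1 G) {v : V} (hv : kd G v = kU) :
    (nbs G v).image (kd G) = {kT, kM 0, kM 1, kM 2, kM 3} ∧ Set.InjOn (kd G) (nbs G v) := by
  apply image_eq_injOn
  · intro K hK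
    simp only [Finset.mem_insert, Finset.mem_singleton] at hK
    rw [Finset.mem_image]
    simp only [mem_nbs]
    rcases hK with rfl | rfl | rfl | rfl | rfl
    · exact h.ut v hv
    · exact h.um v hv 0 (by norm_num)
    · exact h.um v hv 1 (by norm_num)
    · exact h.um v hv 2 (by norm_num)
    · exact h.um v hv 3 (by norm_num)
  · rw [card_nbs, show dg G v = 5 from congrArg Prod.fst hv]
    exact le_of_eq (by decide)

theorem nbW (h : C1 G) {v : V} (hv : kd G v = kW) :
    (nbs G v).image (kd G) = {kM 0, kM 1, kM 2, kM 3} ∧ Set.InjOn (kd G) (nbs G v) := by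
  apply image_eq_injOn
  · intro K hK
    simp only [Finset.mem_insert, Finset.mem_singleton] at hK
    rw [Finset.mem_image]
    simp only [mem_nbs]
    rcases hK with rfl | rfl | rfl | rfl
    · exact h.wm v hv 0 (by norm_num)
    · exact h.wm v hv 1 (by norm_num)
    · exact h.wm v hv 2 (by norm_num)
    · exact h.wm v hv 3 (by norm_num)
  · rw [card_nbs, show dg G v = 4 from congrArg Prod.fst hv]
    exact le_of_eq (by decide)

theorem adjU (h : C1 G) {v a : V} (hv : kd G v = kU) (ha : G.Adj v a) :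
    kd G a = kT ∨ ∃ k < 4, kd G a = kM k := by
  have h1 := Finset.mem_image_of_mem (kd G) (mem_nbs.2 ha)
  rw [(nbU h hv).1] at h1
  simp only [Finset.mem_insert, Finset.mem_singleton] at h1
  rcases h1 with h1 | h1 | h1 | h1 | h1
  · exact Or.inl h1
  · exact Or.inr ⟨0, by norm_num, h1⟩
  · exact Or.inr ⟨1, by norm_num, h1⟩
  · exact Or.inr ⟨2, by norm_num, h1⟩
  · exact Or.inr ⟨3, by norm_num, h1⟩

theorem adjW (h : C1 G) {v a : V} (hv : kd G v = kW) (ha : G.Adj v a) :
    ∃ k < 4, kd G a = kM k := by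
  have h1 := Finset.mem_image_of_mem (kd G) (mem_nbs.2 ha)
  rw [(nbW h hv).1] at h1
  simp only [Finset.mem_insert, Finset.mem_singleton] at h1
  rcases h1 with h1 | h1 | h1 | h1
  · exact ⟨0, by norm_num, h1⟩
  · exact ⟨1, by norm_num, h1⟩
  · exact ⟨2, by norm_num, h1⟩
  · exact ⟨3, by norm_num, h1⟩

theorem injU (h : C1 G) {v a b : V} (hv : kd G v = kU) (ha : G.Adj v a) (hb : G.Adj v b)
    (hab : kd G a = kd G b) : a = b := (nbU h hv).2 (mem_nbs.2 ha) (mem_nbs.2 hb) hab

theorem injW (h : C1 G) {v a b : V} (hv : kd G v = kW) (ha : G.Adj v a) (hb : G.Adj v b)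
    (hab : kd G a = kd G b) : a = b := (nbW h hv).2 (mem_nbs.2 ha) (mem_nbs.2 hb) hab

/-- the neighbours which are not leaves -/
noncomputable def nbx (G : SimpleGraph V) (v : V) : Finset V := (nbs G v).filter fun a => dg G a ≠ 1

theorem kL_of_dg (h : C1 G) {a : V} (ha : dg G a = 1) : kd G a = kL := by
  rcases h.all a with h1 | h1 | h1 | ⟨k, _, h1⟩ | h1
  · have := congrArg Prod.fst h1
    simp [kd, kU, ha] at this
  · have := congrArg Prod.fst h1
    simp [kd, kW, ha] at this
  · have := congrArg Prod.fst h1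
    simp [kd, kT, ha] at this
  · have := congrArg Prod.fst h1
    simp [kd, kM, ha] at this
  · exact h1

theorem card_nbx {v : V} {k : ℕ} (hv : kd G v = kM k) : (nbx G v).card = 2 := by
  have h1 : ((nbs G v).filter fun a => dg G a = 1).card = lf G v := by
    unfold lf nbs
    rw [Finset.filter_filter]
  have h2 := Finset.card_filter_add_card_filter_not (s := nbs G v) (fun a => dg G a = 1)
  rw [h1, card_nbs] at h2
  have h3 : dg G v = k + 2 := congrArg Prod.fst hv
  have h4 : lf G v = k := congrArg Prod.snd hv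
  unfold nbx
  have h5 : (Finset.filter (fun a => dg G a ≠ 1) (nbs G v)).card =
    (Finset.filter (fun a => ¬ dg G a = 1) (nbs G v)).card := rfl
  omega

theorem nbM (h : C1 G) {v : V} {k : ℕ} (hk : k < 4) (hv : kd G v = kM k) :
    (nbx G v).image (kd G) = {kU, kW} ∧ Set.InjOn (kd G) (nbx G v) := by
  apply image_eq_injOn
  · intro K hK
    simp only [Finset.mem_insert, Finset.mem_singleton] at hK
    rw [Finset.mem_image]
    simp only [nbx, Finset.mem_filter, mem_nbs]
    rcases hK with rfl | rfl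
    · obtain ⟨a, ha, ha'⟩ := h.mu k hk v hv
      refine ⟨a, ⟨ha, ?_⟩, ha'⟩
      rw [show dg G a = 5 from congrArg Prod.fst ha']
      norm_num
    · obtain ⟨a, ha, ha'⟩ := h.mw k hk v hv
      refine ⟨a, ⟨ha, ?_⟩, ha'⟩
      rw [show dg G a = 4 from congrArg Prod.fst ha']
      norm_num
  · rw [card_nbx hv]
    exact le_of_eq (by decide)

theorem adjM (h : C1 G) {v a : V} {k : ℕ} (hk : k < 4) (hv : kd G v = kM k) (ha : G.Adj v a) :
    kd G a = kL ∨ kd G a = kU ∨ kd G a = kW := by
  by_cases h1 : dg G a = 1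
  · exact Or.inl (kL_of_dg h h1)
  · right
    have h2 : a ∈ nbx G v := by
      rw [nbx, Finset.mem_filter, mem_nbs]
      exact ⟨ha, h1⟩
    have h3 := Finset.mem_image_of_mem (kd G) h2
    rw [(nbM h hk hv).1] at h3
    simpa using h3

theorem injM (h : C1 G) {v a b : V} {k : ℕ} (hk : k < 4) (hv : kd G v = kM k) (ha : G.Adj v a)
    (hb : G.Adj v b) (ha' : kd G a ≠ kL) (hab : kd G a = kd G b) : a = b := by
  have h1 : dg G a ≠ 1 := fun h1 => ha' (kL_of_dg h h1)
  have h2 : dg G b ≠ 1 := fun h1 => ha' (hab.trans (kL_of_dg h h1))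
  refine (nbM h hk hv).2 ?_ ?_ hab
  · simp only [nbx, Finset.coe_filter, mem_nbs]
    exact ⟨ha, h1⟩
  · simp only [nbx, Finset.coe_filter, mem_nbs]
    exact ⟨hb, h2⟩

theorem adjL (h : C1 G) {v a : V} (hv : kd G v = kL) (ha : G.Adj v a) :
    ∃ k < 4, kd G a = kM k := by
  have h1 : 0 < lf G a := by
    unfold lf
    rw [Finset.card_pos]
    refine ⟨v, ?_⟩
    rw [Finset.mem_filter]
    exact ⟨Finset.mem_univ _, ha.symm, congrArg Prod.fst hv⟩
  rcases h.all a with h2 | h2 | h2 | h2 | h2
  · have := congrArg Prod.snd h2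
    simp only [kd, kU] at this
    omega
  · have := congrArg Prod.snd h2
    simp only [kd, kW] at this
    omega
  · have := congrArg Prod.snd h2
    simp only [kd, kT] at this
    omega
  · exact h2
  · have := congrArg Prod.snd h2
    simp only [kd, kL] at this
    omega

theorem injL {v a b : V} (hv : kd G v = kL) (ha : G.Adj v a) (hb : G.Adj v b) : a = b := by
  have h1 : (nbs G v).card = 1 := by
    rw [card_nbs]
    exact congrArg Prod.fst hv
  exact Finset.card_le_one.1 h1.le a (mem_nbs.2 ha) b (mem_nbs.2 hb)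

theorem exists_nb_L {v : V} (hv : kd G v = kL) : ∃ a, G.Adj v a := by
  have h1 : 0 < (nbs G v).card := by
    rw [card_nbs, show dg G v = 1 from congrArg Prod.fst hv]
    norm_num
  obtain ⟨a, ha⟩ := Finset.card_pos.1 h1
  exact ⟨a, mem_nbs.1 ha⟩

/-- the edges, in one of the two directions -/
inductive EK (G : SimpleGraph V) (a b : V) : Prop
  | ut (h1 : kd G a = kU) (h2 : kd G b = kT)
  | um (k : ℕ) (hk : k < 4) (h1 : kd G a = kU) (h2 : kd G b = kM k)
  | mw (k : ℕ) (hk : k < 4) (h1 : kd G a = kM k) (h2 : kd G b = kW)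
  | ml (k : ℕ) (hk : k < 4) (h1 : kd G a = kM k) (h2 : kd G b = kL)

theorem edge_cases (h : C1 G) {a b : V} (hab : G.Adj a b) : EK G a b ∨ EK G b a := by
  rcases h.all a with h1 | h1 | h1 | ⟨k, hk, h1⟩ | h1
  · rcases adjU h h1 hab with h2 | ⟨k, hk, h2⟩
    · exact Or.inl (.ut h1 h2)
    · exact Or.inl (.um k hk h1 h2)
  · obtain ⟨k, hk, h2⟩ := adjW h h1 hab
    exact Or.inr (.mw k hk h2 h1)
  · exact Or.inr (.ut (h.tu a h1 b hab) h1)
  · rcases adjM h hk h1 hab with h2 | h2 | h2
    · exact Or.inl (.ml k hk h1 h2)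
    · exact Or.inr (.um k hk h2 h1)
    · exact Or.inl (.mw k hk h1 h2)
  · obtain ⟨k, hk, h2⟩ := adjL h h1 hab
    exact Or.inr (.ml k hk h2 h1)

end nb

end Pool.Agent.H719.PC
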