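import Pool.Agent.H719.PC.ThmA
import Pool.Agent.H719.PC.Tasks

set_option autoImplicit false

/-!
# Covers of `HG` are described by types and positions (continued)
-/

namespace Pool.Agent.H719.PC

open Classical

variable {V : Type} [Fintype V] {G : SimpleGraph V}

theorem card_kk (k : ℕ) (hk : k < 4) :
    (Finset.univ.filter fun r : Fin 6 => kk r = k).card = k := by
  interval_cases k <;> simp [kk] <;> decide

theorem exists_leafnum (h : C1 G) (v : V) : ∃ g : V → Fin 6,
    (∀ a b, G.Adj v a → G.Adj v b → kd G a = kL → kd G b = kL → g a = g b → a = b) ∧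
    ∀ a, G.Adj v a → kd G a = kL → kk (g a) = lf G v := by
  by_cases h0 : ∃ a, G.Adj v a ∧ kd G a = kL
  · obtain ⟨a0, h1, h2⟩ := h0
    obtain ⟨k, hk, h3⟩ := adjL h h2 h1.symm
    have h4 : lf G v = k := congrArg Prod.snd h3
    set L : Finset V := Finset.univ.filter fun a => G.Adj v a ∧ dg G a = 1 with hL
    set T : Finset (Fin 6) := Finset.univ.filter fun r : Fin 6 => kk r = k with hT
    have h5 : L.card = T.card := by
      rw [hT, card_kk k hk]
      exact h4
    have e := Finset.equivOfCardEq h5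
    have hmem : ∀ a, G.Adj v a → kd G a = kL → a ∈ L := by
      intro a ha hb
      rw [hL, Finset.mem_filter]
      exact ⟨Finset.mem_univ _, ha, congrArg Prod.fst hb⟩
    refine ⟨fun a => if ha : a ∈ L then (e ⟨a, ha⟩).1 else 0, ?_, ?_⟩
    · intro a b ha hb ha' hb' hab
      simp only [dif_pos (hmem a ha ha'), dif_pos (hmem b hb hb')] at hab
      have := e.injective (Subtype.ext hab)
      simpa using this
    · intro a ha ha'
      simp only [dif_pos (hmem a ha ha')]
      have := (Finset.mem_filter.1 (e ⟨a, hmem a ha ha'⟩).2).2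
      rw [h4]
      exact this
  · refine ⟨fun _ => 0, ?_, ?_⟩
    · intro a b ha _ ha'
      exact absurd ⟨a, ha, ha'⟩ h0
    · intro a ha ha'
      exact absurd ⟨a, ha, ha'⟩ h0

theorem hkd_fst (x : HV) : (hkd x).1 = hdg x := by cases x <;> rfl

theorem kM_inj {k l : ℕ} (h : kM k = kM l) : k = l := congrArg Prod.snd h

theorem kM_ne_kU (k : ℕ) : kM k ≠ kU := by
  intro h
  have h1 := congrArg Prod.fst h
  have h2 := congrArg Prod.snd h
  simp only [kM, kU] at h1 h2
  omega

theorem kM_ne_kW (k : ℕ) : kM k ≠ kW := by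
  intro h
  have h1 := congrArg Prod.fst h
  have h2 := congrArg Prod.snd h
  simp only [kM, kW] at h1 h2
  omega

theorem kM_ne_kT (k : ℕ) : kM k ≠ kT := by
  intro h
  have h1 := congrArg Prod.fst h
  have h2 := congrArg Prod.snd h
  simp only [kM, kT] at h1 h2
  omega

theorem kM_ne_kL (k : ℕ) : kM k ≠ kL := by
  intro h
  have h1 := congrArg Prod.fst h
  simp only [kM, kL] at h1
  omega

theorem covers_of_sol (h : C1 G) (hs : Sol G) : Covers G HG := by
  obtain ⟨i, p, s1, s2, s3, s4⟩ := hs
  choose g hg1 hg2 using exists_leafnum h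
  have hex : ∀ v, ∃ x : HV, (kd G v = kU → x = .u (i v) (p v)) ∧
      (kd G v = kW → x = .w (i v) (p v)) ∧ (kd G v = kT → x = .t (p v)) ∧
      (∀ k, ∀ hk : k < 4, kd G v = kM k → x = .m (i v) (p v) ⟨k, hk⟩) ∧
      (kd G v = kL → ∀ b, G.Adj v b → x = .l (i b) (p b) (g b v)) := by
    intro v
    rcases h.all v with h1 | h1 | h1 | ⟨k, hk, h1⟩ | h1 <;> rw [h1]
    · exact ⟨.u (i v) (p v), fun _ => rfl, fun h => absurd h (by decide),
        fun h => absurd h (by decide), fun k _ h => absurd h.symm (kM_ne_kU k),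
        fun h => absurd h (by decide)⟩
    · exact ⟨.w (i v) (p v), fun h => absurd h (by decide), fun _ => rfl,
        fun h => absurd h (by decide), fun k _ h => absurd h.symm (kM_ne_kW k),
        fun h => absurd h (by decide)⟩
    · exact ⟨.t (p v), fun h => absurd h (by decide), fun h => absurd h (by decide),
        fun _ => rfl, fun k _ h => absurd h.symm (kM_ne_kT k), fun h => absurd h (by decide)⟩
    · refine ⟨.m (i v) (p v) ⟨k, hk⟩, fun h => absurd h (kM_ne_kU k),
        fun h => absurd h (kM_ne_kW k), fun h => absurd h (kM_ne_kT k), ?_,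
        fun h => absurd h (kM_ne_kL k)⟩
      intro l hl hkl
      have := kM_inj hkl
      subst this
      rfl
    · obtain ⟨b, hb⟩ := exists_nb_L h1
      refine ⟨.l (i b) (p b) (g b v), fun h => absurd h (by decide),
        fun h => absurd h (by decide), fun h => absurd h (by decide),
        fun k _ h => absurd h.symm (kM_ne_kL k), fun _ c hc => ?_⟩
      rw [injL h1 hb hc]
  choose f fU fW fT fM fL using hex
  have hfk : ∀ v, hkd (f v) = kd G v := by
    intro v
    rcases h.all v with h1 | h1 | h1 | ⟨k, hk, h1⟩ | h1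
    · rw [fU v h1, h1]; rfl
    · rw [fW v h1, h1]; rfl
    · rw [fT v h1, h1]; rfl
    · rw [fM v k hk h1, h1]; rfl
    · obtain ⟨b, hb⟩ := exists_nb_L h1
      rw [fL v h1 b hb, h1]; rfl
  have hdirE : ∀ a b, G.Adj a b → EK G a b → hdir (f a) (f b) = true := by
    intro a b hab hE
    rcases hE with ⟨h1, h2⟩ | ⟨k, hk, h1, h2⟩ | ⟨k, hk, h1, h2⟩ | ⟨k, hk, h1, h2⟩
    · rw [fU a h1, fT b h2, s3 a b hab h1 h2]
      simp [hdir]
    · rw [fU a h1, fM b k hk h2]
      obtain ⟨e1, e2⟩ := s1 k hk a b hab h1 h2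
      rw [e1, e2]
      simp [hdir]
    · rw [fM a k hk h1, fW b h2]
      obtain ⟨e1, e2⟩ := s2 k hk a b hab h1 h2
      rw [e2, e1]
      simp [hdir]
    · rw [fM a k hk h1, fL b h2 a hab.symm]
      have h3 := hg2 a b hab h2
      rw [show lf G a = k from congrArg Prod.snd h1] at h3
      simp [hdir, h3]
  apply covers_of_local (f := f)
  · intro a b hab
    rw [HG_adj, Bool.or_eq_true]
    rcases edge_cases h hab with hE | hE
    · exact Or.inl (hdirE a b hab hE)
    · exact Or.inr (hdirE b a hab.symm hE)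
  · intro v a b ha hb hab
    have hk : kd G a = kd G b := by rw [← hfk, ← hfk, hab]
    rcases h.all v with h1 | h1 | h1 | ⟨k, hk', h1⟩ | h1
    · exact injU h h1 ha hb hk
    · exact injW h h1 ha hb hk
    · have h2 := h.tu v h1 a ha
      have h3 := h.tu v h1 b hb
      rw [fU a h2, fU b h3] at hab
      by_contra hne
      refine s4 v a b h1 ha hb hne ?_
      injection hab
    · by_cases h2 : kd G a = kL
      · have h3 : kd G b = kL := hk ▸ h2
        rw [fL a h2 v ha.symm, fL b h3 v hb.symm] at hab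
        refine hg1 v a b ha hb h2 h3 ?_
        injection hab
      · exact injM h hk' h1 ha hb h2 hk
    · exact injL h1 ha hb
  · intro v
    rw [dg_HG, ← hkd_fst, hfk]
    rfl

theorem taskA : TaskA := fun _ _ _ => ⟨sol_of_covers, fun h => covers_of_sol h.1 h.2⟩

end Pool.Agent.H719.PC
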