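import Pool.Agent.H719.PC.ThmA2
import Pool.Agent.H719.PC.Lifts

set_option autoImplicit false

/-!
# Rigidity: no coloured component of a sparse graph carries two types
-/

namespace Pool.Agent.H719.PC

open Classical Relation Pool.Agent.H239R2.Planar

variable {V : Type} [Fintype V] {G : SimpleGraph V}

theorem cE_symm {a b : V} (h : cE G a b) : cE G b a := ⟨h.1.symm, h.2.2, h.2.1⟩

theorem nE_symm {a b : V} (h : nE G a b) : nE G b a := ⟨h.1.symm, h.2.2, h.2.1⟩

theorem kU_ne_kW : kU ≠ kW := by decide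
theorem kU_ne_kT : kU ≠ kT := by decide
theorem kU_ne_kL : kU ≠ kL := by decide
theorem kW_ne_kT : kW ≠ kT := by decide
theorem kW_ne_kL : kW ≠ kL := by decide
theorem kT_ne_kL : kT ≠ kL := by decide

theorem not_both_W (h : C1 G) {a b : V} (hab : G.Adj a b) : ¬ (kd G a = kW ∧ kd G b = kW) := by
  rintro ⟨ha, hb⟩
  obtain ⟨k, _, hk⟩ := adjW h ha hab
  exact kM_ne_kW k (hk.symm.trans hb)

theorem vol_symm (h : C1 G) (τ : V → ℕ) {a b : V} (hab : G.Adj a b) : vol G τ a b = vol G τ b a := by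
  unfold vol
  by_cases ha : kd G a = kW
  · have hb : kd G b ≠ kW := fun hb => not_both_W h hab ⟨ha, hb⟩
    rw [if_neg hb, if_pos ha, if_pos ha]
  · rw [if_neg ha, if_neg ha]

/-- coloured kinds -/
def colr (G : SimpleGraph V) (v : V) : Prop := kd G v ≠ kL ∧ kd G v ≠ kT

theorem colr_M {v : V} {k : ℕ} (h : kd G v = kM k) : colr G v :=
  ⟨fun h1 => kM_ne_kL k (h.symm.trans h1), fun h1 => kM_ne_kT k (h.symm.trans h1)⟩

theorem colr_U {v : V} (h : kd G v = kU) : colr G v :=
  ⟨fun h1 => kU_ne_kL (h.symm.trans h1), fun h1 => kU_ne_kT (h.symm.trans h1)⟩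

theorem colr_W {v : V} (h : kd G v = kW) : colr G v :=
  ⟨fun h1 => kW_ne_kL (h.symm.trans h1), fun h1 => kW_ne_kT (h.symm.trans h1)⟩

theorem colr_cases (h : C1 G) {v : V} (hv : colr G v) :
    kd G v = kU ∨ kd G v = kW ∨ ∃ k < 4, kd G v = kM k := by
  rcases h.all v with h1 | h1 | h1 | h1 | h1
  · exact Or.inl h1
  · exact Or.inr (Or.inl h1)
  · exact absurd h1 hv.2
  · exact Or.inr (Or.inr h1)
  · exact absurd h1 hv.1

theorem xn_sep (i i' k k' : ℕ) (hi : i < 3) (hi' : i' < 3) (hk : k < 4) (hk' : k' < 4)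
    (h1 : i ≠ i') (h2 : k ≠ k') : xn i k ≠ xn i k' ∨ xn i' k ≠ xn i' k' := by
  have key : ∀ i i' : Fin 3, ∀ k k' : Fin 4, i ≠ i' → k ≠ k' →
      xn i k ≠ xn i k' ∨ xn i' k ≠ xn i' k' := by decide
  exact key ⟨i, hi⟩ ⟨i', hi'⟩ ⟨k, hk⟩ ⟨k', hk'⟩ (fun h => h1 (congrArg Fin.val h))
    (fun h => h2 (congrArg Fin.val h))

/-- a digon gives a closed walk of odd voltage -/
theorem odd_digon {u w m m' : V} {k k' i : ℕ} (hu : kd G u = kU) (hw : kd G w = kW)
    (hm : kd G m = kM k) (hm' : kd G m' = kM k') (h1 : G.Adj u m) (h2 : G.Adj m w)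
    (h3 : G.Adj w m') (h4 : G.Adj m' u) (hx : xn i k ≠ xn i k') :
    OddW (cE G) (vol G fun _ => i) u := by
  have l1 : lf G m = k := congrArg Prod.snd hm
  have l2 : lf G m' = k' := congrArg Prod.snd hm'
  have nU : kd G u ≠ kW := by rw [hu]; exact kU_ne_kW
  have nM : kd G m ≠ kW := by rw [hm]; exact kM_ne_kW k
  have nM' : kd G m' ≠ kW := by rw [hm']; exact kM_ne_kW k'
  have v1 : vol G (fun _ => i) u m = false := by
    unfold vol; rw [if_neg nM, if_neg nU]
  have v2 : vol G (fun _ => i) m w = xn i k := by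
    unfold vol; rw [if_pos hw, l1]
  have v3 : vol G (fun _ => i) w m' = xn i k' := by
    unfold vol; rw [if_neg nM', if_pos hw, l2]
  have v4 : vol G (fun _ => i) m' u = false := by
    unfold vol; rw [if_neg nU, if_neg nM']
  have e1 : Lift (cE G) (vol G fun _ => i) (u, false) (m, false) :=
    ⟨⟨h1, colr_U hu, colr_M hm⟩, by simp [v1]⟩
  have e2 : Lift (cE G) (vol G fun _ => i) (m, false) (w, xn i k) :=
    ⟨⟨h2, colr_M hm, colr_W hw⟩, by simp [v2]⟩
  have e3 : Lift (cE G) (vol G fun _ => i) (w, xn i k) (m', true) := by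
    refine ⟨⟨h3, colr_W hw, colr_M hm'⟩, ?_⟩
    simp only [v3]
    cases h5 : xn i k <;> cases h6 : xn i k' <;> simp [h5, h6] at hx ⊢
  have e4 : Lift (cE G) (vol G fun _ => i) (m', true) (u, true) :=
    ⟨⟨h4, colr_M hm', colr_U hu⟩, by simp [v4]⟩
  exact ReflTransGen.head e1 (ReflTransGen.head e2 (ReflTransGen.head e3 (ReflTransGen.single e4)))

omit [Fintype V] in
theorem even_other {B : Finset (Sym2 V)} {x : V} (h : Even (Nat.card {e // e ∈ B ∧ x ∈ e}))
    {e : Sym2 V} (he : e ∈ B) (hx : x ∈ e) : ∃ e' ∈ B, x ∈ e' ∧ e' ≠ e := by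
  by_contra hcon
  push Not at hcon
  have h1 : Nat.card {e // e ∈ B ∧ x ∈ e} = ({e} : Finset (Sym2 V)).card := by
    rw [Nat.subtype_card]
    intro e'
    rw [Finset.mem_singleton]
    constructor
    · rintro rfl
      exact ⟨he, hx⟩
    · rintro ⟨h2, h3⟩
      exact hcon e' h2 h3
  rw [h1] at h
  simp at h

/-- The rank of a set of edges with ends in `S` is less than the number of elements of `S`. -/
theorem rk_lt (A : Finset (Sym2 V)) (S : Finset V) (v : V) (hv : v ∈ S)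
    (hA : ∀ a b, s(a, b) ∈ A → a ∈ S ∧ b ∈ S) : rk A + 1 ≤ S.card := by
  have h1 : Submodule.span ℚ
      {x : V → ℚ | ∃ a b : V, s(a, b) ∈ A ∧ x = Pi.single a 1 - Pi.single b 1} ≤
      Submodule.span ℚ (((S.erase v).image fun a =>
        (Pi.single a 1 - Pi.single v 1 : V → ℚ) : Finset (V → ℚ)) : Set (V → ℚ)) := by
    rw [Submodule.span_le]
    rintro _ ⟨a, b, hab, rfl⟩
    have key : ∀ a ∈ S, (Pi.single a 1 - Pi.single v 1 : V → ℚ) ∈
        Submodule.span ℚ (((S.erase v).image fun a =>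
        (Pi.single a 1 - Pi.single v 1 : V → ℚ) : Finset (V → ℚ)) : Set (V → ℚ)) := by
      intro a ha
      by_cases hav : a = v
      · rw [hav, sub_self]
        exact Submodule.zero_mem _
      · apply Submodule.subset_span
        rw [Finset.mem_coe, Finset.mem_image]
        exact ⟨a, Finset.mem_erase.2 ⟨hav, ha⟩, rfl⟩
    have h2 := Submodule.sub_mem _ (key a (hA a b hab).1) (key b (hA a b hab).2)
    rw [sub_sub_sub_cancel_right] at h2
    exact h2
  have h2 := (Submodule.finrank_mono h1).trans (finrank_span_finset_le_card _)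
  have h3 := h2.trans Finset.card_image_le
  rw [Finset.card_erase_of_mem hv] at h3
  have h4 : 0 < S.card := Finset.card_pos.2 ⟨v, hv⟩
  unfold rk
  omega

/-- the middle vertices -/
def isM (G : SimpleGraph V) (a : V) : Prop := ∃ k < 4, kd G a = kM k

theorem card_Mnbs_U (h : C1 G) {u : V} (hu : kd G u = kU) :
    ((nbs G u).filter fun a => isM G a).card = 4 := by
  have h1 : ((nbs G u).filter fun a => isM G a).image (kd G) =
      {kM 0, kM 1, kM 2, kM 3} := by
    ext K
    simp only [Finset.mem_image, Finset.mem_filter, mem_nbs, Finset.mem_insert,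
      Finset.mem_singleton]
    constructor
    · rintro ⟨a, ⟨_, k, hk, h2⟩, rfl⟩
      rw [h2]
      interval_cases k <;> simp
    · rintro (rfl | rfl | rfl | rfl)
      · obtain ⟨a, h2, h3⟩ := h.um u hu 0 (by norm_num)
        exact ⟨a, ⟨h2, 0, by norm_num, h3⟩, h3⟩
      · obtain ⟨a, h2, h3⟩ := h.um u hu 1 (by norm_num)
        exact ⟨a, ⟨h2, 1, by norm_num, h3⟩, h3⟩
      · obtain ⟨a, h2, h3⟩ := h.um u hu 2 (by norm_num)
        exact ⟨a, ⟨h2, 2, by norm_num, h3⟩, h3⟩
      · obtain ⟨a, h2, h3⟩ := h.um u hu 3 (by norm_num)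
        exact ⟨a, ⟨h2, 3, by norm_num, h3⟩, h3⟩
  have h2 := congrArg Finset.card h1
  rw [Finset.card_image_of_injOn ((nbU h hu).2.mono (Finset.coe_subset.2
    (Finset.filter_subset _ _)))] at h2
  rw [h2]
  decide

theorem card_Mnbs_W (h : C1 G) {w : V} (hw : kd G w = kW) :
    ((nbs G w).filter fun a => isM G a).card = 4 := by
  have h1 : ((nbs G w).filter fun a => isM G a) = nbs G w := by
    rw [Finset.filter_eq_self]
    intro a ha
    exact adjW h hw (mem_nbs.1 ha)
  rw [h1, card_nbs]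
  exact congrArg Prod.fst hw

theorem taskB : TaskB := by
  intro V _ G h hsp v hv1 hv2 i hi i' hi' hii'
  by_contra hcon
  rw [not_or] at hcon
  obtain ⟨hn, hn'⟩ := hcon
  -- the component
  obtain ⟨S, memS⟩ : ∃ S : Finset V, ∀ a, a ∈ S ↔ ReflTransGen (cE G) v a :=
    ⟨Finset.univ.filter fun a => ReflTransGen (cE G) v a, fun a => by
      rw [Finset.mem_filter]; simp⟩
  have hvS : v ∈ S := (memS v).2 .refl
  have colS : ∀ a ∈ S, colr G a := by
    intro a ha
    rw [memS] at ha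
    induction ha with
    | refl => exact ⟨hv1, hv2⟩
    | tail _ hbc _ => exact hbc.2.2
  have stepS : ∀ a b, a ∈ S → G.Adj a b → colr G b → b ∈ S := by
    intro a b ha hab hb
    rw [memS] at ha ⊢
    exact ha.tail ⟨hab, colS a ((memS a).2 ha), hb⟩
  -- no digons
  have nodigon : ∀ u w m m', u ∈ S → kd G u = kU → kd G w = kW → ∀ k < 4, ∀ k' < 4,
      kd G m = kM k → kd G m' = kM k' → G.Adj m u → G.Adj m w → G.Adj m' u → G.Adj m' w →
      m = m' := by
    intro u w m m' huS hu hw k hk k' hk' hm hm' e1 e2 e3 e4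
    by_contra hne
    have hkk : k ≠ k' := by
      rintro rfl
      exact hne (injU h hu e1.symm e3.symm (hm.trans hm'.symm))
    have tr : ∀ j, OddW (cE G) (vol G fun _ => j) u → OddW (cE G) (vol G fun _ => j) v :=
      fun j hj => oddW_of_reach (fun _ _ => cE_symm) (fun _ _ hab => vol_symm h _ hab.1)
        ((memS u).1 huS) hj
    rcases xn_sep i i' k k' hi hi' hk hk' hii' hkk with hx | hx
    · exact hn (tr i (odd_digon hu hw hm hm' e1.symm e2 e4.symm e3 hx))
    · exact hn' (tr i' (odd_digon hu hw hm hm' e1.symm e2 e4.symm e3 hx))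
  -- the three kinds
  obtain ⟨U, memU⟩ : ∃ U : Finset V, ∀ a, a ∈ U ↔ a ∈ S ∧ kd G a = kU :=
    ⟨S.filter fun a => kd G a = kU, fun a => by rw [Finset.mem_filter]⟩
  obtain ⟨W, memW⟩ : ∃ U : Finset V, ∀ a, a ∈ U ↔ a ∈ S ∧ kd G a = kW :=
    ⟨S.filter fun a => kd G a = kW, fun a => by rw [Finset.mem_filter]⟩
  obtain ⟨M, memM⟩ : ∃ U : Finset V, ∀ a, a ∈ U ↔ a ∈ S ∧ isM G a :=
    ⟨S.filter fun a => isM G a, fun a => by rw [Finset.mem_filter]⟩
  -- the two neighbours of a middle vertex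
  have hex : ∀ m, ∃ a b, m ∈ M → (G.Adj m a ∧ kd G a = kU) ∧ (G.Adj m b ∧ kd G b = kW) := by
    intro m
    by_cases hm : m ∈ M
    · obtain ⟨_, k, hk, hm2⟩ := (memM m).1 hm
      obtain ⟨a, ha⟩ := h.mu k hk m hm2
      obtain ⟨b, hb⟩ := h.mw k hk m hm2
      exact ⟨a, b, fun _ => ⟨ha, hb⟩⟩
    · exact ⟨m, m, fun hm' => absurd hm' hm⟩
  choose um wm huw using hex
  have um_adj : ∀ m ∈ M, G.Adj m (um m) := fun m hm => (huw m hm).1.1
  have um_kd : ∀ m ∈ M, kd G (um m) = kU := fun m hm => (huw m hm).1.2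
  have wm_adj : ∀ m ∈ M, G.Adj m (wm m) := fun m hm => (huw m hm).2.1
  have wm_kd : ∀ m ∈ M, kd G (wm m) = kW := fun m hm => (huw m hm).2.2
  have um_mem : ∀ m ∈ M, um m ∈ U := fun m hm =>
    (memU _).2 ⟨stepS m _ ((memM m).1 hm).1 (um_adj m hm) (colr_U (um_kd m hm)), um_kd m hm⟩
  have wm_mem : ∀ m ∈ M, wm m ∈ W := fun m hm =>
    (memW _).2 ⟨stepS m _ ((memM m).1 hm).1 (wm_adj m hm) (colr_W (wm_kd m hm)), wm_kd m hm⟩
  have um_uniq : ∀ m ∈ M, ∀ u, G.Adj m u → kd G u = kU → um m = u := by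
    intro m hm u hmu hu
    obtain ⟨_, k, hk, hm2⟩ := (memM m).1 hm
    refine injM h hk hm2 (um_adj m hm) hmu ?_ ((um_kd m hm).trans hu.symm)
    rw [um_kd m hm]
    exact kU_ne_kL
  have wm_uniq : ∀ m ∈ M, ∀ w, G.Adj m w → kd G w = kW → wm m = w := by
    intro m hm w hmw hw
    obtain ⟨_, k, hk, hm2⟩ := (memM m).1 hm
    refine injM h hk hm2 (wm_adj m hm) hmw ?_ ((wm_kd m hm).trans hw.symm)
    rw [wm_kd m hm]
    exact kW_ne_kL
  have MU : ∀ m ∈ M, m ∉ U := by
    intro m hm hm'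
    obtain ⟨_, k, _, hk⟩ := (memM m).1 hm
    exact kM_ne_kU k (hk.symm.trans ((memU m).1 hm').2)
  have MW : ∀ m ∈ M, m ∉ W := by
    intro m hm hm'
    obtain ⟨_, k, _, hk⟩ := (memM m).1 hm
    exact kM_ne_kW k (hk.symm.trans ((memW m).1 hm').2)
  have UW : ∀ m ∈ U, m ∉ W := by
    intro m hm hm'
    exact kU_ne_kW (((memU m).1 hm).2.symm.trans ((memW m).1 hm').2)
  -- counting
  have cU : M.card = 4 * U.card := by
    rw [Finset.card_eq_sum_card_fiberwise (f := um) (t := U) (fun m hm => um_mem m hm)]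
    rw [Finset.sum_const_nat (m := 4), mul_comm]
    intro u hu
    obtain ⟨huS, hu2⟩ := (memU u).1 hu
    rw [← card_Mnbs_U h hu2]
    congr 1
    ext m
    rw [Finset.mem_filter, Finset.mem_filter, mem_nbs]
    constructor
    · rintro ⟨hm, rfl⟩
      exact ⟨(um_adj m hm).symm, ((memM m).1 hm).2⟩
    · rintro ⟨hum, hm2⟩
      have hm : m ∈ M := (memM m).2 ⟨by
        obtain ⟨k, _, hk⟩ := hm2
        exact stepS u m huS hum (colr_M hk), hm2⟩
      exact ⟨hm, um_uniq m hm u hum.symm hu2⟩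
  have cW : M.card = 4 * W.card := by
    rw [Finset.card_eq_sum_card_fiberwise (f := wm) (t := W) (fun m hm => wm_mem m hm)]
    rw [Finset.sum_const_nat (m := 4), mul_comm]
    intro w hw
    obtain ⟨hwS, hw2⟩ := (memW w).1 hw
    rw [← card_Mnbs_W h hw2]
    congr 1
    ext m
    rw [Finset.mem_filter, Finset.mem_filter, mem_nbs]
    constructor
    · rintro ⟨hm, rfl⟩
      exact ⟨(wm_adj m hm).symm, ((memM m).1 hm).2⟩
    · rintro ⟨hwm, hm2⟩
      have hm : m ∈ M := (memM m).2 ⟨by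
        obtain ⟨k, _, hk⟩ := hm2
        exact stepS w m hwS hwm (colr_M hk), hm2⟩
      exact ⟨hm, wm_uniq m hm w hwm.symm hw2⟩
  have cS : S.card = U.card + W.card + M.card := by
    have h1 : S = (U ∪ W) ∪ M := by
      ext a
      rw [Finset.mem_union, Finset.mem_union, memU, memW, memM]
      constructor
      · intro ha
        rcases colr_cases h (colS a ha) with h1 | h1 | h1
        · exact Or.inl (Or.inl ⟨ha, h1⟩)
        · exact Or.inl (Or.inr ⟨ha, h1⟩)
        · exact Or.inr ⟨ha, h1⟩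
      · rintro ((h1 | h1) | h1)
        · exact h1.1
        · exact h1.1
        · exact h1.1
    rw [h1, Finset.card_union_of_disjoint, Finset.card_union_of_disjoint]
    · rw [Finset.disjoint_left]
      exact UW
    · rw [Finset.disjoint_left]
      intro a ha ha'
      rcases Finset.mem_union.1 ha with h2 | h2
      · exact MU a ha' h2
      · exact MW a ha' h2
  -- the edges
  set AU : Finset (Sym2 V) := M.image fun m => s(m, um m) with hAU
  set AW : Finset (Sym2 V) := M.image fun m => s(m, wm m) with hAW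
  have inj1 : ∀ m ∈ M, ∀ m' ∈ M, s(m, um m) = s(m', um m') → m = m' := by
    intro m hm m' hm' he
    rcases Sym2.eq_iff.1 he with ⟨h1, _⟩ | ⟨h1, _⟩
    · exact h1
    · exact absurd (h1 ▸ um_mem m' hm') (MU m hm)
  have inj2 : ∀ m ∈ M, ∀ m' ∈ M, s(m, wm m) = s(m', wm m') → m = m' := by
    intro m hm m' hm' he
    rcases Sym2.eq_iff.1 he with ⟨h1, _⟩ | ⟨h1, _⟩
    · exact h1
    · exact absurd (h1 ▸ wm_mem m' hm') (MW m hm)
  have inj3 : ∀ m ∈ M, ∀ m' ∈ M, s(m, um m) ≠ s(m', wm m') := by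
    intro m hm m' hm' he
    rcases Sym2.eq_iff.1 he with ⟨_, h1⟩ | ⟨h1, _⟩
    · exact UW _ (um_mem m hm) (h1 ▸ wm_mem m' hm')
    · exact MW m hm (h1 ▸ wm_mem m' hm')
  have hdisj : Disjoint AU AW := by
    rw [Finset.disjoint_left]
    intro e he he'
    rw [hAU, Finset.mem_image] at he
    rw [hAW, Finset.mem_image] at he'
    obtain ⟨m, hm, rfl⟩ := he
    obtain ⟨m', hm', he'⟩ := he'
    exact inj3 m hm m' hm' he'.symm
  have cA : (AU ∪ AW).card = 2 * M.card := by
    rw [Finset.card_union_of_disjoint hdisj, hAU, hAW, Finset.card_image_of_injOn,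
      Finset.card_image_of_injOn, two_mul]
    · intro m hm m' hm' he
      exact inj2 m hm m' hm' he
    · intro m hm m' hm' he
      exact inj1 m hm m' hm' he
  have memA : ∀ e, e ∈ AU ∪ AW ↔ (∃ m ∈ M, e = s(m, um m)) ∨ ∃ m ∈ M, e = s(m, wm m) := by
    intro e
    rw [Finset.mem_union, hAU, hAW, Finset.mem_image, Finset.mem_image]
    constructor
    · rintro (⟨m, hm, rfl⟩ | ⟨m, hm, rfl⟩)
      · exact Or.inl ⟨m, hm, rfl⟩
      · exact Or.inr ⟨m, hm, rfl⟩
    · rintro (⟨m, hm, rfl⟩ | ⟨m, hm, rfl⟩)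
      · exact Or.inl ⟨m, hm, rfl⟩
      · exact Or.inr ⟨m, hm, rfl⟩
  have hAe : ((AU ∪ AW : Finset (Sym2 V)) : Set (Sym2 V)) ⊆ G.edgeSet := by
    intro e he
    rw [Finset.mem_coe, memA] at he
    rcases he with ⟨m, hm, rfl⟩ | ⟨m, hm, rfl⟩
    · exact G.mem_edgeSet.2 (um_adj m hm)
    · exact G.mem_edgeSet.2 (wm_adj m hm)
  have hAS : ∀ a b, s(a, b) ∈ AU ∪ AW → a ∈ S ∧ b ∈ S := by
    intro a b hab
    rw [memA] at hab
    rcases hab with ⟨m, hm, he⟩ | ⟨m, hm, he⟩
    · have q1 := ((memM m).1 hm).1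
      have q2 := ((memU _).1 (um_mem m hm)).1
      rcases Sym2.eq_iff.1 he with ⟨h1, h2⟩ | ⟨h1, h2⟩
      · rw [h1, h2]; exact ⟨q1, q2⟩
      · rw [h1, h2]; exact ⟨q2, q1⟩
    · have q1 := ((memM m).1 hm).1
      have q2 := ((memW _).1 (wm_mem m hm)).1
      rcases Sym2.eq_iff.1 he with ⟨h1, h2⟩ | ⟨h1, h2⟩
      · rw [h1, h2]; exact ⟨q1, q2⟩
      · rw [h1, h2]; exact ⟨q2, q1⟩
  -- even subsets
  have hev : ∀ B ⊆ AU ∪ AW, B.Nonempty → (∀ v : V, Even (Nat.card {e // e ∈ B ∧ v ∈ e})) →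
      8 ≤ B.card := by
    intro B hBA hBne hBev
    obtain ⟨MB, memMB⟩ : ∃ U : Finset V, ∀ a, a ∈ U ↔ a ∈ M ∧ s(a, um a) ∈ B :=
      ⟨M.filter fun m => s(m, um m) ∈ B, fun a => by rw [Finset.mem_filter]⟩
    -- at a middle vertex
    have atM : ∀ m ∈ M, (s(m, um m) ∈ B ↔ s(m, wm m) ∈ B) := by
      intro m hm
      have oth : ∀ e ∈ B, m ∈ e → e = s(m, um m) ∨ e = s(m, wm m) := by
        intro e he hme
        rcases (memA e).1 (hBA he) with ⟨m', hm', rfl⟩ | ⟨m', hm', rfl⟩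
        · rw [Sym2.mem_iff] at hme
          rcases hme with rfl | h1
          · exact Or.inl rfl
          · exact absurd (h1 ▸ um_mem m' hm') (MU m hm)
        · rw [Sym2.mem_iff] at hme
          rcases hme with rfl | h1
          · exact Or.inr rfl
          · exact absurd (h1 ▸ wm_mem m' hm') (MW m hm)
      constructor
      · intro he
        obtain ⟨e', he', hme', hne⟩ := even_other (hBev m) he (Sym2.mem_mk_left _ _)
        rcases oth e' he' hme' with h1 | h1
        · exact absurd h1 hne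
        · exact h1 ▸ he'
      · intro he
        obtain ⟨e', he', hme', hne⟩ := even_other (hBev m) he (Sym2.mem_mk_left _ _)
        rcases oth e' he' hme' with h1 | h1
        · exact h1 ▸ he'
        · exact absurd h1 hne
    have atU : ∀ m ∈ MB, ∃ m' ∈ MB, m' ≠ m ∧ um m' = um m := by
      intro m hm
      obtain ⟨hm1, hm2⟩ := (memMB m).1 hm
      obtain ⟨e', he', hme', hne⟩ := even_other (hBev (um m)) hm2 (Sym2.mem_mk_right _ _)
      rcases (memA e').1 (hBA he') with ⟨m', hm', rfl⟩ | ⟨m', hm', rfl⟩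
      · rw [Sym2.mem_iff] at hme'
        rcases hme' with h1 | h1
        · exact absurd (h1 ▸ um_mem m hm1) (MU m' hm')
        · refine ⟨m', (memMB m').2 ⟨hm', he'⟩, ?_, h1.symm⟩
          rintro rfl
          exact hne rfl
      · rw [Sym2.mem_iff] at hme'
        rcases hme' with h1 | h1
        · exact absurd (h1 ▸ um_mem m hm1) (MU m' hm')
        · exact absurd (h1 ▸ wm_mem m' hm') (UW _ (um_mem m hm1))
    have atW : ∀ m ∈ MB, ∃ m' ∈ MB, m' ≠ m ∧ wm m' = wm m := by
      intro m hm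
      obtain ⟨hm1, hm2⟩ := (memMB m).1 hm
      obtain ⟨e', he', hme', hne⟩ := even_other (hBev (wm m)) ((atM m hm1).1 hm2)
        (Sym2.mem_mk_right _ _)
      rcases (memA e').1 (hBA he') with ⟨m', hm', rfl⟩ | ⟨m', hm', rfl⟩
      · rw [Sym2.mem_iff] at hme'
        rcases hme' with h1 | h1
        · exact absurd (h1 ▸ wm_mem m hm1) (MW m' hm')
        · exact absurd (h1 ▸ wm_mem m hm1) (UW _ (um_mem m' hm'))
      · rw [Sym2.mem_iff] at hme'
        rcases hme' with h1 | h1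
        · exact absurd (h1 ▸ wm_mem m hm1) (MW m' hm')
        · refine ⟨m', (memMB m').2 ⟨hm', (atM m' hm').2 he'⟩, ?_, h1.symm⟩
          rintro rfl
          exact hne rfl
    have nodig : ∀ m ∈ MB, ∀ m' ∈ MB, um m' = um m → wm m' = wm m → m' = m := by
      intro m hm m' hm' h1 h2
      have hm1 := ((memMB m).1 hm).1
      have hm1' := ((memMB m').1 hm').1
      obtain ⟨_, k, hk, hmk⟩ := (memM m).1 hm1
      obtain ⟨_, k', hk', hmk'⟩ := (memM m').1 hm1'
      refine nodigon (um m) (wm m) m' m ((memU _).1 (um_mem m hm1)).1 (um_kd m hm1)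
        (wm_kd m hm1) k' hk' k hk hmk' hmk ?_ ?_ (um_adj m hm1) (wm_adj m hm1)
      · rw [← h1]; exact um_adj m' hm1'
      · rw [← h2]; exact wm_adj m' hm1'
    have hMBne : ∃ m, m ∈ MB := by
      obtain ⟨e, he⟩ := hBne
      rcases (memA e).1 (hBA he) with ⟨m, hm, rfl⟩ | ⟨m, hm, rfl⟩
      · exact ⟨m, (memMB m).2 ⟨hm, he⟩⟩
      · exact ⟨m, (memMB m).2 ⟨hm, (atM m hm).2 he⟩⟩
    obtain ⟨m1, hm1⟩ := hMBne
    obtain ⟨m2, hm2, h21, hu21⟩ := atU m1 hm1
    obtain ⟨m3, hm3, h31, hw31⟩ := atW m1 hm1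
    obtain ⟨m4, hm4, h42, hw42⟩ := atW m2 hm2
    have hw12 : wm m2 ≠ wm m1 := fun hw => h21 (nodig m1 hm1 m2 hm2 hu21 hw)
    have h32 : m3 ≠ m2 := by
      rintro rfl
      exact hw12 hw31
    have h41 : m4 ≠ m1 := by
      rintro rfl
      exact hw12 hw42.symm
    have h43 : m4 ≠ m3 := by
      rintro rfl
      exact hw12 (hw42.symm.trans hw31)
    have hMB4 : 4 ≤ MB.card := by
      have h5 : ({m1, m2, m3, m4} : Finset V) ⊆ MB := by
        intro a ha
        simp only [Finset.mem_insert, Finset.mem_singleton] at ha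
        rcases ha with rfl | rfl | rfl | rfl <;> assumption
      have h6 : ({m1, m2, m3, m4} : Finset V).card = 4 := by
        rw [Finset.card_insert_of_notMem, Finset.card_insert_of_notMem,
          Finset.card_insert_of_notMem, Finset.card_singleton]
        · simp only [Finset.mem_singleton]; exact h43.symm
        · simp only [Finset.mem_insert, Finset.mem_singleton, not_or]
          exact ⟨h32.symm, h42.symm⟩
        · simp only [Finset.mem_insert, Finset.mem_singleton, not_or]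
          exact ⟨h21.symm, h31.symm, h41.symm⟩
      rw [← h6]
      exact Finset.card_le_card h5
    have h7 : (MB.image fun m => s(m, um m)) ∪ (MB.image fun m => s(m, wm m)) ⊆ B := by
      intro e he
      rw [Finset.mem_union, Finset.mem_image, Finset.mem_image] at he
      rcases he with ⟨m, hm, rfl⟩ | ⟨m, hm, rfl⟩
      · exact ((memMB m).1 hm).2
      · exact (atM m ((memMB m).1 hm).1).1 ((memMB m).1 hm).2
    have h8 := Finset.card_le_card h7
    rw [Finset.card_union_of_disjoint, Finset.card_image_of_injOn,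
      Finset.card_image_of_injOn] at h8
    · omega
    · intro m hm m' hm' he
      exact inj2 m ((memMB m).1 hm).1 m' ((memMB m').1 hm').1 he
    · intro m hm m' hm' he
      exact inj1 m ((memMB m).1 hm).1 m' ((memMB m').1 hm').1 he
    · rw [Finset.disjoint_left]
      intro e he he'
      rw [Finset.mem_image] at he he'
      obtain ⟨m, hm, rfl⟩ := he
      obtain ⟨m', hm', he'⟩ := he'
      exact inj3 m ((memMB m).1 hm).1 m' ((memMB m').1 hm').1 he'.symm
  have h1 := hsp (AU ∪ AW) hAe hev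
  have h2 := rk_lt (AU ∪ AW) S v hvS hAS
  omega

end Pool.Agent.H719.PC
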